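import Pool.Agent.CS3.Targets

/-!
# CS3-AFL: a quadratic inequality for a cubic form
-/

set_option autoImplicit false

namespace Pool.Agent.CS3

namespace AFL_

/-- the quadratic form is nonpositive on the orthogonal complement of the first vector -/
theorem neg (a300 a210 a120 a030 a201 a102 a003 a021 a012 a111 : ℝ) (h0 : 0 < a300)
    (h : ∀ a b c a' b' c' : ℝ, 0 ≤ a → 0 ≤ b → 0 ≤ c → 0 ≤ a' → 0 ≤ b' → 0 ≤ c' →
      cub a300 a210 a120 a030 a201 a102 a003 a021 a012 a111 a b c *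
        cub a300 a210 a120 a030 a201 a102 a003 a021 a012 a111 a' b' c' ≤
      cub a300 a210 a120 a030 a201 a102 a003 a021 a012 a111
        ((a + a') / 2) ((b + b') / 2) ((c + c') / 2) ^ 2)
    (x y z : ℝ) (hx : a300 * x + a210 * y + a201 * z = 0) :
    a300 * x ^ 2 + a120 * y ^ 2 + a102 * z ^ 2 + 2 * a210 * x * y + 2 * a201 * x * z +
      2 * a111 * y * z ≤ 0 := by
  obtain ⟨T, hT⟩ : ∃ T : ℝ → ℝ → ℝ → ℝ → ℝ → ℝ → ℝ → ℝ → ℝ → ℝ,
      ∀ x1 x2 x3 y1 y2 y3 z1 z2 z3, T x1 x2 x3 y1 y2 y3 z1 z2 z3 =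
        a300 * (x1 * y1 * z1) + a210 * (x1 * y1 * z2 + x1 * y2 * z1 + x2 * y1 * z1) +
        a120 * (x1 * y2 * z2 + x2 * y1 * z2 + x2 * y2 * z1) + a030 * (x2 * y2 * z2) +
        a201 * (x1 * y1 * z3 + x1 * y3 * z1 + x3 * y1 * z1) +
        a102 * (x1 * y3 * z3 + x3 * y1 * z3 + x3 * y3 * z1) + a003 * (x3 * y3 * z3) +
        a021 * (x2 * y2 * z3 + x2 * y3 * z2 + x3 * y2 * z2) +
        a012 * (x2 * y3 * z3 + x3 * y2 * z3 + x3 * y3 * z2) +
        a111 * (x1 * y2 * z3 + x1 * y3 * z2 + x2 * y1 * z3 + x2 * y3 * z1 + x3 * y1 * z2 +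
          x3 * y2 * z1) := ⟨_, fun _ _ _ _ _ _ _ _ _ => rfl⟩
  obtain ⟨m, hm⟩ : ∃ m : ℝ, m = 1 / (1 + |x| + |y| + |z|) := ⟨_, rfl⟩
  have hM : 0 < 1 + |x| + |y| + |z| := by positivity
  have hm0 : 0 < m := by rw [hm]; positivity
  have hmx : ∀ w : ℝ, |w| ≤ 1 + |x| + |y| + |z| → |m * w| ≤ 1 := by
    intro w hw
    rw [abs_mul, abs_of_pos hm0, hm, one_div, inv_mul_le_iff₀ hM, mul_one]
    exact hw
  have hx1 := abs_le.1 (hmx x (by linarith [abs_nonneg y, abs_nonneg z]))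
  have hy1 := abs_le.1 (hmx y (by linarith [abs_nonneg x, abs_nonneg z]))
  have hz1 := abs_le.1 (hmx z (by linarith [abs_nonneg x, abs_nonneg y]))
  obtain ⟨g, hg⟩ : ∃ g : ℝ → ℝ, ∀ e, g e =
      6 * T 1 e e 1 e e 1 e e * T 1 e e x y z x y z - 9 * (T 1 e e 1 e e x y z) ^ 2 +
        (e * m) ^ 2 * (9 * (T 1 e e x y z x y z) ^ 2 -
          6 * T 1 e e 1 e e x y z * T x y z x y z x y z) -
        (e * m) ^ 4 * (T x y z x y z x y z) ^ 2 := ⟨_, fun _ => rfl⟩
  have hcont : Continuous g := by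
    have : g = fun e => 6 * T 1 e e 1 e e 1 e e * T 1 e e x y z x y z -
        9 * (T 1 e e 1 e e x y z) ^ 2 +
        (e * m) ^ 2 * (9 * (T 1 e e x y z x y z) ^ 2 -
          6 * T 1 e e 1 e e x y z * T x y z x y z x y z) -
        (e * m) ^ 4 * (T x y z x y z x y z) ^ 2 := funext hg
    rw [this]
    simp only [hT]
    fun_prop
  have hle : ∀ e : ℝ, 0 < e → e ≤ 1 → g e ≤ 0 := by
    intro e he he1
    have h2 := h (1 + e * m * x) (e + e * m * y) (e + e * m * z)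
      (1 - e * m * x) (e - e * m * y) (e - e * m * z)
      (by nlinarith) (by nlinarith) (by nlinarith) (by nlinarith) (by nlinarith) (by nlinarith)
    have h3 : (1 + e * m * x + (1 - e * m * x)) / 2 = 1 := by ring
    have h4 : (e + e * m * y + (e - e * m * y)) / 2 = e := by ring
    have h5 : (e + e * m * z + (e - e * m * z)) / 2 = e := by ring
    rw [h3, h4, h5] at h2
    have h6 : cub a300 a210 a120 a030 a201 a102 a003 a021 a012 a111
          (1 + e * m * x) (e + e * m * y) (e + e * m * z) *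
        cub a300 a210 a120 a030 a201 a102 a003 a021 a012 a111
          (1 - e * m * x) (e - e * m * y) (e - e * m * z) =
        cub a300 a210 a120 a030 a201 a102 a003 a021 a012 a111 1 e e ^ 2 +
          (e * m) ^ 2 * g e := by
      rw [hg]
      simp only [hT]
      unfold cub
      ring
    rw [h6] at h2
    have h7 : (e * m) ^ 2 * g e ≤ 0 := by linarith
    have h8 : 0 < (e * m) ^ 2 := by positivity
    by_contra hcon
    push Not at hcon
    have := mul_pos h8 hcon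
    linarith
  have h00 : g 0 ≤ 0 := by
    have ht : Filter.Tendsto g (nhdsWithin 0 (Set.Ioi 0)) (nhds (g 0)) :=
      (hcont.tendsto 0).mono_left nhdsWithin_le_nhds
    refine le_of_tendsto ht ?_
    have h1 : Set.Ioc (0 : ℝ) 1 ∈ nhdsWithin (0 : ℝ) (Set.Ioi 0) :=
      Ioc_mem_nhdsGT one_pos
    filter_upwards [h1] with e he
    exact hle e he.1 he.2
  rw [hg] at h00
  simp only [hT] at h00
  have h9 : a300 * x + a210 * y + a201 * z = 0 := hx
  have h10 : 6 * a300 * (a300 * x ^ 2 + a120 * y ^ 2 + a102 * z ^ 2 + 2 * a210 * x * y +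
      2 * a201 * x * z + 2 * a111 * y * z) - 9 * (a300 * x + a210 * y + a201 * z) ^ 2 ≤ 0 := by
    refine le_trans (le_of_eq ?_) h00
    ring
  rw [h9] at h10
  by_contra hcon
  push Not at hcon
  have := mul_pos h0 hcon
  linarith

end AFL_

open AFL_ in
/-- AFL -/
theorem p_AFL : T_AFL := by
  intro a300 a210 a120 a030 a201 a102 a003 a021 a012 a111 h0 h β hβ
  have hn := neg a300 a210 a120 a030 a201 a102 a003 a021 a012 a111 h0 h
  obtain ⟨F, hF⟩ : ∃ F : ℝ, F = β ^ 2 * a300 + 2 * β * a201 + a102 := ⟨_, rfl⟩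
  obtain ⟨q, hq⟩ : ∃ q : ℝ, q = β * a300 + a201 := ⟨_, rfl⟩
  obtain ⟨s, hs⟩ : ∃ s : ℝ, s = β * a210 + a111 := ⟨_, rfl⟩
  rw [← hF] at hβ ⊢
  rw [← hs]
  by_contra hcon
  push Not at hcon
  obtain ⟨κ, hκ⟩ : ∃ κ : ℝ, κ = s / F := ⟨_, rfl⟩
  have hκF : κ * F = s := by rw [hκ]; field_simp
  obtain ⟨G, hG⟩ : ∃ G : ℝ, G = a120 - κ * s := ⟨_, rfl⟩
  have hGpos : 0 < G := by
    rw [hG, hκ]
    have h1 : a120 - s / F * s = (a120 * F - s ^ 2) / F := by field_simp
    rw [h1]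
    exact div_pos (by linarith) hβ
  obtain ⟨r, hr⟩ : ∃ r : ℝ, r = a210 - κ * q := ⟨_, rfl⟩
  by_cases hqr : q = 0 ∧ r = 0
  · have h1 := hn β 0 1 (by rw [hq] at hqr; linarith [hqr.1])
    have h2 : F ≤ 0 := by
      rw [hF]
      refine le_trans (le_of_eq ?_) h1
      ring
    linarith
  · have h1 := hn (r * β + q * κ * β) (-q) (r + q * κ) (by
      have h3 : a300 * (r * β + q * κ * β) + a210 * (-q) + a201 * (r + q * κ) =
        r * (β * a300 + a201) - q * (a210 - κ * (β * a300 + a201)) := by ring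
      rw [h3, ← hq, ← hr]
      ring)
    have h2 : a300 * (r * β + q * κ * β) ^ 2 + a120 * (-q) ^ 2 + a102 * (r + q * κ) ^ 2 +
        2 * a210 * (r * β + q * κ * β) * (-q) + 2 * a201 * (r * β + q * κ * β) * (r + q * κ) +
        2 * a111 * (-q) * (r + q * κ) = r ^ 2 * F + q ^ 2 * G := by
      have h4 : a300 * (r * β + q * κ * β) ^ 2 + a120 * (-q) ^ 2 + a102 * (r + q * κ) ^ 2 +
        2 * a210 * (r * β + q * κ * β) * (-q) + 2 * a201 * (r * β + q * κ * β) * (r + q * κ) +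
        2 * a111 * (-q) * (r + q * κ) = (r + q * κ) ^ 2 * (β ^ 2 * a300 + 2 * β * a201 + a102) -
          2 * q * (r + q * κ) * (β * a210 + a111) + q ^ 2 * a120 := by ring
      rw [h4, ← hF, ← hs, hG]
      have h5 : (r + q * κ) ^ 2 * F - 2 * q * (r + q * κ) * s + q ^ 2 * a120 =
        r ^ 2 * F + 2 * r * q * (κ * F) + q ^ 2 * κ * (κ * F) - 2 * q * (r + q * κ) * s +
          q ^ 2 * a120 := by ring
      rw [h5, hκF]
      ring
    rw [h2] at h1
    rcases not_and_or.1 hqr with h3 | h3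
    · have h4 : 0 < q ^ 2 := by positivity
      have h5 := mul_pos h4 hGpos
      have h6 : 0 ≤ r ^ 2 * F := by positivity
      linarith
    · have h4 : 0 < r ^ 2 := by positivity
      have h5 := mul_pos h4 hβ
      have h6 : 0 ≤ q ^ 2 * G := by positivity
      linarith

end Pool.Agent.CS3
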