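import Pool.Agent.CS3.Targets

/-!
# APPR: a body is approximated from inside by polytopes
-/

set_option autoImplicit false

open Finset MeasureTheory Filter Topology
open scoped Pointwise ENNReal

namespace Pool.Agent.CS3

open Pool.Agent.Shadow

theorem t_APPR : T_APPR := by
  intro n K hK h0 t ht0 ht1
  obtain ⟨hne, hcomp, hconv⟩ := hK
  have h0K : (0 : E n) ∈ K := interior_subset h0
  set t' : ℝ := (1 + t) / 2 with ht'
  have ht'0 : 0 < t' := by rw [ht']; linarith
  have ht'1 : t' < 1 := by rw [ht']; linarith
  have htt' : t < t' := by rw [ht']; linarith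
  have hsub : t' • K ⊆ interior K := by
    rintro _ ⟨x, hx, rfl⟩
    have h := hconv.combo_interior_self_mem_interior (a := 1 - t') (b := t') h0 hx
      (by linarith) ht'0.le (by ring)
    simpa using h
  have hconv' : Convex ℝ (t' • K) := hconv.smul t'
  have hcomp' : IsCompact (t' • K) := hcomp.smul t'
  obtain ⟨u, hu1, hu2⟩ := hconv'.exists_subset_interior_convexHull_finset_of_isCompact
    (t := interior K) hcomp' (isOpen_interior.mem_nhdsSet.2 hsub)
  have h0t : (0 : E n) ∈ t' • K := ⟨0, h0K, by simp⟩
  have hint : (0 : E n) ∈ interior (convexHull ℝ (u : Set (E n))) := hu1 h0t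
  have hune : u.Nonempty := by
    have : (convexHull ℝ (u : Set (E n))).Nonempty := ⟨0, interior_subset hint⟩
    rw [convexHull_nonempty_iff] at this
    exact_mod_cast this
  obtain ⟨p, hp⟩ : ∃ p, u.card = p + 1 := ⟨u.card - 1, by
    have := hune.card_pos
    omega⟩
  let e : Fin (p + 1) ≃ u := (Fin.castOrderIso hp.symm).toEquiv.trans u.equivFin.symm
  have hrange : Set.range (fun i : Fin (p + 1) => ((e i : u) : E n)) = (u : Set (E n)) := by
    ext x
    constructor
    · rintro ⟨i, rfl⟩
      exact (e i).2
    · intro hx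
      exact ⟨e.symm ⟨x, hx⟩, by simp⟩
  refine ⟨p, fun i => ((e i : u) : E n), ?_, ?_, ?_⟩
  · rw [hrange]
    exact hu2.trans interior_subset
  · rw [hrange]
    refine Set.Subset.trans ?_ (hu1.trans interior_subset)
    rintro _ ⟨x, hx, rfl⟩
    refine ⟨(t / t') • x, ?_, ?_⟩
    · have h := hconv h0K hx (a := 1 - t / t') (b := t / t')
        (by
          have : t / t' ≤ 1 := by
            rw [div_le_one ht'0]; exact htt'.le
          linarith) (by positivity) (by ring)
      simpa using h
    · simp only [smul_smul]
      congr 1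
      field_simp
  · rw [hrange]
    exact ⟨0, hint⟩

theorem p_APPR : T_APPR := t_APPR

end Pool.Agent.CS3
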