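import Pool.Agent.CS3.Targets

/-!
# BLOW: a lower bound for the mixed volume of a body and two simplices
-/

set_option autoImplicit false

open Finset MeasureTheory Filter Topology
open scoped Pointwise ENNReal

namespace Pool.Agent.CS3

open Pool.Agent.Shadow

namespace BLOW_

variable {z : Fin 4 → E 3 →L[ℝ] ℝ}

/-- the simplex `z_i ≤ c_i` -/
def up (z : Fin 4 → E 3 →L[ℝ] ℝ) (c : Fin 4 → ℝ) : Set (E 3) := {x | ∀ i, z i x ≤ c i}

/-- one coordinate lowered by `R` -/
def lw (c : Fin 4 → ℝ) (R : ℝ) (j : Fin 4) : Fin 4 → ℝ := fun i => c i - if i = j then R else 0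

theorem lw_sum (c : Fin 4 → ℝ) (R : ℝ) (j : Fin 4) : ∑ i, lw c R j i = ∑ i, c i - R := by
  unfold lw
  rw [sum_sub_distrib, Finset.sum_ite_eq' univ j fun _ => R, if_pos (mem_univ j)]

theorem frame_neg (hz : IsFrame z) : IsFrame (fun i => - z i) := by
  refine ⟨fun x => ?_, fun x hx => hz.inj x fun i => ?_⟩
  · have h := hz.sum_zero x
    simp only [neg_apply, sum_neg_distrib, h, neg_zero]
  · have h := hx i
    rw [neg_apply, neg_eq_zero] at h
    exact h

theorem neg_vol : volume.real (upS (fun i => - z i) (1 / 4)) = volume.real (upS z (1 / 4)) := by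
  have h : upS (fun i => - z i) (1 / 4) = Neg.neg ⁻¹' (upS z (1 / 4)) := by
    ext x
    simp only [upS, Set.mem_ofPred_eq, Set.mem_preimage, neg_apply, map_neg]
  rw [h]
  unfold Measure.real
  rw [Measure.measure_preimage_neg]

theorem up_vol (hSV : T_SV) (hz : IsFrame z) (c : Fin 4 → ℝ) :
    volume.real (up z c) = (max (∑ i, c i) 0) ^ 3 * volume.real (upS z (1 / 4)) := by
  have h : up z c = loS (fun i => - z i) c := by
    ext x
    simp only [up, loS, Set.mem_ofPred_eq, neg_apply, neg_le_neg_iff]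
  rw [h, hSV _ (frame_neg hz), neg_vol]

theorem up_closed (c : Fin 4 → ℝ) : IsClosed (up z c) := by
  have h : up z c = ⋂ i, {x | z i x ≤ c i} := by
    ext x
    simp only [up, Set.mem_ofPred_eq, Set.mem_iInter]
  rw [h]
  exact isClosed_iInter fun i => isClosed_le (z i).continuous continuous_const

theorem up_finite (hF : T_FBODY) (hz : IsFrame z) (c : Fin 4 → ℝ) : volume (up z c) ≠ ⊤ := by
  have h0 : 0 ≤ ∑ i, |c i| := sum_nonneg fun i _ => abs_nonneg _
  have hB := (hF 3 z hz).1 (∑ i, |c i|) h0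
  refine ne_top_of_le_ne_top hB.2.1.measure_lt_top.ne (measure_mono fun x hx i => ?_)
  exact (hx i).trans ((le_abs_self _).trans
    (single_le_sum (f := fun i => |c i|) (fun i _ => abs_nonneg _) (mem_univ i)))

theorem up_mono {c d : Fin 4 → ℝ} (h : ∀ i, c i ≤ d i) : up z c ⊆ up z d :=
  fun _ hx i => (hx i).trans (h i)

theorem lw_le {R : ℝ} (hR : 0 ≤ R) (c : Fin 4 → ℝ) (j i : Fin 4) : lw c R j i ≤ c i := by
  unfold lw
  split_ifs <;> linarith

theorem up_inter {R : ℝ} (hR : 0 ≤ R) (c : Fin 4 → ℝ) {j l : Fin 4} (hjl : j ≠ l) :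
    up z (lw c R j) ∩ up z (lw c R l) = up z (lw (lw c R j) R l) := by
  ext x
  constructor
  · rintro ⟨h1, h2⟩ i
    have h1 := h1 i
    have h2 := h2 i
    unfold lw at h1 h2 ⊢
    by_cases hj : i = j
    · rw [if_pos hj] at h1 ⊢
      rw [if_neg (by rw [hj]; exact hjl)]
      linarith
    · rw [if_neg hj] at h1 ⊢
      linarith
  · intro h
    refine ⟨fun i => (h i).trans (lw_le hR _ _ _), fun i => ?_⟩
    have h1 := h i
    unfold lw at h1 ⊢
    have : (0 : ℝ) ≤ if i = j then R else 0 := by split_ifs <;> [exact hR; exact le_rfl]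
    linarith

/-- the volume of the tube along an edge -/
theorem tube (hSV : T_SV) (hF : T_FBODY) (hz : IsFrame z) {R : ℝ} (hR : 0 ≤ R) (c : Fin 4 → ℝ)
    (hc : 2 * R ≤ ∑ i, c i) {j l : Fin 4} (hjl : j ≠ l) :
    volume.real (up z c \ (up z (lw c R j) ∪ up z (lw c R l))) =
      (6 * (∑ i, c i) * R ^ 2 - 6 * R ^ 3) * volume.real (upS z (1 / 4)) := by
  have hm : ∀ d, MeasurableSet (up z d) := fun d => (up_closed d).measurableSet
  rw [measureReal_sdiff (Set.union_subset (up_mono (lw_le hR c j)) (up_mono (lw_le hR c l)))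
    ((hm _).union (hm _)) (up_finite hF hz c)]
  have h1 := measureReal_union_add_inter (μ := (volume : Measure (E 3))) (s := up z (lw c R j))
    (hm (lw c R l)) (up_finite hF hz _) (up_finite hF hz _)
  rw [up_inter hR c hjl, up_vol hSV hz, up_vol hSV hz, up_vol hSV hz, lw_sum, lw_sum, lw_sum,
    max_eq_left (by linarith), max_eq_left (by linarith)] at h1
  rw [up_vol hSV hz, max_eq_left (by linarith)]
  have h2 : volume.real (up z (lw c R j) ∪ up z (lw c R l)) =
      2 * ((∑ i, c i - R) ^ 3 * volume.real (upS z (1 / 4))) -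
        (∑ i, c i - R - R) ^ 3 * volume.real (upS z (1 / 4)) := by linarith
  rw [h2]
  ring

/-- the inclusion -/
theorem incl {h : Fin 4 → ℝ} {L : Set (E 3)} {p : Fin 4 → E 3} (hp : ∀ i, p i ∈ L)
    (hph : ∀ i, z i (p i) = h i) {R : ℝ} (hR : ∀ i j, h j - z j (p i) ≤ R) (r : ℝ) :
    up z (fun i => h i + r / 4) ⊆ (L + upS z (r / 4)) ∪
      ⋃ q ∈ univ.filter (fun q : Fin 4 × Fin 4 => q.1 ≠ q.2),
        (up z (fun i => h i + r / 4) \ (up z (lw (fun i => h i + r / 4) R q.1) ∪
          up z (lw (fun i => h i + r / 4) R q.2))) := by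
  intro x hx
  by_cases hS : ∃ j l, j ≠ l ∧ r / 4 + h j - R < z j x ∧ r / 4 + h l - R < z l x
  · obtain ⟨j, l, hjl, h1, h2⟩ := hS
    refine Or.inr ?_
    rw [Set.mem_iUnion₂]
    refine ⟨(j, l), mem_filter.2 ⟨mem_univ _, hjl⟩, hx, ?_⟩
    rintro (h3 | h3)
    · have h4 := h3 j
      simp only [lw, if_true] at h4
      linarith
    · have h4 := h3 l
      simp only [lw, if_true] at h4
      linarith
  · have key : ∃ i, ∀ j, j ≠ i → z j x ≤ r / 4 + h j - R := by
      by_cases h0 : ∃ i, r / 4 + h i - R < z i x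
      · obtain ⟨i, hi⟩ := h0
        refine ⟨i, fun j hj => ?_⟩
        by_contra hcon
        exact hS ⟨j, i, hj, not_le.1 hcon, hi⟩
      · refine ⟨0, fun j _ => ?_⟩
        by_contra hcon
        exact h0 ⟨j, not_le.1 hcon⟩
    obtain ⟨i, hi⟩ := key
    refine Or.inl (Set.mem_add.2 ⟨p i, hp i, x - p i, fun j => ?_, add_sub_cancel _ _⟩)
    rw [map_sub]
    by_cases hj : j = i
    · subst hj
      have h1 := hx j
      simp only at h1
      rw [hph]
      linarith
    · have h1 := hi j hj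
      have h2 := hR i j
      linarith

/-- a quadratic inequality for large `r` -/
theorem large {ε C₀ C₁ r₀ : ℝ} (h : ∀ r, r₀ ≤ r → 0 ≤ r → ε * r ^ 2 ≤ C₀ + C₁ * r) : ε ≤ 0 := by
  by_contra hε
  push Not at hε
  set r := max r₀ (max 1 ((|C₀| + |C₁|) / ε + 1)) with hr
  have h1 : r₀ ≤ r := le_max_left _ _
  have h2 : (1 : ℝ) ≤ r := (le_max_left _ _).trans (le_max_right _ _)
  have h3 : (|C₀| + |C₁|) / ε + 1 ≤ r := (le_max_right _ _).trans (le_max_right _ _)
  have h4 := h r h1 (by linarith)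
  have h5 : C₀ ≤ |C₀| * r := by
    nlinarith [le_abs_self C₀, abs_nonneg C₀]
  have h6 : C₁ * r ≤ |C₁| * r := mul_le_mul_of_nonneg_right (le_abs_self _) (by linarith)
  have h7 : |C₀| + |C₁| < ε * r := by
    have : (|C₀| + |C₁|) / ε < r := by linarith
    rw [div_lt_iff₀ hε] at this
    linarith
  have h8 : (|C₀| + |C₁|) * r < ε * r * r := mul_lt_mul_of_pos_right h7 (by linarith)
  nlinarith

end BLOW_

/-- BLOW -/
theorem p_BLOW (h_SV : T_SV) (h_TRUNC : T_TRUNC) (h_FBODY : T_FBODY) (h_FSURJ : T_FSURJ) :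
    T_BLOW := by
  have _ := h_TRUNC
  have _ := h_FSURJ
  intro z hz h L hL hp hH a300 a201 a102 a003 ha hpoly
  choose p hpL hph using hp
  set H := ∑ i, h i with hHdef
  have ha0 : 0 ≤ a003 := by rw [ha]; exact measureReal_nonneg
  -- the constant `R`
  obtain ⟨R, hR0, hR⟩ : ∃ R : ℝ, 0 ≤ R ∧ ∀ i j, h j - z j (p i) ≤ R := by
    refine ⟨∑ q : Fin 4 × Fin 4, |h q.2 - z q.2 (p q.1)|, sum_nonneg fun _ _ => abs_nonneg _,
      fun i j => ?_⟩
    exact (le_abs_self _).trans (single_le_sum (f := fun q : Fin 4 × Fin 4 =>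
      |h q.2 - z q.2 (p q.1)|) (fun _ _ => abs_nonneg _) (mem_univ (i, j)))
  have hsum : ∀ r : ℝ, ∑ i, (h i + r / 4) = H + r := by
    intro r
    rw [sum_add_distrib, sum_const, card_univ, Fintype.card_fin, nsmul_eq_mul]
    push_cast
    ring
  -- the volume inequality
  have hvol : ∀ r : ℝ, 2 * R ≤ r → 0 ≤ r →
      (H + r) ^ 3 * a003 ≤ (a300 + 3 * a201 * r + 3 * a102 * r ^ 2 + a003 * r ^ 3) +
        12 * ((6 * (H + r) * R ^ 2 - 6 * R ^ 3) * a003) := by
    intro r hr hr0
    have h1 := BLOW_.up_vol h_SV hz (fun i => h i + r / 4)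
    rw [hsum, max_eq_left (by linarith), ← ha] at h1
    rw [← h1, ← hpoly r hr0]
    have hcomp : IsCompact (L + upS z (r / 4)) :=
      hL.2.1.add ((h_FBODY 3 z hz).1 (r / 4) (by linarith)).2.1
    have hfin : volume ((L + upS z (r / 4)) ∪
      ⋃ q ∈ univ.filter (fun q : Fin 4 × Fin 4 => q.1 ≠ q.2),
        (BLOW_.up z (fun i => h i + r / 4) \ (BLOW_.up z (BLOW_.lw (fun i => h i + r / 4) R q.1) ∪
          BLOW_.up z (BLOW_.lw (fun i => h i + r / 4) R q.2)))) ≠ ⊤ := by
      refine ne_top_of_le_ne_top (b := volume ((L + upS z (r / 4)) ∪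
        BLOW_.up z (fun i => h i + r / 4))) ?_ (measure_mono (Set.union_subset_union_right _ ?_))
      · exact ne_top_of_le_ne_top (ENNReal.add_ne_top.2 ⟨hcomp.measure_lt_top.ne,
          BLOW_.up_finite h_FBODY hz _⟩) (measure_union_le _ _)
      · exact Set.iUnion₂_subset fun q _ => Set.sdiff_subset
    refine (measureReal_mono (BLOW_.incl hpL hph hR r) hfin).trans ?_
    refine (measureReal_union_le _ _).trans (add_le_add le_rfl ?_)
    refine (measureReal_biUnion_finset_le _ _).trans ?_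
    have h2 : ∀ q ∈ univ.filter (fun q : Fin 4 × Fin 4 => q.1 ≠ q.2),
        volume.real (BLOW_.up z (fun i => h i + r / 4) \
          (BLOW_.up z (BLOW_.lw (fun i => h i + r / 4) R q.1) ∪
          BLOW_.up z (BLOW_.lw (fun i => h i + r / 4) R q.2))) =
        (6 * (H + r) * R ^ 2 - 6 * R ^ 3) * a003 := by
      intro q hq
      have h3 := BLOW_.tube h_SV h_FBODY hz hR0 (fun i => h i + r / 4) (by rw [hsum]; linarith)
        (mem_filter.1 hq).2
      rw [hsum, ← ha] at h3
      exact h3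
    rw [sum_congr rfl h2, sum_const, nsmul_eq_mul]
    have h4 : (univ.filter (fun q : Fin 4 × Fin 4 => q.1 ≠ q.2)).card = 12 := by decide
    rw [h4]
    norm_num
  -- comparison of the coefficients
  have hfinal : H * a003 - a102 ≤ 0 := by
    refine BLOW_.large (C₀ := (a300 + 72 * H * R ^ 2 * a003) / 3)
      (C₁ := a201 + 24 * R ^ 2 * a003) (r₀ := 2 * R) fun r hr hr0 => ?_
    have h1 := hvol r hr hr0
    have h2 : 0 ≤ 3 * H ^ 2 * r * a003 + H ^ 3 * a003 + 72 * R ^ 3 * a003 := by positivity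
    nlinarith
  linarith

end Pool.Agent.CS3
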