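import Pool.Agent.CS3.Targets

/-!
# CHV: the volume of a sum of polytopes is the integral of a determinant
-/

set_option autoImplicit false

open Finset MeasureTheory Filter Topology
open scoped Pointwise ENNReal

namespace Pool.Agent.CS3

open Pool.Agent.Shadow

namespace CHV_

lemma det_nonneg_of {n : ℕ} (A : E n →L[ℝ] E n)
    (hs : ∀ d e : E n, inner ℝ (A d) e = inner ℝ d (A e)) (hp : ∀ d : E n, 0 ≤ inner ℝ (A d) d) :
    0 ≤ A.det := by
  have h1 : (A : E n →ₗ[ℝ] E n).IsPositive := by
    refine ⟨fun d e => hs d e, fun d => ?_⟩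
    simpa using hp d
  have h2 := (LinearMap.posSemidef_toMatrix_iff (stdOrthonormalBasis ℝ (E n))).2 h1
  have h3 := h2.det_nonneg
  rw [LinearMap.det_toMatrix] at h3
  exact h3

lemma body_sum {n r p : ℕ} (v : Fin r → Fin (p + 1) → E n) (a : Fin r → ℝ) :
    IsCompact (poS v a) ∧ Convex ℝ (poS v a) := by
  unfold poS
  have h : ∀ s : Finset (Fin r), IsCompact (∑ i ∈ s, a i • convexHull ℝ (Set.range (v i))) ∧
      Convex ℝ (∑ i ∈ s, a i • convexHull ℝ (Set.range (v i))) := by
    intro s
    induction s using Finset.induction_on with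
    | empty =>
      rw [Finset.sum_empty]
      exact ⟨isCompact_singleton, convex_singleton 0⟩
    | insert i s hi ih =>
      rw [Finset.sum_insert hi]
      exact ⟨(((Set.finite_range (v i)).isCompact_convexHull (𝕜 := ℝ)).smul (a i)).add ih.1,
        ((convex_convexHull ℝ _).smul (a i)).add ih.2⟩
  exact h Finset.univ

end CHV_

open CHV_ in
theorem p_CHV (h_LSEA : T_LSEA) (h_LSEC : T_LSEC) (h_IMG : T_IMG) : T_CHV := by
  intro n r p v a hv ha hpos
  obtain ⟨hinj, hrange⟩ := h_IMG n r p v a hv ha hpos
  have hder : ∀ x, HasFDerivAt (cg v a) (ch v a x) x := by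
    intro x
    unfold cg ch
    exact HasFDerivAt.fun_sum (fun i _ => (h_LSEA n p (v i) x).const_smul (a i))
  have hdet : ∀ x, 0 ≤ (ch v a x).det := by
    intro x
    refine det_nonneg_of _ (fun d e => ?_) (fun d => ?_)
    · unfold ch
      simp only [_root_.sum_apply, _root_.smul_apply, sum_inner,
        inner_sum, inner_smul_left, inner_smul_right]
      refine Finset.sum_congr rfl (fun i _ => ?_)
      rw [((h_LSEC n p (v i)).1 x d e).1]
      simp
    · unfold ch
      simp only [_root_.sum_apply, _root_.smul_apply, sum_inner,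
        inner_smul_left]
      refine Finset.sum_nonneg (fun i _ => mul_nonneg (by simpa using ha i) ?_)
      exact ((h_LSEC n p (v i)).1 x d d).2
  have hmeas : Measurable (fun x => (ch v a x).det) := by
    have h1 : (fun x => (ch v a x).det) = fun x => (fderiv ℝ (cg v a) x).det := by
      funext x
      rw [(hder x).fderiv]
    rw [h1]
    exact ContinuousLinearMap.continuous_det.measurable.comp (measurable_fderiv ℝ (cg v a))
  have himg : ∫⁻ x, ENNReal.ofReal ((ch v a x).det) = volume (poS v a) := by
    have h1 := lintegral_abs_det_fderiv_eq_addHaar_image (volume : Measure (E n))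
      MeasurableSet.univ (fun x _ => (hder x).hasFDerivWithinAt) hinj.injOn
    rw [Set.image_univ, hrange, Measure.restrict_univ] at h1
    have h2 : volume (interior (poS v a)) = volume (poS v a) := by
      have h3 := (body_sum v a).2.addHaar_frontier (volume : Measure (E n))
      refine le_antisymm (measure_mono interior_subset) ?_
      calc volume (poS v a) ≤ volume (interior (poS v a) ∪ frontier (poS v a)) :=
            measure_mono (by rw [← closure_eq_interior_union_frontier]; exact subset_closure)
        _ ≤ volume (interior (poS v a)) + volume (frontier (poS v a)) := measure_union_le _ _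
        _ = volume (interior (poS v a)) := by rw [h3, add_zero]
    rw [← h2, ← h1]
    refine lintegral_congr (fun x => ?_)
    rw [abs_of_nonneg (hdet x)]
  have hfin : volume (poS v a) ≠ ∞ := (body_sum v a).1.measure_lt_top.ne
  refine ⟨⟨hmeas.aestronglyMeasurable, ?_⟩, ?_⟩
  · rw [hasFiniteIntegral_iff_ofReal (ae_of_all _ hdet), himg]
    exact lt_of_le_of_ne le_top hfin
  · rw [integral_eq_lintegral_of_nonneg_ae (ae_of_all _ hdet) hmeas.aestronglyMeasurable, himg]
    rfl

end Pool.Agent.CS3
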