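import Pool.Agent.CS3.Targets

/-!
# Covering shadows in dimension three: COMB
-/

set_option autoImplicit false

open Finset MeasureTheory Filter Topology
open scoped Pointwise ENNReal

namespace Pool.Agent.CS3

open Pool.Agent.Shadow

theorem p_COMB (h_GAIN : T_GAIN) (h_HULLB : T_HULLB) (h_FBODY : T_FBODY) (h_STAR : T_STAR) :
    T_COMB := by
  intro n hn z hz K L hK hL hKL s r hs hr
  have h1s : (0 : ℝ) ≤ 1 + s := by linarith
  obtain ⟨hHb, hLH, hsm⟩ := h_HULLB n hn z hz L hL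
  have hA : IsBody (L + s • K) :=
    ⟨hL.1.add (hK.1.smul_set), hL.2.1.add (hK.2.1.smul s), hL.2.2.add (hK.2.2.smul s)⟩
  have hA1 : IsBody ((1 + s) • L) :=
    ⟨hL.1.smul_set, hL.2.1.smul _, hL.2.2.smul _⟩
  have hB : IsBody (hull z ((1 + s) • L)) := (h_HULLB n hn z hz _ hA1).1
  have hN : IsBody (upS z r) := (h_FBODY n z hz).1 r hr
  have hsub : L + s • K ⊆ hull z ((1 + s) • L) := by
    rw [hsm (1 + s) h1s, hHb.2.2.add_smul zero_le_one hs, one_smul]
    exact Set.add_subset_add hLH (Set.smul_set_mono hKL)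
  have h1 := h_GAIN n (L + s • K) (hull z ((1 + s) • L)) (upS z r) hA hB hN hsub
  have h2 := h_STAR n hn z hz ((1 + s) • L) hA1 r hr
  linarith

end Pool.Agent.CS3
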