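import Pool.Agent.CS3.Targets

/-!
# CONA: the minimal dilate
-/

set_option autoImplicit false

open Finset MeasureTheory Filter Topology
open scoped Pointwise ENNReal

namespace Pool.Agent.CS3

open Pool.Agent.Shadow

namespace CONA_

/-- the admissible pairs for one point -/
def G {n : ℕ} (L : Set (E n)) (s₁ : ℝ) (x : E n) : Set (ℝ × E n) :=
  (fun p : ℝ × E n => (p.1, x - p.1 • p.2)) '' (Set.Icc 0 s₁ ×ˢ L)

lemma isCompact_G {n : ℕ} {L : Set (E n)} (hL : IsCompact L) (s₁ : ℝ) (x : E n) :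
    IsCompact (G L s₁ x) := by
  refine (isCompact_Icc.prod hL).image ?_
  fun_prop

lemma mem_G {n : ℕ} {L : Set (E n)} {s₁ : ℝ} {x : E n} {s : ℝ} {t : E n} :
    (s, t) ∈ G L s₁ x ↔ 0 ≤ s ∧ s ≤ s₁ ∧ ∃ y ∈ L, s • y + t = x := by
  unfold G
  constructor
  · rintro ⟨⟨s', y⟩, ⟨hs, hy⟩, h⟩
    simp only [Prod.mk.injEq] at h
    obtain ⟨h1, h2⟩ := h
    simp only [Set.mem_Icc] at hs hy
    subst h1
    refine ⟨hs.1, hs.2, y, hy, ?_⟩
    rw [← h2]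
    abel
  · rintro ⟨h0, h1, y, hy, h⟩
    refine ⟨(s, y), ⟨⟨h0, h1⟩, hy⟩, ?_⟩
    simp only [Prod.mk.injEq, true_and]
    rw [← h]
    abel

end CONA_

open CONA_ in
theorem p_CONA : T_CONA := by
  intro n K L hK hL hLi hno
  obtain ⟨x₀, hx₀⟩ := hK.1
  obtain ⟨p, hp⟩ := hL.1
  obtain ⟨c, hc⟩ := hLi
  obtain ⟨r, hr, hball⟩ := Metric.isOpen_iff.1 isOpen_interior c hc
  obtain ⟨R, hR⟩ := hK.2.1.isBounded.exists_norm_le
  have hR0 : 0 ≤ R := (norm_nonneg _).trans (hR x₀ hx₀)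
  set s₁ : ℝ := (R + 1) / r with hs₁
  have hs₁0 : 0 < s₁ := by positivity
  have hex : K ⊆ (fun x => s₁ • x + (-(s₁ • c))) '' L := by
    intro x hx
    refine ⟨s₁⁻¹ • x + c, interior_subset (hball ?_), ?_⟩
    · rw [Metric.mem_ball, dist_eq_norm, add_sub_cancel_right, norm_smul, norm_inv,
        Real.norm_of_nonneg hs₁0.le, inv_mul_lt_iff₀ hs₁0]
      have h1 : s₁ * r = R + 1 := by rw [hs₁]; field_simp
      rw [h1]
      linarith [hR x hx]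
    · show s₁ • (s₁⁻¹ • x + c) + (-(s₁ • c)) = x
      rw [smul_add, smul_inv_smul₀ hs₁0.ne', add_neg_cancel_right]
  set A : Set (ℝ × E n) := ⋂ x ∈ K, G L s₁ x with hA
  have hmem : ∀ s t, (s, t) ∈ A ↔ 0 ≤ s ∧ s ≤ s₁ ∧ K ⊆ (fun x => s • x + t) '' L := by
    intro s t
    rw [hA, Set.mem_iInter₂]
    constructor
    · intro h
      refine ⟨(mem_G.1 (h x₀ hx₀)).1, (mem_G.1 (h x₀ hx₀)).2.1, fun x hx => ?_⟩
      obtain ⟨-, -, y, hy, hyx⟩ := mem_G.1 (h x hx)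
      exact ⟨y, hy, hyx⟩
    · rintro ⟨h0, h1, h2⟩ x hx
      obtain ⟨y, hy, hyx⟩ := h2 hx
      exact mem_G.2 ⟨h0, h1, y, hy, hyx⟩
  have hAc : IsCompact A :=
    (isCompact_G hL.2.1 s₁ x₀).of_isClosed_subset
      (isClosed_biInter fun x _ => (isCompact_G hL.2.1 s₁ x).isClosed)
      (Set.biInter_subset_of_mem hx₀)
  have hAne : A.Nonempty := ⟨(s₁, -(s₁ • c)), (hmem _ _).2 ⟨hs₁0.le, le_refl _, hex⟩⟩
  obtain ⟨⟨s, t⟩, hst, hmin⟩ := hAc.exists_isMinOn hAne continuous_fst.continuousOn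
  have hst' := (hmem s t).1 hst
  refine ⟨s, t, ?_, hst'.2.2, ?_⟩
  · by_contra hs
    push Not at hs
    apply hno
    refine ⟨t - (1 - s) • p, fun x hx => ?_⟩
    obtain ⟨y, hy, hyx⟩ := hst'.2.2 hx
    refine ⟨s • y + (1 - s) • p, hL.2.2 hy hp hst'.1 (by linarith) (by ring), ?_⟩
    show s • y + (1 - s) • p + (t - (1 - s) • p) = x
    rw [← hyx]
    abel
  · intro s' t' hs' hK'
    by_cases h : s' ≤ s₁
    · exact hmin ((hmem s' t').2 ⟨hs', h, hK'⟩)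
    · push Not at h
      exact hst'.2.1.trans h.le

end Pool.Agent.CS3
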