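import Pool.Agent.CS3.Targets

set_option autoImplicit false

open Finset MeasureTheory Filter Topology
open scoped Pointwise ENNReal

namespace Pool.Agent.CS3

open Pool.Agent.Shadow

namespace CONB_

/-- the convex hull of a compact set in a Euclidean space is compact -/
private lemma isCompact_hull {n : ℕ} {U : Set (E n)} (hU : IsCompact U) :
    IsCompact (convexHull ℝ U) := by
  classical
  rcases U.eq_empty_or_nonempty with rfl | ⟨u₀, hu₀⟩
  · simp
  let Ψ : (Fin (n + 1) → ℝ) × (Fin (n + 1) → E n) → E n := fun p => ∑ i, p.1 i • p.2 i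
  have hΨ : Continuous Ψ := by
    refine continuous_finsetSum _ ?_
    intro i _
    exact ((continuous_apply i).comp continuous_fst).smul ((continuous_apply i).comp continuous_snd)
  have hK : IsCompact ((stdSimplex ℝ (Fin (n + 1))) ×ˢ (Set.univ.pi fun _ : Fin (n + 1) => U)) :=
    (isCompact_stdSimplex ℝ _).prod (isCompact_univ_pi fun _ => hU)
  have himg : Ψ '' ((stdSimplex ℝ (Fin (n + 1))) ×ˢ (Set.univ.pi fun _ : Fin (n + 1) => U)) =
      convexHull ℝ U := by
    apply Set.Subset.antisymm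
    · rintro x ⟨⟨a, z⟩, ⟨ha, hz⟩, rfl⟩
      simp only [Ψ]
      refine (convex_convexHull ℝ U).sum_mem (fun i _ => ha.1 i) ha.2 ?_
      intro i _
      exact subset_convexHull ℝ U (hz i (Set.mem_univ i))
    · intro x hx
      obtain ⟨ι, hι, z, w, hz, hai, hw, hw1, hsum⟩ := eq_pos_convex_span_of_mem_convexHull hx
      have hcard : Fintype.card ι ≤ n + 1 := by
        have h1 := hai.card_le_finrank_succ
        refine h1.trans ?_
        have h2 : Module.finrank ℝ (vectorSpan ℝ (Set.range z)) ≤ Module.finrank ℝ (E n) :=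
          Submodule.finrank_le _
        have h3 : Module.finrank ℝ (E n) = n := by simp [E]
        omega
      obtain ⟨e⟩ : Nonempty (ι ↪ Fin (n + 1)) := by
        apply Function.Embedding.nonempty_of_card_le
        simpa using hcard
      let a : Fin (n + 1) → ℝ := Function.extend e w 0
      let y : Fin (n + 1) → E n := Function.extend e z (fun _ => u₀)
      have ha_e : ∀ i, a (e i) = w i := fun i => e.injective.extend_apply _ _ i
      have hy_e : ∀ i, y (e i) = z i := fun i => e.injective.extend_apply _ _ i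
      have ha_0 : ∀ j, (¬ ∃ i, e i = j) → a j = 0 := fun j hj => by
        simp only [a]
        rw [Function.extend_apply' _ _ _ hj]
        rfl
      have hy_0 : ∀ j, (¬ ∃ i, e i = j) → y j = u₀ := fun j hj =>
        Function.extend_apply' _ _ _ hj
      have key : ∀ (F : Type) [AddCommMonoid F] (f : Fin (n + 1) → F),
          (∀ j, (¬ ∃ i, e i = j) → f j = 0) → ∑ j, f j = ∑ i, f (e i) := by
        intro F _ f hf
        rw [← Finset.sum_map Finset.univ e f]
        symm
        apply Finset.sum_subset (Finset.subset_univ _)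
        intro j _ hj
        apply hf
        rintro ⟨i, rfl⟩
        exact hj (Finset.mem_map_of_mem e (Finset.mem_univ i))
      refine ⟨(a, y), ⟨⟨?_, ?_⟩, ?_⟩, ?_⟩
      · intro j
        show 0 ≤ a j
        by_cases hj : ∃ i, e i = j
        · obtain ⟨i, rfl⟩ := hj
          rw [ha_e]
          exact (hw i).le
        · rw [ha_0 j hj]
      · rw [key ℝ a ha_0]
        simp only [ha_e]
        exact hw1
      · intro j _
        by_cases hj : ∃ i, e i = j
        · obtain ⟨i, rfl⟩ := hj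
          show y (e i) ∈ U
          rw [hy_e]
          exact hz ⟨i, rfl⟩
        · show y j ∈ U
          rw [hy_0 j hj]
          exact hu₀
      · simp only [Ψ]
        rw [key (E n) (fun j => a j • y j) (fun j hj => by rw [ha_0 j hj, zero_smul])]
        simp only [ha_e, hy_e]
        exact hsum
  rw [← himg]
  exact hK.image hΨ

/-- unit vectors with maximisers on the two bodies -/
private def ZZ {n : ℕ} (K L : Set (E n)) : Set (E n × E n × E n) :=
  {z | ‖z.1‖ = 1 ∧ z.2.1 ∈ K ∧ z.2.2 ∈ L ∧ (∀ x ∈ K, inner ℝ z.1 x ≤ inner ℝ z.1 z.2.1) ∧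
    ∀ x ∈ L, inner ℝ z.1 x ≤ inner ℝ z.1 z.2.2}

private lemma isCompact_ZZ {n : ℕ} {K L : Set (E n)} (hK : IsBody K) (hL : IsBody L) :
    IsCompact (ZZ K L) := by
  have h1 : IsCompact (Metric.sphere (0 : E n) 1 ×ˢ (K ×ˢ L)) :=
    (isCompact_sphere 0 1).prod (hK.2.1.prod hL.2.1)
  refine h1.of_isClosed_subset ?_ ?_
  · have hKc : IsClosed K := hK.2.1.isClosed
    have hLc : IsClosed L := hL.2.1.isClosed
    have e : ZZ K L = {z : E n × E n × E n | ‖z.1‖ = 1} ∩
        ((fun z : E n × E n × E n => z.2.1) ⁻¹' K ∩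
        ((fun z : E n × E n × E n => z.2.2) ⁻¹' L ∩
        ((⋂ x ∈ K, {z : E n × E n × E n | inner ℝ z.1 x ≤ inner ℝ z.1 z.2.1}) ∩
        (⋂ x ∈ L, {z : E n × E n × E n | inner ℝ z.1 x ≤ inner ℝ z.1 z.2.2})))) := by
      ext z
      simp only [ZZ, Set.mem_ofPred_eq, Set.mem_inter_iff, Set.mem_preimage, Set.mem_iInter]
    rw [e]
    refine (isClosed_eq (continuous_norm.comp continuous_fst) continuous_const).inter
      ((hKc.preimage (continuous_fst.comp continuous_snd)).inter
      ((hLc.preimage (continuous_snd.comp continuous_snd)).inter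
      ((isClosed_biInter fun x _ => ?_).inter (isClosed_biInter fun x _ => ?_))))
    · exact isClosed_le (by fun_prop) (by fun_prop)
    · exact isClosed_le (by fun_prop) (by fun_prop)
  · rintro ⟨u, k, l⟩ ⟨h1, h2, h3, _, _⟩
    exact ⟨by simpa using h1, h2, h3⟩

/-- the defect -/
private noncomputable def DD {n : ℕ} (s : ℝ) (t : E n) (z : E n × E n × E n) : ℝ :=
  s * inner ℝ z.1 z.2.2 + inner ℝ z.1 t - inner ℝ z.1 z.2.1

private lemma cont_DD {n : ℕ} (s : ℝ) (t : E n) : Continuous (DD s t) := by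
  unfold DD
  fun_prop

end CONB_

open CONB_ in
/-- CONB -/
theorem p_CONB : T_CONB := by
  intro n K L hK hL _ s t hs hKL hmin
  by_contra h0
  -- the compact set of contacts
  set Z := ZZ K L with hZ
  have hZc : IsCompact Z := isCompact_ZZ hK hL
  set U : Set (E n) := {u : E n | ‖u‖ = 1 ∧
    ∃ k ∈ K, ∃ l ∈ L, (∀ x ∈ K, inner ℝ u x ≤ inner ℝ u k) ∧ (∀ x ∈ L, inner ℝ u x ≤ inner ℝ u l) ∧
      inner ℝ u k = s * inner ℝ u l + inner ℝ u t} with hU
  have hUimg : U = Prod.fst '' (Z ∩ {z | DD s t z = 0}) := by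
    ext u
    constructor
    · rintro ⟨h1, k, hk, l, hl, h2, h3, h4⟩
      refine ⟨(u, k, l), ⟨⟨h1, hk, hl, h2, h3⟩, ?_⟩, rfl⟩
      simp only [Set.mem_ofPred_eq, DD]
      linarith
    · rintro ⟨⟨u', k, l⟩, ⟨⟨h1, hk, hl, h2, h3⟩, h4⟩, rfl⟩
      refine ⟨h1, k, hk, l, hl, h2, h3, ?_⟩
      simp only [Set.mem_ofPred_eq, DD] at h4
      linarith
  have hUc : IsCompact U := by
    rw [hUimg]
    exact (hZc.inter_right (isClosed_eq (cont_DD s t) continuous_const)).image continuous_fst
  have hconvc : IsCompact (convexHull ℝ U) := isCompact_hull hUc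
  -- separation
  obtain ⟨f, c, hf0, hfc⟩ := geometric_hahn_banach_point_closed (convex_convexHull ℝ U)
    hconvc.isClosed h0
  obtain ⟨w, hw⟩ : ∃ w : E n, ∀ x, f x = inner ℝ w x :=
    ⟨(InnerProductSpace.toDual ℝ (E n)).symm f, fun x => by
      rw [InnerProductSpace.toDual_symm_apply]⟩
  have hc0 : 0 < c := by
    have := hf0
    rwa [map_zero] at this
  have hwU : ∀ u ∈ U, c < inner ℝ w u := fun u hu => by
    rw [← hw]
    exact hfc u (subset_convexHull ℝ U hu)
  -- the defect is nonnegative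
  have hD0 : ∀ z ∈ Z, 0 ≤ DD s t z := by
    rintro ⟨u, k, l⟩ ⟨h1, hk, hl, h2, h3⟩
    obtain ⟨l', hl', hkl⟩ := hKL hk
    have h4 := h3 l' hl'
    simp only at hkl h4
    have h5 : inner ℝ u k = s * inner ℝ u l' + inner ℝ u t := by
      rw [← hkl, inner_add_right, inner_smul_right]
    simp only [DD]
    nlinarith
  -- a uniform lower bound
  obtain ⟨η, m, hη, hm, hlow⟩ : ∃ η m : ℝ, 0 < η ∧ 0 < m ∧
      ∀ z ∈ Z, m ≤ DD s t z + η * inner ℝ w z.1 := by
    set Z' := Z ∩ {z : E n × E n × E n | inner ℝ w z.1 ≤ c / 2} with hZ'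
    have hZ'c : IsCompact Z' := hZc.inter_right (isClosed_le (by fun_prop) continuous_const)
    obtain ⟨d, hd, hdlow⟩ : ∃ d : ℝ, 0 < d ∧ ∀ z ∈ Z', d ≤ DD s t z := by
      rcases Z'.eq_empty_or_nonempty with he | hne
      · exact ⟨1, one_pos, fun z hz => by rw [he] at hz; exact absurd hz (Set.notMem_empty z)⟩
      · obtain ⟨z₀, hz₀, hz₀min⟩ := hZ'c.exists_isMinOn hne (cont_DD s t).continuousOn
        refine ⟨DD s t z₀, ?_, fun z hz => hz₀min hz⟩
        rcases (hD0 z₀ hz₀.1).lt_or_eq with h | h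
        · exact h
        · exfalso
          have h5 : z₀.1 ∈ U := by
            rw [hUimg]
            exact ⟨z₀, ⟨hz₀.1, h.symm⟩, rfl⟩
          have h6 := hwU _ h5
          have h7 := hz₀.2
          simp only [Set.mem_ofPred_eq] at h7
          linarith
    have hwn : 0 ≤ ‖w‖ := norm_nonneg w
    set η := d / (2 * (‖w‖ + 1)) with hη
    have hη0 : 0 < η := by positivity
    refine ⟨η, min (d / 2) (η * c / 2), hη0, by positivity, ?_⟩
    intro z hz
    by_cases hzz : inner ℝ w z.1 ≤ c / 2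
    · have h1 := hdlow z ⟨hz, hzz⟩
      have h2 : |inner ℝ w z.1| ≤ ‖w‖ * ‖z.1‖ := abs_real_inner_le_norm _ _
      rw [hz.1, mul_one] at h2
      have h3 : -‖w‖ ≤ inner ℝ w z.1 := (abs_le.mp h2).1
      have h4 : η * ‖w‖ ≤ d / 2 := by
        rw [hη, div_mul_eq_mul_div, div_le_div_iff₀ (by positivity) (by norm_num)]
        nlinarith
      have h5 : η * (-‖w‖) ≤ η * inner ℝ w z.1 := mul_le_mul_of_nonneg_left h3 hη0.le
      exact (min_le_left _ _).trans (by linarith)
    · push Not at hzz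
      have h1 := hD0 z hz
      have h2 : η * (c / 2) ≤ η * inner ℝ w z.1 := mul_le_mul_of_nonneg_left hzz.le hη0.le
      exact (min_le_right _ _).trans (by linarith)
  -- a bound for `L`
  obtain ⟨M, hM0, hM⟩ : ∃ M : ℝ, 0 < M ∧ ∀ l ∈ L, ‖l‖ ≤ M := by
    obtain ⟨M, hM⟩ := hL.2.1.isBounded.exists_norm_le
    exact ⟨max M 1, by positivity, fun l hl => (hM l hl).trans (le_max_left _ _)⟩
  set ε := min 1 (m / M) with hε
  have hε0 : 0 < ε := by positivity
  have hε1 : ε ≤ 1 := min_le_left _ _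
  have hεM : ε * M ≤ m := by
    have := min_le_right 1 (m / M)
    rw [← hε] at this
    calc ε * M ≤ (m / M) * M := mul_le_mul_of_nonneg_right this hM0.le
      _ = m := by field_simp
  have hnew := hmin (s - ε) (t + η • w) (by linarith) ?_
  · linarith
  -- the inclusion
  intro k₀ hk₀
  by_contra hnot
  have hbody := body_aff (s - ε) (t + η • w) hL
  have hset : IsCompact ((fun x => (s - ε) • x + (t + η • w)) '' L) := hbody.2.1
  have hconv : Convex ℝ ((fun x => (s - ε) • x + (t + η • w)) '' L) := hbody.2.2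
  obtain ⟨g, c', hg1, hg2⟩ := geometric_hahn_banach_closed_point hconv hset.isClosed hnot
  obtain ⟨v, hv⟩ : ∃ v : E n, ∀ x, g x = inner ℝ v x :=
    ⟨(InnerProductSpace.toDual ℝ (E n)).symm g, fun x => by
      rw [InnerProductSpace.toDual_symm_apply]⟩
  obtain ⟨l₀, hl₀⟩ := hL.1
  have hv0 : v ≠ 0 := by
    rintro rfl
    have h1 := hg1 _ ⟨l₀, hl₀, rfl⟩
    rw [hv, inner_zero_left] at h1
    rw [hv, inner_zero_left] at hg2
    linarith
  have hvn : 0 < ‖v‖ := norm_pos_iff.mpr hv0
  set u : E n := ‖v‖⁻¹ • v with hu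
  have hun : ‖u‖ = 1 := by
    rw [hu, norm_smul, norm_inv, norm_norm, inv_mul_cancel₀ hvn.ne']
  have huv : ∀ x, inner ℝ u x = ‖v‖⁻¹ * inner ℝ v x := fun x => by
    rw [hu, inner_smul_left]
    rfl
  obtain ⟨k, hk, hkmax⟩ := hK.2.1.exists_isMaxOn hK.1
    (f := fun x => inner ℝ u x) (by fun_prop : Continuous fun x : E n => inner ℝ u x).continuousOn
  obtain ⟨l, hl, hlmax⟩ := hL.2.1.exists_isMaxOn ⟨l₀, hl₀⟩
    (f := fun x => inner ℝ u x) (by fun_prop : Continuous fun x : E n => inner ℝ u x).continuousOn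
  have hzZ : ((u, k, l) : E n × E n × E n) ∈ Z :=
    ⟨hun, hk, hl, fun x hx => hkmax hx, fun x hx => hlmax hx⟩
  have h1 := hlow _ hzZ
  simp only [DD] at h1
  have h2 : inner ℝ u k₀ ≤ inner ℝ u k := hkmax hk₀
  have h3 := hg1 _ ⟨l, hl, rfl⟩
  rw [hv] at h3 hg2
  have h4 : inner ℝ u ((s - ε) • l + (t + η • w)) < inner ℝ u k₀ := by
    rw [huv, huv]
    exact mul_lt_mul_of_pos_left (h3.trans hg2) (by positivity)
  rw [inner_add_right, inner_add_right, inner_smul_right, inner_smul_right] at h4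
  have h5 : |inner ℝ u l| ≤ ‖u‖ * ‖l‖ := abs_real_inner_le_norm _ _
  rw [hun, one_mul] at h5
  have h6 : inner ℝ u l ≤ M := (le_abs_self _).trans (h5.trans (hM l hl))
  have h7 : inner ℝ w u = inner ℝ u w := real_inner_comm _ _
  rw [h7] at h1
  have h8 : ε * inner ℝ u l ≤ m := (mul_le_mul_of_nonneg_left h6 hε0.le).trans hεM
  nlinarith

end Pool.Agent.CS3
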