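import Pool.Agent.CS3.Targets

set_option autoImplicit false

open Finset

namespace Pool.Agent.CS3

open Pool.Agent.Shadow

theorem p_CONC : T_CONC := by
  intro n hn K L hK hL hLi hcov s t hs h0
  obtain ⟨ι, _, z, w, hz, hind, hw, hw1, hsum⟩ := eq_pos_convex_span_of_mem_convexHull h0
  have hz' : ∀ i, ‖z i‖ = 1 ∧ ∃ k ∈ K, ∃ l ∈ L,
      (∀ x ∈ K, inner ℝ (z i) x ≤ inner ℝ (z i) k) ∧
      (∀ x ∈ L, inner ℝ (z i) x ≤ inner ℝ (z i) l) ∧
      inner ℝ (z i) k = s * inner ℝ (z i) l + inner ℝ (z i) t := fun i => hz ⟨i, rfl⟩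
  choose hnorm k hk l hl hkmax hlmax heq using hz'
  obtain ⟨x0, hx0⟩ := hLi
  have hne : Nonempty ι := by
    by_contra hc
    rw [not_nonempty_iff] at hc
    simp at hw1
  have hzero : ∀ x : E n, ∑ i, w i * inner ℝ (z i) x = 0 := by
    intro x
    have : inner ℝ (∑ i, w i • z i) x = ∑ i, w i * inner ℝ (z i) x := by
      rw [sum_inner]
      exact Finset.sum_congr rfl fun i _ => by rw [inner_smul_left]; simp
    rw [← this, hsum, inner_zero_left]
  have hpos : 0 < ∑ i, w i * inner ℝ (z i) (l i) := by
    rw [← hzero x0]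
    apply Finset.sum_lt_sum_of_nonempty univ_nonempty
    intro i _
    apply mul_lt_mul_of_pos_left _ (hw i)
    rw [mem_interior_iff_mem_nhds, Metric.mem_nhds_iff] at hx0
    obtain ⟨ε, hε, hball⟩ := hx0
    have hmem : x0 + (ε / 2) • z i ∈ L := by
      apply hball
      rw [Metric.mem_ball, dist_eq_norm]
      simp only [add_sub_cancel_left, norm_smul, hnorm i, mul_one, Real.norm_eq_abs]
      rw [abs_of_pos (by positivity)]
      linarith
    have h1 := hlmax i _ hmem
    rw [inner_add_right, inner_smul_right, real_inner_self_eq_norm_sq, hnorm i] at h1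
    nlinarith
  have hA : ∀ x : E n, (∀ i, inner ℝ (z i) x = 0) → x = 0 := by
    intro x hx
    by_contra hx0
    have hnx : (0 : ℝ) < ‖x‖ := norm_pos_iff.2 hx0
    obtain ⟨v, -, hv⟩ := hcov ((‖x‖)⁻¹ • x) (by
      rw [norm_smul, norm_inv, norm_norm, inv_mul_cancel₀ hnx.ne'])
    have hsh : ∀ (i : ι) (y : E n), inner ℝ (z i) (Shadow.shadow ((‖x‖)⁻¹ • x) y) = inner ℝ (z i) y := by
      intro i y
      unfold Shadow.shadow
      rw [inner_sub_right, inner_smul_right, inner_smul_right, hx i]
      ring
    have hle : ∀ i, inner ℝ (z i) (k i) + inner ℝ (z i) v ≤ inner ℝ (z i) (l i) := by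
      intro i
      obtain ⟨y, hy, hyeq⟩ := hv ⟨_, ⟨k i, hk i, rfl⟩, rfl⟩
      have h2 : inner ℝ (z i) (Shadow.shadow ((‖x‖)⁻¹ • x) y) =
          inner ℝ (z i) (Shadow.shadow ((‖x‖)⁻¹ • x) (k i) + v) := by
        rw [hyeq]
      rw [inner_add_right, hsh, hsh] at h2
      rw [← h2]
      exact hlmax i y hy
    have h3 : ∑ i, w i * (inner ℝ (z i) (k i) + inner ℝ (z i) v) ≤
        ∑ i, w i * inner ℝ (z i) (l i) :=
      Finset.sum_le_sum fun i _ => mul_le_mul_of_nonneg_left (hle i) (hw i).le
    have h4 : ∑ i, w i * (inner ℝ (z i) (k i) + inner ℝ (z i) v) =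
        s * ∑ i, w i * inner ℝ (z i) (l i) := by
      have : ∑ i, w i * (inner ℝ (z i) (k i) + inner ℝ (z i) v) =
          s * ∑ i, w i * inner ℝ (z i) (l i) + ∑ i, w i * inner ℝ (z i) t +
          ∑ i, w i * inner ℝ (z i) v := by
        rw [Finset.mul_sum, ← Finset.sum_add_distrib, ← Finset.sum_add_distrib]
        refine Finset.sum_congr rfl fun i _ => ?_
        rw [heq i]
        ring
      rw [this, hzero, hzero]
      ring
    rw [h4] at h3
    nlinarith
  have hcard : Fintype.card ι = n + 1 := by
    apply le_antisymm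
    · have := hind.card_le_finrank_succ
      have h5 : Module.finrank ℝ (vectorSpan ℝ (Set.range z)) ≤ n := by
        have := Submodule.finrank_le (vectorSpan ℝ (Set.range z))
        simpa using this
      omega
    · by_contra hcon
      push Not at hcon
      let f : (ι → ℝ) →ₗ[ℝ] E n := Fintype.linearCombination ℝ z
      have hrange : LinearMap.range f = ⊤ := by
        rw [Fintype.range_linearCombination, ← Submodule.orthogonal_eq_bot_iff]
        rw [Submodule.eq_bot_iff]
        intro x hx
        apply hA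
        intro i
        exact (Submodule.mem_orthogonal _ _).1 hx _ (Submodule.subset_span ⟨i, rfl⟩)
      have hrk := LinearMap.finrank_range_add_finrank_ker f
      rw [hrange, finrank_top] at hrk
      simp only [finrank_euclideanSpace, Fintype.card_fin, Module.finrank_fintype_fun_eq_card] at hrk
      have hker : LinearMap.ker f = ⊥ := by
        apply Submodule.finrank_eq_zero.1
        omega
      have hwk : w ∈ LinearMap.ker f := by
        rw [LinearMap.mem_ker]
        show Fintype.linearCombination ℝ z w = 0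
        rw [Fintype.linearCombination_apply, hsum]
      rw [hker, Submodule.mem_bot] at hwk
      obtain ⟨i⟩ := hne
      have := hw i
      rw [hwk] at this
      exact lt_irrefl _ this
  let e : Fin (n + 1) ≃ ι := (Fintype.equivFinOfCardEq hcard).symm
  refine ⟨fun i => z (e i), fun i => k (e i), fun i => l (e i), fun i => w (e i),
    fun i => hw _, ?_, ?_, ?_, ?_⟩
  · rw [← hsum]
    exact e.sum_comp (fun i => w i • z i)
  · intro x hx
    apply hA
    intro i
    have := hx (e.symm i)
    simpa using this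
  · intro i
    exact ⟨hk _, hl _, hkmax _, hlmax _, heq _⟩
  · have := e.sum_comp (fun i => w i * inner ℝ (z i) (l i))
    rw [this]
    exact hpos

end Pool.Agent.CS3
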