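import Pool.Agent.CS3.Targets

/-!
# Covering shadows in dimension three: the contact simplex (CONT)
-/

set_option autoImplicit false

open Finset MeasureTheory Filter Topology
open scoped Pointwise ENNReal

namespace Pool.Agent.CS3

open Pool.Agent.Shadow

theorem p_CONT (h_CONA : T_CONA) (h_CONB : T_CONB) (h_CONC : T_CONC) (h_FSURJ : T_FSURJ) :
    T_CONT := by
  intro n hn K L hK hL hLi hcov hnot
  obtain ⟨s, t, hs, hKL, hmin⟩ := h_CONA n K L hK hL hLi hnot
  have h0 := h_CONB n K L hK hL hLi s t hs hKL hmin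
  obtain ⟨u, k, l, c, hc, hcu, hinj, hkl, hH⟩ := h_CONC n hn K L hK hL hLi hcov s t hs h0
  set H : ℝ := ∑ i, c i * inner ℝ (u i) (l i) with hHdef
  have hH0 : H ≠ 0 := hH.ne'
  let z : Fin (n + 1) → E n →L[ℝ] ℝ := fun i => (-(c i / H)) • innerSL ℝ (u i)
  have hz : ∀ i x, z i x = -(c i / H) * inner ℝ (u i) x := by
    intro i x
    simp only [z, smul_apply, innerSL_apply_apply, smul_eq_mul]
  have hfr : IsFrame z := by
    refine ⟨?_, ?_⟩
    · intro x
      have h1 : ∑ i, z i x = -(1 / H) * inner ℝ (∑ i, c i • u i) x := by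
        rw [sum_inner, Finset.mul_sum]
        refine Finset.sum_congr rfl fun i _ => ?_
        rw [hz, real_inner_smul_left]
        ring
      rw [h1, hcu, inner_zero_left, mul_zero]
    · intro x hx
      apply hinj
      intro i
      have h1 := hx i
      rw [hz] at h1
      have h2 : -(c i / H) ≠ 0 := neg_ne_zero.2 (div_ne_zero (hc i).ne' hH0)
      exact (mul_eq_zero.1 h1).resolve_left h2
  let g : Fin (n + 1) → ℝ := fun i => c i / H * inner ℝ (u i) (l i)
  have hg : ∀ i, g i = c i / H * inner ℝ (u i) (l i) := fun i => rfl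
  have hgs : ∑ i, g i = 1 := by
    have h1 : ∑ i, g i = H / H := by
      rw [hHdef, Finset.sum_div]
      refine Finset.sum_congr rfl fun i _ => ?_
      rw [hg]
      ring
    rw [h1, div_self hH0]
  have hn1 : (0 : ℝ) < (n : ℝ) + 1 := by positivity
  set δ : ℝ := (s - 1) / ((n : ℝ) + 1) with hδdef
  have hδ : 0 < δ := div_pos (by linarith) hn1
  have hδ2 : ((n : ℝ) + 1) * δ = s - 1 := by
    rw [hδdef]
    field_simp
  obtain ⟨w, hw⟩ := h_FSURJ n z hfr (fun i => (s - 1) * g i - z i t - δ) (by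
    rw [Finset.sum_sub_distrib, Finset.sum_sub_distrib, ← Finset.mul_sum, hgs, hfr.sum_zero t]
    simp only [Finset.sum_const, Finset.card_univ, Fintype.card_fin, nsmul_eq_mul]
    push_cast
    linarith)
  have hcH : ∀ i, 0 < c i / H := fun i => div_pos (hc i) hH
  refine ⟨z, g, δ, w, t, hfr, hgs, hδ, ?_, ?_, ?_, ?_⟩
  · intro i x hx
    obtain ⟨-, -, -, h3, -⟩ := hkl i
    rw [hz, hg]
    have h4 := mul_le_mul_of_nonneg_left (h3 x hx) (hcH i).le
    linarith
  · intro i
    obtain ⟨-, h1, -, -, -⟩ := hkl i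
    refine ⟨l i, h1, ?_⟩
    rw [hz, hg]
    ring
  · intro i
    obtain ⟨h1, -, -, -, h5⟩ := hkl i
    refine ⟨k i, h1, ?_⟩
    rw [map_add, hw i, hz, hz, h5, hg]
    ring
  · have h1 : 1 + ((n : ℝ) + 1) * δ = s := by rw [hδ2]; ring
    rw [h1]
    exact hKL

end Pool.Agent.CS3
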