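import Pool.Agent.CS3.Targets

/-!
# Covering shadows in dimension three: upper bound for the first mixed volume
-/

set_option autoImplicit false

open Finset MeasureTheory Filter Topology
open scoped Pointwise ENNReal

namespace Pool.Agent.CS3

open Pool.Agent.Shadow

theorem cup_lim (f g : ℝ → ℝ) (hf : Continuous f) (hg : Continuous g)
    (h : ∀ r : ℝ, 0 < r → f r ≤ g r) : f 0 ≤ g 0 := by
  have h1 : Tendsto f (𝓝[>] 0) (𝓝 (f 0)) := (hf.tendsto 0).mono_left nhdsWithin_le_nhds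
  have h2 : Tendsto g (𝓝[>] 0) (𝓝 (g 0)) := (hg.tendsto 0).mono_left nhdsWithin_le_nhds
  exact le_of_tendsto_of_tendsto h1 h2 (by
    filter_upwards [self_mem_nhdsWithin] with r hr
    exact h r hr)

theorem cup_pos (b r : ℝ) (hr : 0 ≤ r) :
    (max (b + r) 0) ^ 3 - (max b 0) ^ 3 ≤ 3 * r * (max b 0 + r) ^ 2 := by
  have hp : 0 ≤ max b 0 := le_max_right _ _
  have h1 : max (b + r) 0 ≤ max b 0 + r :=
    max_le (by linarith [le_max_left b 0]) (by linarith)
  have h2 : (max (b + r) 0) ^ 3 ≤ (max b 0 + r) ^ 3 :=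
    pow_le_pow_left₀ (le_max_right _ _) h1 3
  have h3 : (max b 0 + r) ^ 3 - (max b 0) ^ 3 ≤ 3 * r * (max b 0 + r) ^ 2 := by
    have h4 : 0 ≤ r ^ 2 * (3 * max b 0 + 2 * r) := by positivity
    nlinarith [h4]
  linarith

theorem cup_neg (m r : ℝ) (hr : 0 ≤ r) (hm : m ≤ 1) :
    6 * r * (1 - m) ^ 2 ≤ (max (1 + 3 * r - (m + r)) 0) ^ 3 - (max (1 - m) 0) ^ 3 := by
  rw [max_eq_left (by linarith), max_eq_left (by linarith)]
  have h4 : 0 ≤ r ^ 2 * (12 * (1 - m) + 8 * r) := by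
    have : 0 ≤ 1 - m := by linarith
    positivity
  nlinarith [h4]

theorem cup_bon (m : Fin 4 → ℝ) (hm : ∀ i, m i ≤ 1) (r : ℝ) (hr : 0 ≤ r) :
    bon (1 + 3 * r) (fun i => m i + r) - bon 1 m ≤
      9 * r + 27 * r ^ 2 + 27 * r ^ 3 - 6 * r * ∑ i, (1 - m i) ^ 2 +
      3 * r * ((max (1 - m 0 - m 1) 0 + r) ^ 2 + (max (1 - m 0 - m 2) 0 + r) ^ 2 +
        (max (1 - m 0 - m 3) 0 + r) ^ 2 + (max (1 - m 1 - m 2) 0 + r) ^ 2 +
        (max (1 - m 1 - m 3) 0 + r) ^ 2 + (max (1 - m 2 - m 3) 0 + r) ^ 2) := by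
  have e : ∀ i j : Fin 4, 1 + 3 * r - (m i + r) - (m j + r) = (1 - m i - m j) + r := by
    intro i j; ring
  unfold bon
  simp only [e]
  have s1 : ∑ i, 6 * r * (1 - m i) ^ 2 ≤
      ∑ i, ((max (1 + 3 * r - (m i + r)) 0) ^ 3 - (max (1 - m i) 0) ^ 3) :=
    Finset.sum_le_sum fun i _ => cup_neg (m i) r hr (hm i)
  rw [Finset.sum_sub_distrib, ← Finset.mul_sum] at s1
  have p01 := cup_pos (1 - m 0 - m 1) r hr
  have p02 := cup_pos (1 - m 0 - m 2) r hr
  have p03 := cup_pos (1 - m 0 - m 3) r hr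
  have p12 := cup_pos (1 - m 1 - m 2) r hr
  have p13 := cup_pos (1 - m 1 - m 3) r hr
  have p23 := cup_pos (1 - m 2 - m 3) r hr
  have q : (1 + 3 * r) ^ 3 - 1 ^ 3 = 9 * r + 27 * r ^ 2 + 27 * r ^ 3 := by ring
  linarith

theorem p_CUP (h_GAIN : T_GAIN) (h_TRUNC : T_TRUNC) (h_FBODY : T_FBODY) : T_CUP := by
  intro z hz g h L hL hLB hg hm1 hm0 hm3 a300 a201 a102 a003 hV hpoly
  set V : ℝ := volume.real (upS z (1 / 4)) with hVdef
  have hV0 : 0 ≤ V := measureReal_nonneg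
  have hBne : (trS z g h).Nonempty := hL.1.mono hLB
  have hB : IsBody (trS z g h) := (h_FBODY 3 z hz).2.2 g h hBne
  -- the value at zero
  have hN0 : upS z 0 = {0} := by
    apply Set.eq_singleton_iff_unique_mem.2
    refine ⟨fun i => by rw [map_zero], fun x hx => ?_⟩
    apply hz.inj
    have hnn : ∀ i, 0 ≤ -z i x := fun i => by have := hx i; linarith
    have hsum : ∑ i, -z i x = 0 := by rw [Finset.sum_neg_distrib, hz.sum_zero, neg_zero]
    have := (Finset.sum_eq_zero_iff_of_nonneg fun i _ => hnn i).1 hsum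
    intro i
    have := this i (Finset.mem_univ i)
    linarith
  have ha300 : volume.real L = a300 := by
    have := hpoly 0 le_rfl
    rw [zero_div, hN0, Set.add_singleton] at this
    simpa using this
  -- the main inequality
  have key : ∀ r : ℝ, 0 < r → a201 + a102 * r + a003 * r ^ 2 / 3 ≤
      V * (3 + 9 * r + 9 * r ^ 2 - 2 * ∑ i, (1 - (g i + h i)) ^ 2 +
      ((max (1 - (g 0 + h 0) - (g 1 + h 1)) 0 + r) ^ 2 +
       (max (1 - (g 0 + h 0) - (g 2 + h 2)) 0 + r) ^ 2 +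
       (max (1 - (g 0 + h 0) - (g 3 + h 3)) 0 + r) ^ 2 +
       (max (1 - (g 1 + h 1) - (g 2 + h 2)) 0 + r) ^ 2 +
       (max (1 - (g 1 + h 1) - (g 3 + h 3)) 0 + r) ^ 2 +
       (max (1 - (g 2 + h 2) - (g 3 + h 3)) 0 + r) ^ 2)) := by
    intro r hr
    have hNb : IsBody (upS z (r / 4)) := (h_FBODY 3 z hz).1 (r / 4) (by positivity)
    have hgain := h_GAIN 3 L (trS z g h) (upS z (r / 4)) hL hB hNb hLB
    set g' : Fin 4 → ℝ := fun i => g i + 3 * r / 4 with hg'
    set h' : Fin 4 → ℝ := fun i => h i + r / 4 with hh'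
    have hsub : trS z g h + upS z (r / 4) ⊆ trS z g' h' := by
      rintro x ⟨b, hb, y, hy, rfl⟩ i
      have hb1 := hb i
      have hy1 := hy i
      have hy2 : -(3 * r / 4) ≤ z i y := by
        have hsum := hz.sum_zero y
        rw [← Finset.add_sum_erase _ _ (Finset.mem_univ i)] at hsum
        have hle : ∑ j ∈ Finset.univ.erase i, z j y ≤ ∑ j ∈ Finset.univ.erase i, r / 4 :=
          Finset.sum_le_sum fun j _ => hy j
        rw [Finset.sum_const, Finset.card_erase_of_mem (Finset.mem_univ i), Finset.card_univ,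
          Fintype.card_fin, nsmul_eq_mul] at hle
        norm_num at hle
        have hs0 := hz.sum_zero y
        linarith
      show -g' i ≤ z i (b + y) ∧ z i (b + y) ≤ h' i
      rw [map_add]
      simp only [hg', hh']
      constructor <;> linarith [hb1.1, hb1.2]
    have hB'ne : (trS z g' h').Nonempty := (hBne.add hNb.1).mono hsub
    have hB' : IsBody (trS z g' h') := (h_FBODY 3 z hz).2.2 g' h' hB'ne
    have hmono : volume.real (trS z g h + upS z (r / 4)) ≤ volume.real (trS z g' h') :=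
      measureReal_mono hsub hB'.2.1.measure_lt_top.ne
    have hsg' : ∑ i, g' i = 1 + 3 * r := by
      simp only [hg']
      rw [Finset.sum_add_distrib, hg]
      simp
      ring
    have hup := (h_TRUNC z hz g' h' (by rw [hsg']; linarith)
      (fun i => by simp only [hg', hh']; have := hm0 i; linarith)).1
    have hfun : (fun i => g' i + h' i) = fun i => (g i + h i) + r := by
      funext i
      simp only [hg', hh']
      ring
    rw [hsg', hfun, ← hVdef] at hup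
    have hlo := (h_TRUNC z hz g h (by rw [hg]; norm_num) hm0).2
      (fun i => by rw [hg]; exact hm3 i)
    rw [hg, ← hVdef] at hlo
    have hb := cup_bon (fun i => g i + h i) hm1 r hr.le
    have hbV := mul_le_mul_of_nonneg_right hb hV0
    have hp := hpoly r hr.le
    rw [ha300, hp] at hgain
    have hfin : 3 * a201 * r + 3 * a102 * r ^ 2 + a003 * r ^ 3 ≤
        (bon (1 + 3 * r) (fun i => (g i + h i) + r) - bon 1 (fun i => g i + h i)) * V := by
      rw [sub_mul]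
      linarith
    have h3 := hfin.trans hbV
    have h4 : (3 * r) * (a201 + a102 * r + a003 * r ^ 2 / 3) ≤ (3 * r) *
        (V * (3 + 9 * r + 9 * r ^ 2 - 2 * ∑ i, (1 - (g i + h i)) ^ 2 +
      ((max (1 - (g 0 + h 0) - (g 1 + h 1)) 0 + r) ^ 2 +
       (max (1 - (g 0 + h 0) - (g 2 + h 2)) 0 + r) ^ 2 +
       (max (1 - (g 0 + h 0) - (g 3 + h 3)) 0 + r) ^ 2 +
       (max (1 - (g 1 + h 1) - (g 2 + h 2)) 0 + r) ^ 2 +
       (max (1 - (g 1 + h 1) - (g 3 + h 3)) 0 + r) ^ 2 +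
       (max (1 - (g 2 + h 2) - (g 3 + h 3)) 0 + r) ^ 2))) := by
      calc (3 * r) * (a201 + a102 * r + a003 * r ^ 2 / 3)
          = 3 * a201 * r + 3 * a102 * r ^ 2 + a003 * r ^ 3 := by ring
        _ ≤ _ := h3
        _ = _ := by ring
    exact le_of_mul_le_mul_left h4 (by linarith)
  have hlim := cup_lim (fun r => a201 + a102 * r + a003 * r ^ 2 / 3)
    (fun r => V * (3 + 9 * r + 9 * r ^ 2 - 2 * ∑ i, (1 - (g i + h i)) ^ 2 +
      ((max (1 - (g 0 + h 0) - (g 1 + h 1)) 0 + r) ^ 2 +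
       (max (1 - (g 0 + h 0) - (g 2 + h 2)) 0 + r) ^ 2 +
       (max (1 - (g 0 + h 0) - (g 3 + h 3)) 0 + r) ^ 2 +
       (max (1 - (g 1 + h 1) - (g 2 + h 2)) 0 + r) ^ 2 +
       (max (1 - (g 1 + h 1) - (g 3 + h 3)) 0 + r) ^ 2 +
       (max (1 - (g 2 + h 2) - (g 3 + h 3)) 0 + r) ^ 2)))
    (by fun_prop) (by fun_prop) key
  simp only [mul_zero, add_zero, ne_eq, OfNat.ofNat_ne_zero, not_false_eq_true, zero_pow,
    zero_div] at hlim
  rw [hV]
  linarith

end Pool.Agent.CS3
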