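import Pool.Agent.Shadow.Main

/-!
# Covering shadows in dimension three: definitions
-/

set_option autoImplicit false

open Finset MeasureTheory Filter Topology
open scoped Pointwise ENNReal

namespace Pool.Agent.CS3

open Pool.Agent.Shadow

/-- coordinates adapted to a simplex: `n + 1` functionals with sum zero which separate points -/
structure IsFrame {n : ℕ} (z : Fin (n + 1) → E n →L[ℝ] ℝ) : Prop where
  sum_zero : ∀ x, ∑ i, z i x = 0
  inj : ∀ x, (∀ i, z i x = 0) → x = 0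

/-- the simplex `z_i ≤ r` -/
def upS {n : ℕ} (z : Fin (n + 1) → E n →L[ℝ] ℝ) (r : ℝ) : Set (E n) := {x | ∀ i, z i x ≤ r}

/-- the simplex `z_i ≥ -c_i` -/
def loS {n : ℕ} (z : Fin (n + 1) → E n →L[ℝ] ℝ) (c : Fin (n + 1) → ℝ) : Set (E n) :=
  {x | ∀ i, -c i ≤ z i x}

/-- the truncated simplex `-g_i ≤ z_i ≤ h_i` -/
def trS {n : ℕ} (z : Fin (n + 1) → E n →L[ℝ] ℝ) (g h : Fin (n + 1) → ℝ) : Set (E n) :=
  {x | ∀ i, -g i ≤ z i x ∧ z i x ≤ h i}

/-- the functionals (in coordinates) on the walls of the normal fan of the simplex `upS`: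
the minimal coordinate is attained at least twice -/
def Wall {n : ℕ} (q : Fin (n + 1) → ℝ) : Prop := ∃ i j, i ≠ j ∧ q i = q j ∧ ∀ l, q i ≤ q l

/-- the largest set with the same support function as `A` on the walls -/
def hull {n : ℕ} (z : Fin (n + 1) → E n →L[ℝ] ℝ) (A : Set (E n)) : Set (E n) :=
  {x | ∀ q : Fin (n + 1) → ℝ, Wall q → ∃ a ∈ A, ∑ l, q l * z l x ≤ ∑ l, q l * z l a}

/-- general cubic form, with binomial normalisation -/
def cub (a300 a210 a120 a030 a201 a102 a003 a021 a012 a111 : ℝ) (a b c : ℝ) : ℝ :=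
  a300 * a ^ 3 + 3 * a210 * a ^ 2 * b + 3 * a120 * a * b ^ 2 + a030 * b ^ 3 +
    3 * a201 * a ^ 2 * c + 3 * a102 * a * c ^ 2 + a003 * c ^ 3 +
    3 * a021 * b ^ 2 * c + 3 * a012 * b * c ^ 2 + 6 * a111 * a * b * c

/-- a function of three nonnegative variables is a cubic form -/
def IsCub (F : ℝ → ℝ → ℝ → ℝ) : Prop :=
  ∃ a300 a210 a120 a030 a201 a102 a003 a021 a012 a111 : ℝ, ∀ a b c : ℝ, 0 ≤ a → 0 ≤ b → 0 ≤ c →
    F a b c = cub a300 a210 a120 a030 a201 a102 a003 a021 a012 a111 a b c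

/-- the ten nodes -/
def nodes : Fin 10 → ℝ × ℝ × ℝ :=
  ![(1, 0, 0), (0, 1, 0), (0, 0, 1), (1, 1, 0), (2, 1, 0), (1, 0, 1), (2, 0, 1), (0, 1, 1),
    (0, 2, 1), (1, 1, 1)]

/-- the cubic form with given values at the ten nodes -/
noncomputable def interp (f : Fin 10 → ℝ) (a b c : ℝ) : ℝ :=
  let p210 := (f 4 - 2 * f 3 - 6 * f 0 + f 1) / 2
  let p120 := f 3 - f 0 - f 1 - p210
  let p201 := (f 6 - 2 * f 5 - 6 * f 0 + f 2) / 2
  let p102 := f 5 - f 0 - f 2 - p201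
  let p021 := (f 8 - 2 * f 7 - 6 * f 1 + f 2) / 2
  let p012 := f 7 - f 1 - f 2 - p021
  let p111 := f 9 - f 0 - f 1 - f 2 - p210 - p120 - p201 - p102 - p021 - p012
  f 0 * a ^ 3 + p210 * a ^ 2 * b + p120 * a * b ^ 2 + f 1 * b ^ 3 +
    p201 * a ^ 2 * c + p102 * a * c ^ 2 + f 2 * c ^ 3 +
    p021 * b ^ 2 * c + p012 * b * c ^ 2 + p111 * a * b * c

/-- weights of the log-sum-exp function -/
noncomputable def wt {n p : ℕ} (v : Fin p → E n) (x : E n) (j : Fin p) : ℝ :=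
  Real.exp (inner ℝ (v j) x) / ∑ k, Real.exp (inner ℝ (v k) x)

/-- log-sum-exp -/
noncomputable def lse {n p : ℕ} (v : Fin p → E n) (x : E n) : ℝ :=
  Real.log (∑ k, Real.exp (inner ℝ (v k) x))

/-- gradient of log-sum-exp -/
noncomputable def gr {n p : ℕ} (v : Fin p → E n) (x : E n) : E n := ∑ j, wt v x j • v j

/-- Hessian of log-sum-exp -/
noncomputable def hs {n p : ℕ} (v : Fin p → E n) (x : E n) : E n →L[ℝ] E n :=
  ∑ j, wt v x j • ((innerSL ℝ (v j - gr v x)).smulRight (v j - gr v x))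

/-- the constant of the theorem in dimension three -/
noncomputable def kap : ℝ := (85 - 18 * √3) / 37

end Pool.Agent.CS3
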