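import Pool.Agent.CS3.Targets

/-!
# Covering shadows in dimension three: EROS
-/

set_option autoImplicit false

open Finset MeasureTheory Filter Topology
open scoped Pointwise ENNReal

namespace Pool.Agent.CS3

open Pool.Agent.Shadow

theorem p_EROS : T_EROS := by
  intro n K L hK hL hc ε hε M hM0 hM
  obtain ⟨l0, hl0⟩ := hL.1
  set A : Set (E n) := (1 + ε) • K with hA
  set B0 : Set (E n) := A + ε • L with hB0
  set w : E n := -(ε • l0) with hw
  set B : Set (E n) := (fun x => (1 : ℝ) • x + w) '' B0 with hB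
  have hAbody : IsBody A := ⟨hK.1.smul_set, hK.2.1.smul _, hK.2.2.smul _⟩
  have hB0body : IsBody B0 :=
    ⟨hAbody.1.add (hL.1.smul_set), hAbody.2.1.add (hL.2.1.smul ε), hAbody.2.2.add (hL.2.2.smul ε)⟩
  have hBbody : IsBody B := body_aff 1 w hB0body
  have hAB : A ⊆ B := by
    intro x hx
    refine ⟨x + ε • l0, Set.add_mem_add hx (Set.smul_mem_smul_set hl0), ?_⟩
    simp [hw]
  have hloss := loss_mono hL.1 hL.2.1 hε.le hAbody.2.1.isClosed hAbody.2.2 hBbody.2.1 hAB
  set W : Set (E n) := erode A L ε with hW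
  have hWsub : volume W ≤ volume A := measure_erode_le hL.1 ε
  have hWM : volume.real W ≤ M := by
    rcases W.eq_empty_or_nonempty with h | h
    · rw [h]; simpa using hM0
    · refine hM W ⟨h, ?_, erode_convex hAbody.2.2 ε⟩ (erode_covers hL hc hε.le)
      have hcomp : IsCompact ((fun x => x + -(ε • l0)) '' A) := hAbody.2.1.image (by fun_prop)
      refine hcomp.of_isClosed_subset (erode_closed hAbody.2.1.isClosed ε) ?_
      intro x hx
      exact ⟨x + ε • l0, hx l0 hl0, by simp⟩
  have hWfin : volume W ≠ ∞ := ne_top_of_le_ne_top (vol_fin hAbody) hWsub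
  have hBfin : volume B ≠ ∞ := vol_fin hBbody
  have hsub : (fun x => (1 : ℝ) • x + w) '' A ⊆ erode B L ε := by
    rintro _ ⟨y, hy, rfl⟩ l hl
    refine ⟨y + ε • l, Set.add_mem_add hy (Set.smul_mem_smul_set hl), ?_⟩
    simp only [one_smul]
    abel
  have hvA : volume ((fun x => (1 : ℝ) • x + w) '' A) = volume A := by
    rw [vol_aff 1 zero_le_one w A]; simp
  have hvB : volume B = volume B0 := by
    rw [hB, vol_aff 1 zero_le_one w B0]; simp
  have h1 : volume A + volume A ≤ volume B0 + volume W := by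
    have := (add_le_add (measure_mono hsub) (le_refl (volume A))).trans hloss
    rwa [hvA, hvB] at this
  have hAfin : volume A ≠ ∞ := vol_fin hAbody
  have hB0fin : volume B0 ≠ ∞ := vol_fin hB0body
  have h2 := ENNReal.toReal_mono (ENNReal.add_ne_top.2 ⟨hB0fin, hWfin⟩) h1
  rw [ENNReal.toReal_add hAfin hAfin, ENNReal.toReal_add hB0fin hWfin] at h2
  have h3 : (volume A).toReal = (1 + ε) ^ n * volume.real K := by
    have h4 := vol_aff_real (1 + ε) (by linarith) (0 : E n) K
    have h5 : (fun x : E n => (1 + ε) • x + 0) '' K = A := by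
      rw [hA, ← Set.image_smul]; simp
    rwa [h5] at h4
  have h6 : (volume W).toReal ≤ M := hWM
  rw [h3] at h2
  change 2 * (1 + ε) ^ n * volume.real K ≤ M + (volume B0).toReal
  linarith

end Pool.Agent.CS3
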