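import Pool.Agent.CS3.Targets

/-!
# FBODY: the simplices are bodies
-/

set_option autoImplicit false

open Finset MeasureTheory Filter Topology
open scoped Pointwise ENNReal

namespace Pool.Agent.CS3

open Pool.Agent.Shadow

/-- the coordinate map -/
noncomputable def FBODY_.Z {n : ℕ} (z : Fin (n + 1) → E n →L[ℝ] ℝ) :
    E n →ₗ[ℝ] (Fin (n + 1) → ℝ) := LinearMap.pi (fun i => (z i : E n →ₗ[ℝ] ℝ))

lemma FBODY_.bounded {n : ℕ} {z : Fin (n + 1) → E n →L[ℝ] ℝ} (hz : IsFrame z) (B : ℝ) :
    Bornology.IsBounded {x : E n | ∀ i, |z i x| ≤ B} := by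
  have hinj : Function.Injective (FBODY_.Z z) := by
    rw [← LinearMap.ker_eq_bot, LinearMap.ker_eq_bot']
    intro x hx
    apply hz.inj
    intro i
    exact congrFun hx i
  obtain ⟨K, hK, hA⟩ := (FBODY_.Z z).exists_antilipschitzWith (LinearMap.ker_eq_bot.2 hinj)
  have h1 : Bornology.IsBounded {y : Fin (n + 1) → ℝ | ∀ i, |y i| ≤ B} := by
    rw [isBounded_iff_forall_norm_le]
    refine ⟨max B 0, fun y hy => ?_⟩
    rw [pi_norm_le_iff_of_nonneg (le_max_right _ _)]
    intro i
    rw [Real.norm_eq_abs]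
    exact (hy i).trans (le_max_left _ _)
  have h2 := hA.isBounded_preimage h1
  exact h2.subset (fun x hx => hx)

lemma FBODY_.abs_le {n : ℕ} {z : Fin (n + 1) → E n →L[ℝ] ℝ} (hz : IsFrame z) {h : Fin (n + 1) → ℝ}
    {x : E n} (hx : ∀ i, z i x ≤ h i) (i : Fin (n + 1)) : |z i x| ≤ |h i| + ∑ j, |h j| := by
  have h0 : z i x = - ∑ j ∈ univ.erase i, z j x := by
    have := hz.sum_zero x
    rw [← add_sum_erase _ _ (mem_univ i)] at this
    linarith
  have h1 : ∑ j ∈ univ.erase i, z j x ≤ ∑ j ∈ univ.erase i, |h j| :=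
    sum_le_sum (fun j _ => (hx j).trans (le_abs_self _))
  have h2 : ∑ j ∈ univ.erase i, |h j| ≤ ∑ j, |h j| :=
    sum_le_sum_of_subset_of_nonneg (erase_subset _ _) (fun j _ _ => abs_nonneg _)
  have h3 : 0 ≤ ∑ j, |h j| := sum_nonneg (fun j _ => abs_nonneg _)
  have h4 := hx i
  have h5 := le_abs_self (h i)
  have h6 := abs_nonneg (h i)
  rw [_root_.abs_le]
  constructor
  · rw [h0]
    linarith
  · linarith

lemma FBODY_.closed {n : ℕ} (z : Fin (n + 1) → E n →L[ℝ] ℝ) (g h : Fin (n + 1) → ℝ) :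
    IsClosed (trS z g h) := by
  have h1 : trS z g h = ⋂ i, {x : E n | -g i ≤ z i x ∧ z i x ≤ h i} := by
    ext x
    simp only [trS, Set.mem_iInter]
    exact Iff.rfl
  rw [h1]
  refine isClosed_iInter (fun i => ?_)
  exact (isClosed_le continuous_const (z i).continuous).inter
    (isClosed_le (z i).continuous continuous_const)

lemma FBODY_.closedU {n : ℕ} (z : Fin (n + 1) → E n →L[ℝ] ℝ) (r : ℝ) :
    IsClosed (upS z r) := by
  have h1 : upS z r = ⋂ i, {x : E n | z i x ≤ r} := by
    ext x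
    simp only [upS, Set.mem_iInter]
    exact Iff.rfl
  rw [h1]
  exact isClosed_iInter (fun i => isClosed_le (z i).continuous continuous_const)

lemma FBODY_.convex {n : ℕ} (z : Fin (n + 1) → E n →L[ℝ] ℝ) (g h : Fin (n + 1) → ℝ) :
    Convex ℝ (trS z g h) := by
  intro x hx y hy a b ha hb hab i
  have h1 := hx i
  have h2 := hy i
  have h3 : z i (a • x + b • y) = a * z i x + b * z i y := by simp
  rw [h3]
  constructor
  · have : -g i = a * (-g i) + b * (-g i) := by rw [← add_mul, hab, one_mul]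
    rw [this]
    exact add_le_add (mul_le_mul_of_nonneg_left h1.1 ha) (mul_le_mul_of_nonneg_left h2.1 hb)
  · have : h i = a * h i + b * h i := by rw [← add_mul, hab, one_mul]
    rw [this]
    exact add_le_add (mul_le_mul_of_nonneg_left h1.2 ha) (mul_le_mul_of_nonneg_left h2.2 hb)

lemma FBODY_.convexU {n : ℕ} (z : Fin (n + 1) → E n →L[ℝ] ℝ) (r : ℝ) :
    Convex ℝ (upS z r) := by
  intro x hx y hy a b ha hb hab i
  have h3 : z i (a • x + b • y) = a * z i x + b * z i y := by simp
  rw [h3]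
  have : r = a * r + b * r := by rw [← add_mul, hab, one_mul]
  rw [this]
  exact add_le_add (mul_le_mul_of_nonneg_left (hx i) ha) (mul_le_mul_of_nonneg_left (hy i) hb)

theorem p_FBODY : T_FBODY := by
  intro n z hz
  refine ⟨?_, ?_, ?_⟩
  · intro r hr
    refine ⟨⟨0, fun i => by simpa using hr⟩, ?_, FBODY_.convexU z r⟩
    refine Metric.isCompact_of_isClosed_isBounded (FBODY_.closedU z r) ?_
    refine (FBODY_.bounded hz (|r| + ∑ _j : Fin (n + 1), |r|)).subset ?_
    intro x hx i
    exact FBODY_.abs_le hz (h := fun _ => r) hx i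
  · intro r hr
    refine ⟨0, ?_⟩
    rw [mem_interior]
    refine ⟨⋂ i, {x : E n | z i x < r}, ?_, ?_, ?_⟩
    · intro x hx i
      rw [Set.mem_iInter] at hx
      exact (hx i).le
    · exact isOpen_iInter_of_finite (fun i => isOpen_lt (z i).continuous continuous_const)
    · rw [Set.mem_iInter]
      intro i
      show z i 0 < r
      rw [map_zero]
      exact hr
  · intro g h hne
    refine ⟨hne, ?_, FBODY_.convex z g h⟩
    refine Metric.isCompact_of_isClosed_isBounded (FBODY_.closed z g h) ?_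
    refine (FBODY_.bounded hz (∑ j, |h j| + ∑ j, |h j|)).subset ?_
    intro x hx i
    refine (FBODY_.abs_le hz (h := h) (fun i => (hx i).2) i).trans ?_
    have : |h i| ≤ ∑ j, |h j| := single_le_sum (f := fun j => |h j|) (fun j _ => abs_nonneg _)
      (mem_univ i)
    linarith

end Pool.Agent.CS3
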