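import Pool.Agent.CS3.Targets

/-!
# Covering shadows in dimension three: FFUN
-/

set_option autoImplicit false

namespace Pool.Agent.CS3

open Finset
open Pool.Agent.Shadow

theorem p_FFUN : T_FFUN := by
  intro n z hz f
  classical
  let Z : E n →ₗ[ℝ] (Fin (n + 1) → ℝ) := LinearMap.pi (fun i => (z i : E n →ₗ[ℝ] ℝ))
  have hZ : ∀ x i, Z x i = z i x := fun x i => rfl
  have hker : LinearMap.ker Z = ⊥ := by
    rw [LinearMap.ker_eq_bot']
    intro x hx
    apply hz.inj
    intro i
    rw [← hZ, hx]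
    rfl
  obtain ⟨g, hg⟩ := LinearMap.exists_leftInverse_of_injective Z hker
  refine ⟨fun i => f (g (Pi.single i 1)), fun x => ?_⟩
  have h1 : g (Z x) = x := by
    have := congrArg (fun L => L x) hg
    simpa using this
  have h2 : Z x = ∑ i, (Z x i) • (Pi.single i (1 : ℝ) : Fin (n + 1) → ℝ) := by
    exact pi_eq_sum_univ' (Z x)
  calc f x = f (g (Z x)) := by rw [h1]
    _ = f (g (∑ i, (Z x i) • (Pi.single i (1 : ℝ) : Fin (n + 1) → ℝ))) := by rw [← h2]
    _ = ∑ i, (Z x i) * f (g (Pi.single i (1 : ℝ))) := by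
        simp only [map_sum, map_smul, smul_eq_mul]
    _ = ∑ i, f (g (Pi.single i 1)) * z i x := by
        apply Finset.sum_congr rfl
        intro i _
        rw [hZ]
        ring

end Pool.Agent.CS3
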