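import Pool.Agent.CS3.Targets

/-!
# FSURJ: the coordinates of a frame take all values with sum zero
-/

set_option autoImplicit false

open Finset MeasureTheory Filter Topology
open scoped Pointwise ENNReal

namespace Pool.Agent.CS3

open Pool.Agent.Shadow

namespace FSURJ_

/-- the coordinates -/
noncomputable def phi {n : ℕ} (z : Fin (n + 1) → E n →L[ℝ] ℝ) : E n →ₗ[ℝ] (Fin (n + 1) → ℝ) :=
  LinearMap.pi fun i => (z i : E n →ₗ[ℝ] ℝ)

/-- the sum of the coordinates -/
noncomputable def sm (n : ℕ) : (Fin (n + 1) → ℝ) →ₗ[ℝ] ℝ :=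
  ∑ i, LinearMap.proj i

theorem sm_apply (n : ℕ) (y : Fin (n + 1) → ℝ) : sm n y = ∑ i, y i := by
  unfold sm
  rw [LinearMap.sum_apply]
  rfl

theorem sm_surj (n : ℕ) : Function.Surjective (sm n) := by
  intro c
  refine ⟨Pi.single 0 c, ?_⟩
  rw [sm_apply, Finset.sum_pi_single']
  simp

theorem finrank_ker (n : ℕ) : Module.finrank ℝ (LinearMap.ker (sm n)) = n := by
  have h := (sm n).finrank_range_add_finrank_ker
  rw [LinearMap.range_eq_top.2 (sm_surj n), finrank_top, Module.finrank_self,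
    Module.finrank_pi, Fintype.card_fin] at h
  omega

end FSURJ_

/-- FSURJ -/
theorem p_FSURJ : T_FSURJ := by
  intro n z hz y hy
  have hinj : Function.Injective (FSURJ_.phi z) := by
    rw [← LinearMap.ker_eq_bot, LinearMap.ker_eq_bot']
    intro x hx
    exact hz.inj x fun i => congrFun hx i
  have hle : LinearMap.range (FSURJ_.phi z) ≤ LinearMap.ker (FSURJ_.sm n) := by
    rintro _ ⟨x, rfl⟩
    rw [LinearMap.mem_ker, FSURJ_.sm_apply]
    exact hz.sum_zero x
  have hfr : Module.finrank ℝ (LinearMap.range (FSURJ_.phi z)) = n := by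
    rw [LinearMap.finrank_range_of_inj hinj, finrank_euclideanSpace, Fintype.card_fin]
  have heq : LinearMap.range (FSURJ_.phi z) = LinearMap.ker (FSURJ_.sm n) :=
    Submodule.eq_of_le_of_finrank_eq hle (by rw [hfr, FSURJ_.finrank_ker])
  have hmem : y ∈ LinearMap.range (FSURJ_.phi z) := by
    rw [heq, LinearMap.mem_ker, FSURJ_.sm_apply, hy]
  obtain ⟨x, hx⟩ := hmem
  exact ⟨x, fun i => congrFun hx i⟩

end Pool.Agent.CS3
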