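import Pool.Agent.CS3.Targets

/-!
# Covering shadows in dimension three: the gain of volume is monotone
-/

set_option autoImplicit false

open Finset MeasureTheory Filter Topology
open scoped Pointwise ENNReal

namespace Pool.Agent.CS3

open Pool.Agent.Shadow

/-- the cancellation law -/
lemma GAIN_erode {n : ℕ} {A N : Set (E n)} (hA : IsBody A) (hN : IsBody N) :
    erode (A + N) N 1 = A := by
  apply Set.Subset.antisymm
  · intro x hx
    by_contra hxA
    obtain ⟨f, u, hf1, hf2⟩ := geometric_hahn_banach_closed_point hA.2.2 hA.2.1.isClosed hxA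
    obtain ⟨l, hl, hmax⟩ := hN.2.1.exists_isMaxOn hN.1 f.continuous.continuousOn
    obtain ⟨a, ha, m, hm, ham⟩ := hx l hl
    have h1 : f a + f m = f x + f l := by
      rw [← map_add, ← map_add]
      have h2 : a + m = x + (1 : ℝ) • l := ham
      rw [h2, one_smul]
    have h3 : f m ≤ f l := hmax hm
    have h4 := hf1 a ha
    linarith
  · intro x hx l hl
    exact ⟨x, hx, l, hl, by simp⟩

theorem p_GAIN : T_GAIN := by
  intro n A B N hA hB hN hAB
  have hAN : IsBody (A + N) := ⟨hA.1.add hN.1, hA.2.1.add hN.2.1, hA.2.2.add hN.2.2⟩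
  have hBN : IsBody (B + N) := ⟨hB.1.add hN.1, hB.2.1.add hN.2.1, hB.2.2.add hN.2.2⟩
  have h1 := loss_mono hN.1 hN.2.1 (ε := 1) zero_le_one hAN.2.1.isClosed hAN.2.2 hBN.2.1
    (Set.add_subset_add_right hAB)
  rw [GAIN_erode hA hN, GAIN_erode hB hN] at h1
  have h2 := ENNReal.toReal_mono (ENNReal.add_ne_top.2 ⟨vol_fin hBN, vol_fin hA⟩) h1
  rw [ENNReal.toReal_add (vol_fin hB) (vol_fin hAN),
    ENNReal.toReal_add (vol_fin hBN) (vol_fin hA)] at h2
  unfold Measure.real
  linarith

end Pool.Agent.CS3
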