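import Pool.Agent.CS3.Targets

/-!
# Covering shadows in dimension three: IMG, the image of the gradient map
-/

set_option autoImplicit false

open Finset MeasureTheory Filter Topology
open scoped Pointwise ENNReal

namespace Pool.Agent.CS3

open Pool.Agent.Shadow

/-- linear functionals are bounded on `poS` by the log-sum-exp functions -/
theorem img_bound {n r p : ℕ} (h_LSEB : T_LSEB) (v : Fin r → Fin (p + 1) → E n) (a : Fin r → ℝ)
    (ha : ∀ i, 0 ≤ a i) (x z : E n) (hz : z ∈ poS v a) :
    inner ℝ z x ≤ ∑ i, a i * lse (v i) x := by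
  unfold poS at hz
  rw [Set.mem_finsetSum] at hz
  obtain ⟨g, hg, rfl⟩ := hz
  rw [sum_inner]
  refine Finset.sum_le_sum fun i hi => ?_
  obtain ⟨c, hc, hgc⟩ := Set.mem_smul_set.1 (hg (i := i) hi)
  rw [← hgc, real_inner_smul_left]
  refine mul_le_mul_of_nonneg_left ?_ (ha i)
  have hsub : convexHull ℝ (Set.range (v i)) ⊆ {c | inner ℝ c x ≤ lse (v i) x} := by
    refine convexHull_min ?_ ?_
    · rintro _ ⟨j, rfl⟩
      exact (h_LSEB n p (v i) x).2 j
    · intro b hb c hc s t hs ht hst
      have hb' : inner ℝ b x ≤ lse (v i) x := hb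
      have hc' : inner ℝ c x ≤ lse (v i) x := hc
      show inner ℝ (s • b + t • c) x ≤ lse (v i) x
      rw [inner_add_left, real_inner_smul_left, real_inner_smul_left]
      calc s * inner ℝ b x + t * inner ℝ c x ≤ s * lse (v i) x + t * lse (v i) x :=
            add_le_add (mul_le_mul_of_nonneg_left hb' hs) (mul_le_mul_of_nonneg_left hc' ht)
        _ = lse (v i) x := by rw [← add_mul, hst, one_mul]
  exact hsub hc

theorem p_IMG (_h_LSEA : T_LSEA) (h_LSEB : T_LSEB) (h_LSEC : T_LSEC) : T_IMG := by
  intro n r p v a hint ha hpos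
  obtain ⟨i0, hi0⟩ := hpos
  refine ⟨?_, Set.Subset.antisymm ?_ ?_⟩
  · intro x y hxy
    by_contra hne
    have h1 : inner ℝ (cg v a x - cg v a y) (x - y) =
        ∑ i, a i * inner ℝ (gr (v i) x - gr (v i) y) (x - y) := by
      unfold cg
      rw [← Finset.sum_sub_distrib, sum_inner]
      refine Finset.sum_congr rfl fun i _ => ?_
      rw [← smul_sub, real_inner_smul_left]
    have h2 : 0 < ∑ i, a i * inner ℝ (gr (v i) x - gr (v i) y) (x - y) := by
      refine Finset.sum_pos' (fun i _ => mul_nonneg (ha i) ((h_LSEC n p (v i)).2.1 x y))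
        ⟨i0, Finset.mem_univ _, mul_pos hi0 ?_⟩
      exact ((h_LSEC n p (v i0)).2.2.2 (hint i0)).1 x y hne
    rw [hxy, sub_self, inner_zero_left] at h1
    linarith
  · rintro _ ⟨x, rfl⟩
    have hsplit : poS v a = a i0 • convexHull ℝ (Set.range (v i0)) +
        ∑ i ∈ Finset.univ.erase i0, a i • convexHull ℝ (Set.range (v i)) := by
      unfold poS
      exact (Finset.add_sum_erase _ (fun i => a i • convexHull ℝ (Set.range (v i)))
        (Finset.mem_univ i0)).symm
    have hopen : IsOpen (interior (a i0 • convexHull ℝ (Set.range (v i0))) +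
        ∑ i ∈ Finset.univ.erase i0, a i • convexHull ℝ (Set.range (v i))) :=
      isOpen_interior.add_right
    refine interior_maximal (t := interior (a i0 • convexHull ℝ (Set.range (v i0))) +
        ∑ i ∈ Finset.univ.erase i0, a i • convexHull ℝ (Set.range (v i))) ?_ hopen ?_
    · rw [hsplit]
      exact Set.add_subset_add_right interior_subset
    · have hx : cg v a x = a i0 • gr (v i0) x + ∑ i ∈ Finset.univ.erase i0, a i • gr (v i) x := by
        unfold cg
        exact (Finset.add_sum_erase _ (fun i => a i • gr (v i) x) (Finset.mem_univ i0)).symm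
      rw [hx]
      refine Set.add_mem_add ?_ ?_
      · rw [interior_smul₀ hi0.ne']
        exact Set.smul_mem_smul_set (((h_LSEC n p (v i0)).2.2.2 (hint i0)).2 x)
      · rw [Set.mem_finsetSum]
        exact ⟨fun i => a i • gr (v i) x,
          fun {i} _ => Set.smul_mem_smul_set ((h_LSEC n p (v i)).2.2.1 x), rfl⟩
  · intro y hy
    obtain ⟨ρ, hρ, hball⟩ := Metric.isOpen_iff.1 isOpen_interior y hy
    set ψ : E n → ℝ := fun x => ∑ i, a i * lse (v i) x - inner ℝ y x with hψ
    have hder : ∀ x, HasFDerivAt ψ (innerSL ℝ (cg v a x - y)) x := by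
      intro x
      have h1 : ∀ i ∈ (Finset.univ : Finset (Fin r)), HasFDerivAt (fun x => a i * lse (v i) x)
          (a i • innerSL ℝ (gr (v i) x)) x := fun i _ =>
        ((h_LSEB n p (v i) x).1).const_mul (a i)
      have h2 := HasFDerivAt.fun_sum h1
      have h3 : HasFDerivAt (fun x : E n => inner ℝ y x) (innerSL ℝ y) x :=
        (innerSL ℝ y).hasFDerivAt
      have h4 := h2.sub h3
      have h5 : innerSL ℝ (cg v a x - y) =
          ∑ i, a i • innerSL ℝ (gr (v i) x) - innerSL ℝ y := by
        unfold cg
        rw [map_sub, map_sum]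
        simp only [map_smul]
      rw [h5]
      exact h4
    have hcont : Continuous ψ := continuous_iff_continuousAt.2 fun x => (hder x).continuousAt
    have hlow : ∀ x, ρ / 2 * ‖x‖ ≤ ψ x := by
      intro x
      by_cases hx : x = 0
      · subst hx
        have h1 := img_bound h_LSEB v a ha 0 y (interior_subset hy)
        simp only [inner_zero_right] at h1
        simp only [hψ, norm_zero, mul_zero, inner_zero_right, sub_zero]
        exact h1
      · have hxn : 0 < ‖x‖ := norm_pos_iff.2 hx
        have hz : y + (ρ / 2 / ‖x‖) • x ∈ Metric.ball y ρ := by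
          rw [Metric.mem_ball, dist_eq_norm, add_sub_cancel_left, norm_smul, Real.norm_eq_abs,
            abs_of_pos (by positivity), div_mul_cancel₀ _ hxn.ne']
          linarith
        have h1 := img_bound h_LSEB v a ha x _ (interior_subset (hball hz))
        rw [inner_add_left, real_inner_smul_left, real_inner_self_eq_norm_sq] at h1
        have h2 : ρ / 2 / ‖x‖ * ‖x‖ ^ 2 = ρ / 2 * ‖x‖ := by
          field_simp
        rw [h2] at h1
        show ρ / 2 * ‖x‖ ≤ ∑ i, a i * lse (v i) x - inner ℝ y x
        linarith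
    have htend : Tendsto ψ (cocompact (E n)) atTop :=
      tendsto_atTop_mono hlow ((tendsto_norm_cocompact_atTop (E := E n)).const_mul_atTop
        (by positivity))
    obtain ⟨x, hx⟩ := hcont.exists_forall_le htend
    have hmin : IsLocalMin ψ x := Filter.Eventually.of_forall hx
    have hzero := hmin.hasFDerivAt_eq_zero (hder x)
    refine ⟨x, ?_⟩
    have h1 : innerSL ℝ (cg v a x - y) (cg v a x - y) = 0 := by rw [hzero]; rfl
    rw [innerSL_apply_apply, inner_self_eq_zero] at h1
    exact sub_eq_zero.1 h1

end Pool.Agent.CS3
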