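import Pool.Agent.CS3.Targets

/-!
# CS3: the derivative comparison for cubic forms (KEYC)
-/

set_option autoImplicit false

namespace Pool.Agent.CS3

open Pool.Agent.Shadow

theorem p_KEYC : T_KEYC := by
  intro a300 a210 a120 a030 a201 a102 a003 a021 a012 a111 δ hδ h
  by_contra hcon
  have hX : 0 < a111 + 4 * δ * a102 - a201 := by
    have := not_le.mp hcon
    linarith
  obtain ⟨X, hXd⟩ : ∃ X, X = 6 * (a111 + 4 * δ * a102 - a201) := ⟨_, rfl⟩
  obtain ⟨K, hKd⟩ : ∃ K, K = (3 * a102 - 12 * δ * a003 - 3 * a012) -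
      (48 * δ ^ 2 * a003 + 3 * a021 + 24 * δ * a012 - 3 * a201) := ⟨_, rfl⟩
  have hX0 : 0 < X := by rw [hXd]; linarith
  have key : ∀ e : ℝ, 0 < e → X ≤ e * K := by
    intro e he
    have h1 := h e e he.le he.le
    simp only [cub] at h1
    have h2 : e ^ 2 * X ≤ e ^ 2 * (e * K) := by
      rw [hXd, hKd]
      nlinarith [h1]
    exact le_of_mul_le_mul_left h2 (by positivity)
  have hK0 : 0 < K := by
    have := key 1 one_pos
    linarith
  have h3 := key (X / (2 * K)) (by positivity)
  have h4 : X / (2 * K) * K = X / 2 := by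
    field_simp
  rw [h4] at h3
  linarith

end Pool.Agent.CS3
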