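import Pool.Agent.CS3.Targets

/-!
# The key inclusion for the hull on the walls
-/

set_option autoImplicit false

open MeasureTheory Filter Topology
open scoped Pointwise ENNReal

namespace Pool.Agent.CS3

open Pool.Agent.Shadow

namespace KEYW_

/-- subtracting a constant from the coefficients does not change the functional -/
lemma sum_sub_const {n : ℕ} {z : Fin (n + 1) → E n →L[ℝ] ℝ} (hz : IsFrame z)
    (q : Fin (n + 1) → ℝ) (c : ℝ) (x : E n) :
    ∑ l, (q l - c) * z l x = ∑ l, q l * z l x := by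
  have h : ∑ l, (q l - c) * z l x = ∑ l, q l * z l x - c * ∑ l, z l x := by
    rw [Finset.mul_sum, ← Finset.sum_sub_distrib]
    exact Finset.sum_congr rfl (fun l _ => by ring)
  rw [h, hz.sum_zero x, mul_zero, sub_zero]

lemma shadow_val {n : ℕ} (f : E n →L[ℝ] ℝ) (u x : E n) (h : f u = 0) :
    f (shadow u x) = f x := by
  unfold shadow
  rw [map_sub, map_smul, h, smul_zero, sub_zero]

end KEYW_

open KEYW_ in
theorem p_KEYW (h_FSURJ : T_FSURJ) : T_KEYW := by
  intro n _ z hz K L g δ _ hcov hL hK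
  rintro y0 ⟨x, hx, s, hs, rfl⟩ q ⟨i, j, hij, hq, hmin⟩
  have hs' : ∀ l, z l s ≤ δ := hs
  obtain ⟨e0, he0⟩ := h_FSURJ n z hz (fun l => if l = i then 1 else if l = j then -1 else 0) (by
    rw [Finset.sum_eq_add i j hij]
    · simp [hij.symm]
    · intro l _ hl
      simp [hl.1, hl.2]
    · intro h; exact absurd (Finset.mem_univ _) h
    · intro h; exact absurd (Finset.mem_univ _) h)
  have he0i : z i e0 = 1 := by rw [he0 i]; simp
  have hne : e0 ≠ 0 := by
    intro h
    rw [h, map_zero] at he0i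
    exact zero_ne_one he0i
  have hnorm : ‖e0‖ ≠ 0 := norm_ne_zero_iff.2 hne
  obtain ⟨u, hu⟩ : ∃ u : E n, u = (‖e0‖)⁻¹ • e0 := ⟨_, rfl⟩
  have hu1 : ‖u‖ = 1 := by
    rw [hu, norm_smul, norm_inv, norm_norm, inv_mul_cancel₀ hnorm]
  have hu0 : ∀ l, l ≠ i → l ≠ j → z l u = 0 := by
    intro l hli hlj
    rw [hu, map_smul, he0 l, if_neg hli, if_neg hlj, smul_zero]
  obtain ⟨v, _, hv⟩ := hcov u hu1
  have hlift : ∀ x ∈ K, ∃ x' ∈ L, ∀ l, l ≠ i → l ≠ j → z l x' = z l x + z l v := by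
    intro x hx
    obtain ⟨x', hx', heq⟩ := hv ⟨shadow u x, ⟨x, hx, rfl⟩, rfl⟩
    refine ⟨x', hx', fun l hli hlj => ?_⟩
    have h0 := hu0 l hli hlj
    have h1 : z l (shadow u x') = z l (shadow u x + v) := by rw [heq]
    rw [map_add, shadow_val (z l) u x' h0, shadow_val (z l) u x h0] at h1
    exact h1
  have hvδ : ∀ l, l ≠ i → l ≠ j → δ ≤ z l v := by
    intro l hli hlj
    obtain ⟨xl, hxl, hval⟩ := hK l
    obtain ⟨x', hx', h1⟩ := hlift xl hxl
    have h2 := hL l x' hx'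
    rw [h1 l hli hlj, hval] at h2
    linarith
  obtain ⟨x', hx', h1⟩ := hlift x hx
  refine ⟨x', hx', ?_⟩
  rw [← sum_sub_const hz q (q i), ← sum_sub_const hz q (q i) x']
  apply Finset.sum_le_sum
  intro l _
  by_cases hli : l = i
  · rw [hli, sub_self, zero_mul, zero_mul]
  by_cases hlj : l = j
  · rw [hlj, hq, sub_self, zero_mul, zero_mul]
  have hc : 0 ≤ q l - q i := sub_nonneg.2 (hmin l)
  apply mul_le_mul_of_nonneg_left _ hc
  change z l (x + s) ≤ z l x'
  rw [map_add, h1 l hli hlj]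
  have := hvδ l hli hlj
  have := hs' l
  linarith

end Pool.Agent.CS3
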