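import Pool.Agent.CS3.Targets

set_option autoImplicit false

open Finset MeasureTheory Filter Topology
open scoped Pointwise ENNReal

namespace Pool.Agent.CS3

open Pool.Agent.Shadow

namespace LINC_

theorem vol_add_singleton {n : ℕ} (X : Set (E n)) (t : E n) :
    volume.real (X + {t}) = volume.real X := by
  rw [Set.add_singleton, Set.image_add_right]
  unfold Measure.real
  rw [measure_preimage_add_right]

theorem lim_ineq (p q r : ℝ) (h : ∀ b : ℝ, 0 < b → p * b + q * b ^ 2 + r * b ^ 3 ≤ 0) : p ≤ 0 := by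
  have h1 : ∀ b : ℝ, 0 < b → p + q * b + r * b ^ 2 ≤ 0 := by
    intro b hb
    have := h b hb
    have h2 : b * (p + q * b + r * b ^ 2) ≤ b * 0 := by nlinarith
    exact le_of_mul_le_mul_left h2 hb
  have ht : Tendsto (fun b : ℝ => p + q * b + r * b ^ 2) (𝓝[>] 0) (𝓝 (p + q * 0 + r * 0 ^ 2)) := by
    apply Tendsto.mono_left _ nhdsWithin_le_nhds
    exact (Continuous.tendsto (by fun_prop) 0)
  have h3 := le_of_tendsto ht (eventually_nhdsWithin_of_forall (fun b hb => h1 b hb))
  simpa using h3

theorem image_eq {n : ℕ} (L : Set (E n)) (s : ℝ) (t : E n) :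
    (fun x => s • x + t) '' L = s • L + {t} := by
  rw [Set.add_singleton, ← Set.image_smul, Set.image_image]

theorem zero_smul_eq {n : ℕ} (N : Set (E n)) (hN : N.Nonempty) : (0 : ℝ) • N = {0} :=
  Set.zero_smul_set hN

theorem add_zs {n : ℕ} (X : Set (E n)) : X + {0} = X := by
  rw [Set.add_singleton]; simp

theorem zs_add {n : ℕ} (X : Set (E n)) : {0} + X = X := by
  rw [Set.singleton_add]; simp

end LINC_

open LINC_ in
theorem p_LINC (h_GAIN : T_GAIN) : T_LINC := by
  intro L K N hL hK hN a300 a210 a120 a030 a201 a102 a003 a021 a012 a111 hV s t hs hKL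
  have hV0 : ∀ a b : ℝ, 0 ≤ a → 0 ≤ b → volume.real (a • L + b • K) =
      cub a300 a210 a120 a030 a201 a102 a003 a021 a012 a111 a b 0 := by
    intro a b ha hb
    rw [← hV a b 0 ha hb le_rfl, zero_smul_eq N hN.1, add_zs]
  have hVL : ∀ a : ℝ, 0 ≤ a → volume.real (a • L) = a300 * a ^ 3 := by
    intro a ha
    have := hV0 a 0 ha le_rfl
    rw [zero_smul_eq K hK.1, add_zs] at this
    rw [this]
    unfold cub
    ring
  have hsL : IsBody (s • L) := ⟨hL.1.smul_set, hL.2.1.smul s, hL.2.2.smul s⟩
  rw [image_eq] at hKL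
  constructor
  · have := lim_ineq (3 * a210 - 3 * s * a300) (3 * a120 - 3 * s ^ 2 * a300)
      (a030 - s ^ 3 * a300) (fun b hb => ?_)
    · linarith
    · have hsub : (1 : ℝ) • L + b • K ⊆ (1 + b * s) • L + {b • t} := by
        have h1 : b • K ⊆ b • (s • L + {t}) := Set.smul_set_mono hKL
        have h2 : b • (s • L + {t}) = (b * s) • L + {b • t} := by
          rw [smul_add, smul_smul, Set.smul_set_singleton]
        have h3 : (1 + b * s) • L = (1 : ℝ) • L + (b * s) • L :=
          hL.2.2.add_smul (by norm_num) (by positivity)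
        rw [h3, add_assoc, ← h2]
        exact Set.add_subset_add_left h1
      have hfin : volume ((1 + b * s) • L + {b • t}) ≠ ⊤ :=
        ((hL.2.1.smul (1 + b * s)).add isCompact_singleton).measure_lt_top.ne
      have hle := measureReal_mono hsub hfin
      rw [vol_add_singleton, hVL _ (by positivity), hV0 1 b (by norm_num) hb.le] at hle
      unfold cub at hle
      nlinarith
  · have := lim_ineq (3 * a120 - 3 * s ^ 2 * a300) (3 * a210 - 3 * s * a300) 0 (fun c hc => ?_)
    · linarith
    · have hB : IsBody (s • L + {t}) :=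
        ⟨hsL.1.add (Set.singleton_nonempty t), hsL.2.1.add isCompact_singleton,
          hsL.2.2.add (convex_singleton t)⟩
      have hcL : IsBody (c • L) := ⟨hL.1.smul_set, hL.2.1.smul c, hL.2.2.smul c⟩
      have hg := h_GAIN 3 K (s • L + {t}) (c • L) hK hB hcL hKL
      have e1 : s • L + {t} + c • L = (s + c) • L + {t} := by
        rw [add_right_comm, hL.2.2.add_smul hs hc.le]
      have e2 : K + c • L = c • L + (1 : ℝ) • K := by rw [one_smul, add_comm]
      have e3 : volume.real K = cub a300 a210 a120 a030 a201 a102 a003 a021 a012 a111 0 1 0 := by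
        rw [← hV0 0 1 le_rfl (by norm_num), zero_smul_eq L hL.1, one_smul, zs_add]
      rw [e1, vol_add_singleton, vol_add_singleton, hVL _ (by positivity), hVL s hs, e2,
        hV0 c 1 hc.le (by norm_num), e3] at hg
      unfold cub at hg
      nlinarith

end Pool.Agent.CS3
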