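import Pool.Agent.CS3.Targets

/-!
LSEA: the derivative of the gradient of log-sum-exp.
-/

set_option autoImplicit false

open Finset MeasureTheory Filter Topology
open scoped Pointwise ENNReal

namespace Pool.Agent.CS3

open Pool.Agent.Shadow

namespace LSEA_

variable {n p : ℕ}

theorem Z_pos (v : Fin (p + 1) → E n) (x : E n) : 0 < ∑ k, Real.exp (inner ℝ (v k) x) :=
  Finset.sum_pos (fun _ _ => Real.exp_pos _) ⟨0, Finset.mem_univ _⟩

theorem sum_wt (v : Fin (p + 1) → E n) (x : E n) : ∑ j, wt v x j = 1 := by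
  unfold wt
  rw [← Finset.sum_div]
  exact div_self (Z_pos v x).ne'

theorem exp_der (w x : E n) : HasFDerivAt (fun y : E n => Real.exp (inner ℝ w y))
    (Real.exp (inner ℝ w x) • innerSL ℝ w) x := by
  have h : HasFDerivAt (fun y : E n => inner ℝ w y) (innerSL ℝ w) x := (innerSL ℝ w).hasFDerivAt
  exact h.exp

theorem Z_der (v : Fin (p + 1) → E n) (x : E n) :
    HasFDerivAt (fun y : E n => ∑ k, Real.exp (inner ℝ (v k) y))
      (∑ k, Real.exp (inner ℝ (v k) x) • innerSL ℝ (v k)) x :=
  HasFDerivAt.fun_sum fun k _ => exp_der (v k) x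

/-- the derivative of a weight -/
theorem wt_der (v : Fin (p + 1) → E n) (x : E n) (j : Fin (p + 1)) :
    HasFDerivAt (fun y : E n => wt v y j) (wt v x j • innerSL ℝ (v j - gr v x)) x := by
  have hZ := (Z_pos v x).ne'
  have h1 : HasFDerivAt (fun y : E n => (∑ k, Real.exp (inner ℝ (v k) y))⁻¹)
      ((-((∑ k, Real.exp (inner ℝ (v k) x)) ^ 2)⁻¹) •
        (∑ k, Real.exp (inner ℝ (v k) x) • innerSL ℝ (v k))) x :=
    (hasDerivAt_inv hZ).comp_hasFDerivAt x (Z_der v x)
  have h2 := (exp_der (v j) x).mul h1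
  have h3 : (fun y : E n => wt v y j) = fun y : E n =>
      Real.exp (inner ℝ (v j) y) * (∑ k, Real.exp (inner ℝ (v k) y))⁻¹ := by
    funext y
    rw [wt, div_eq_mul_inv]
  rw [h3]
  refine h2.congr_fderiv ?_
  ext d
  have h4 : inner ℝ (gr v x) d =
      (∑ k, Real.exp (inner ℝ (v k) x) * inner ℝ (v k) d) / ∑ k, Real.exp (inner ℝ (v k) x) := by
    unfold gr wt
    rw [sum_inner, Finset.sum_div]
    refine Finset.sum_congr rfl fun k _ => ?_
    rw [inner_smul_left]
    simp only [conj_trivial]
    ring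
  simp only [ContinuousLinearMap.add_apply, ContinuousLinearMap.smul_apply,
    ContinuousLinearMap.sum_apply, innerSL_apply_apply, smul_eq_mul, inner_sub_left, h4, wt]
  field_simp
  ring

end LSEA_

open LSEA_ in
theorem p_LSEA : T_LSEA := by
  intro n p v x
  have h1 : HasFDerivAt (fun y : E n => ∑ j, wt v y j • v j)
      (∑ j, (wt v x j • innerSL ℝ (v j - gr v x)).smulRight (v j)) x :=
    HasFDerivAt.fun_sum fun j _ => (wt_der v x j).smul_const (v j)
  have h2 : gr v = fun y : E n => ∑ j, wt v y j • v j := rfl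
  rw [h2]
  refine h1.congr_fderiv ?_
  ext1 d
  rw [hs]
  simp only [ContinuousLinearMap.sum_apply, ContinuousLinearMap.smulRight_apply,
    ContinuousLinearMap.smul_apply, innerSL_apply_apply, smul_eq_mul]
  have h3 : ∑ j, wt v x j * inner ℝ (v j - gr v x) d = 0 := by
    have h4 : ∀ j, wt v x j * inner ℝ (v j - gr v x) d =
        inner ℝ (wt v x j • v j) d - wt v x j * inner ℝ (gr v x) d := by
      intro j
      rw [inner_sub_left, inner_smul_left]
      simp only [conj_trivial]
      ring
    rw [Finset.sum_congr rfl fun j _ => h4 j, Finset.sum_sub_distrib, ← Finset.sum_mul, sum_wt,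
      ← sum_inner, one_mul]
    exact sub_self _
  have h5 : ∀ j, (wt v x j * inner ℝ (v j - gr v x) d) • v j =
      wt v x j • (inner ℝ (v j - gr v x) d • (v j - gr v x)) +
        (wt v x j * inner ℝ (v j - gr v x) d) • gr v x := by
    intro j
    rw [smul_smul, ← smul_add, sub_add_cancel]
  rw [Finset.sum_congr rfl fun j _ => h5 j, Finset.sum_add_distrib, ← Finset.sum_smul, h3,
    zero_smul, add_zero]

end Pool.Agent.CS3
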