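import Pool.Agent.CS3.Targets

/-!
# Covering shadows in dimension three: LSEB
-/

set_option autoImplicit false

open Finset MeasureTheory Filter Topology
open scoped Pointwise ENNReal

namespace Pool.Agent.CS3

open Pool.Agent.Shadow

theorem p_LSEB : T_LSEB := by
  intro n p v x
  have hpos : ∀ y : E n, 0 < ∑ k, Real.exp (inner ℝ (v k) y) := fun y =>
    Finset.sum_pos (fun k _ => Real.exp_pos _) Finset.univ_nonempty
  constructor
  · have h1 : ∀ k : Fin (p + 1), HasFDerivAt (fun y : E n => Real.exp (inner ℝ (v k) y))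
        (Real.exp (inner ℝ (v k) x) • innerSL ℝ (v k)) x := fun k =>
      (((innerSL ℝ (v k)).hasFDerivAt (x := x))).exp
    have h2 : HasFDerivAt (fun y : E n => ∑ k, Real.exp (inner ℝ (v k) y))
        (∑ k, Real.exp (inner ℝ (v k) x) • innerSL ℝ (v k)) x :=
      HasFDerivAt.fun_sum fun k _ => h1 k
    have h3 := h2.log (hpos x).ne'
    have h4 : (innerSL ℝ (gr v x) : E n →L[ℝ] ℝ) =
        (∑ k, Real.exp (inner ℝ (v k) x))⁻¹ •
          ∑ k, Real.exp (inner ℝ (v k) x) • innerSL ℝ (v k) := by
      ext y
      simp only [gr, wt, map_sum, map_smul, ContinuousLinearMap.sum_apply,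
        ContinuousLinearMap.smul_apply, innerSL_apply_apply, smul_eq_mul, Finset.mul_sum]
      refine Finset.sum_congr rfl fun k _ => ?_
      simp [div_eq_mul_inv]
      ring
    rw [h4]
    exact h3
  · intro j
    unfold lse
    rw [Real.le_log_iff_exp_le (hpos x)]
    exact Finset.single_le_sum (f := fun k => Real.exp (inner ℝ (v k) x))
      (fun k _ => (Real.exp_pos _).le) (Finset.mem_univ j)

end Pool.Agent.CS3
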