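import Pool.Agent.CS3.Targets

/-!
# Covering shadows in dimension three: LSEC, positivity and monotonicity
-/

set_option autoImplicit false

open Finset MeasureTheory Filter Topology
open scoped Pointwise ENNReal

namespace Pool.Agent.CS3

open Pool.Agent.Shadow

theorem lsec_Zpos {n p : ℕ} (v : Fin (p + 1) → E n) (x : E n) :
    0 < ∑ k, Real.exp (inner ℝ (v k) x) :=
  Finset.sum_pos (fun _ _ => Real.exp_pos _) ⟨0, Finset.mem_univ _⟩

theorem lsec_wt_pos {n p : ℕ} (v : Fin (p + 1) → E n) (x : E n) (j : Fin (p + 1)) :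
    0 < wt v x j :=
  div_pos (Real.exp_pos _) (lsec_Zpos v x)

theorem lsec_wt_sum {n p : ℕ} (v : Fin (p + 1) → E n) (x : E n) :
    ∑ j, wt v x j = 1 := by
  unfold wt
  rw [← Finset.sum_div]
  exact div_self (lsec_Zpos v x).ne'

theorem lsec_hs_inner {n p : ℕ} (v : Fin (p + 1) → E n) (x d e : E n) :
    inner ℝ (hs v x d) e =
      ∑ j, wt v x j * (inner ℝ (v j - gr v x) d * inner ℝ (v j - gr v x) e) := by
  unfold hs
  simp only [ContinuousLinearMap.sum_apply, ContinuousLinearMap.smul_apply,
    ContinuousLinearMap.smulRight_apply, innerSL_apply_apply, sum_inner, real_inner_smul_left]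

/-- the double sum -/
theorem lsec_double {m : ℕ} (a c b : Fin m → ℝ) :
    (∑ i, c i) * (∑ j, a j * b j) - (∑ i, a i) * (∑ j, c j * b j) =
      (1 / 2) * ∑ i, ∑ j, (c i * a j - a i * c j) * (b j - b i) := by
  have h1 : (∑ i, c i) * (∑ j, a j * b j) = ∑ i, ∑ j, c i * a j * b j := by
    rw [Finset.sum_mul_sum]
    exact Finset.sum_congr rfl fun i _ => Finset.sum_congr rfl fun j _ => by ring
  have h2 : (∑ i, a i) * (∑ j, c j * b j) = ∑ i, ∑ j, a i * c j * b j := by
    rw [Finset.sum_mul_sum]
    exact Finset.sum_congr rfl fun i _ => Finset.sum_congr rfl fun j _ => by ring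
  have h3 : ∑ i, ∑ j, c i * a j * b i = ∑ i, ∑ j, a i * c j * b j := by
    rw [Finset.sum_comm]
    exact Finset.sum_congr rfl fun i _ => Finset.sum_congr rfl fun j _ => by ring
  have h4 : ∑ i, ∑ j, a i * c j * b i = ∑ i, ∑ j, c i * a j * b j := by
    rw [Finset.sum_comm]
    exact Finset.sum_congr rfl fun i _ => Finset.sum_congr rfl fun j _ => by ring
  have h5 : ∑ i, ∑ j, (c i * a j - a i * c j) * (b j - b i) =
      ∑ i, ∑ j, c i * a j * b j - ∑ i, ∑ j, a i * c j * b j -
        (∑ i, ∑ j, c i * a j * b i - ∑ i, ∑ j, a i * c j * b i) := by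
    simp only [← Finset.sum_sub_distrib]
    exact Finset.sum_congr rfl fun i _ => Finset.sum_congr rfl fun j _ => by ring
  rw [h1, h2, h5, h3, h4]
  ring

theorem lsec_gr_inner {n p : ℕ} (v : Fin (p + 1) → E n) (x d : E n) :
    inner ℝ (gr v x) d =
      (∑ j, Real.exp (inner ℝ (v j) x) * inner ℝ (v j) d) / ∑ k, Real.exp (inner ℝ (v k) x) := by
  unfold gr wt
  rw [sum_inner, Finset.sum_div]
  refine Finset.sum_congr rfl fun j _ => ?_
  rw [real_inner_smul_left]
  ring

theorem lsec_mono_formula {n p : ℕ} (v : Fin (p + 1) → E n) (x y : E n) :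
    inner ℝ (gr v x - gr v y) (x - y) *
      ((∑ k, Real.exp (inner ℝ (v k) x)) * ∑ k, Real.exp (inner ℝ (v k) y)) =
      (1 / 2) * ∑ i, ∑ j, Real.exp (inner ℝ (v i) y) * Real.exp (inner ℝ (v j) y) *
        ((Real.exp (inner ℝ (v j) (x - y)) - Real.exp (inner ℝ (v i) (x - y))) *
          (inner ℝ (v j) (x - y) - inner ℝ (v i) (x - y))) := by
  have hx := (lsec_Zpos v x).ne'
  have hy := (lsec_Zpos v y).ne'
  rw [inner_sub_left, lsec_gr_inner, lsec_gr_inner]
  have key := lsec_double (fun j => Real.exp (inner ℝ (v j) x)) (fun j => Real.exp (inner ℝ (v j) y))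
    (fun j => inner ℝ (v j) (x - y))
  have h1 : ((∑ j, Real.exp (inner ℝ (v j) x) * inner ℝ (v j) (x - y)) /
        (∑ k, Real.exp (inner ℝ (v k) x)) -
      (∑ j, Real.exp (inner ℝ (v j) y) * inner ℝ (v j) (x - y)) /
        (∑ k, Real.exp (inner ℝ (v k) y))) *
      ((∑ k, Real.exp (inner ℝ (v k) x)) * ∑ k, Real.exp (inner ℝ (v k) y)) =
      (∑ k, Real.exp (inner ℝ (v k) y)) * (∑ j, Real.exp (inner ℝ (v j) x) * inner ℝ (v j) (x - y)) -
      (∑ k, Real.exp (inner ℝ (v k) x)) *
        (∑ j, Real.exp (inner ℝ (v j) y) * inner ℝ (v j) (x - y)) := by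
    field_simp
  rw [h1, key]
  congr 1
  refine Finset.sum_congr rfl fun i _ => Finset.sum_congr rfl fun j _ => ?_
  have e1 : ∀ k, Real.exp (inner ℝ (v k) x) =
      Real.exp (inner ℝ (v k) y) * Real.exp (inner ℝ (v k) (x - y)) := by
    intro k
    rw [← Real.exp_add, inner_sub_right]
    congr 1
    ring
  rw [e1 i, e1 j]
  ring

theorem lsec_term_nonneg (s t : ℝ) : 0 ≤ (Real.exp s - Real.exp t) * (s - t) := by
  rcases le_total s t with h | h
  · exact mul_nonneg_of_nonpos_of_nonpos (sub_nonpos.2 (Real.exp_le_exp.2 h)) (sub_nonpos.2 h)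
  · exact mul_nonneg (sub_nonneg.2 (Real.exp_le_exp.2 h)) (sub_nonneg.2 h)

theorem lsec_term_pos {s t : ℝ} (h : s ≠ t) : 0 < (Real.exp s - Real.exp t) * (s - t) := by
  rcases lt_or_gt_of_ne h with h | h
  · exact mul_pos_of_neg_of_neg (sub_neg.2 (Real.exp_lt_exp.2 h)) (sub_neg.2 h)
  · exact mul_pos (sub_pos.2 (Real.exp_lt_exp.2 h)) (sub_pos.2 h)

/-- a hyperplane has empty interior -/
theorem lsec_hyper {n : ℕ} (f : E n →L[ℝ] ℝ) (hf : f ≠ 0) (c : ℝ) (S : Set (E n))
    (hS : ∀ z ∈ S, f z = c) : ¬ (interior S).Nonempty := by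
  rintro ⟨z, hz⟩
  obtain ⟨d, hd⟩ : ∃ d, f d ≠ 0 := by
    by_contra hcon
    push Not at hcon
    exact hf (ContinuousLinearMap.ext hcon)
  have hc : Continuous fun t : ℝ => z + t • d := by fun_prop
  have h1 : (fun t : ℝ => z + t • d) ⁻¹' interior S ∈ 𝓝 (0 : ℝ) :=
    hc.continuousAt.preimage_mem_nhds (by simpa using isOpen_interior.mem_nhds hz)
  obtain ⟨ε, hε, hb⟩ := Metric.mem_nhds_iff.1 h1
  have h2 : (ε / 2 : ℝ) ∈ Metric.ball (0 : ℝ) ε := by
    rw [Metric.mem_ball, Real.dist_eq, sub_zero, abs_of_pos (by linarith)]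
    linarith
  have h3 := hS _ (interior_subset (hb h2))
  have h4 := hS _ (interior_subset hz)
  simp only [map_add, map_smul, smul_eq_mul] at h3
  rw [h4] at h3
  have : ε / 2 * f d = 0 := by linarith
  rcases mul_eq_zero.1 this with h | h
  · linarith
  · exact hd h

theorem lsec_hull_const {n p : ℕ} (v : Fin (p + 1) → E n) (f : E n →L[ℝ] ℝ) (c : ℝ)
    (h : ∀ j, f (v j) = c) : ∀ z ∈ convexHull ℝ (Set.range v), f z = c := by
  intro z hz
  have hsub : convexHull ℝ (Set.range v) ⊆ {z | f z = c} := by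
    refine convexHull_min ?_ ?_
    · rintro _ ⟨j, rfl⟩
      exact h j
    · intro a ha b hb s t hs ht hst
      simp only [Set.mem_setOf_eq] at ha hb ⊢
      rw [map_add, map_smul, map_smul, ha, hb, smul_eq_mul, smul_eq_mul, ← add_mul, hst, one_mul]
  exact hsub hz

theorem lsec_gr_mem {n p : ℕ} (v : Fin (p + 1) → E n) (x : E n) :
    gr v x ∈ convexHull ℝ (Set.range v) := by
  unfold gr
  exact (convex_convexHull ℝ _).sum_mem (fun j _ => (lsec_wt_pos v x j).le) (lsec_wt_sum v x)
    (fun j _ => subset_convexHull ℝ _ ⟨j, rfl⟩)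

theorem p_LSEC : T_LSEC := by
  intro n p v
  refine ⟨?_, ?_, lsec_gr_mem v, ?_⟩
  · intro x d e
    constructor
    · rw [lsec_hs_inner, real_inner_comm, lsec_hs_inner]
      exact Finset.sum_congr rfl fun j _ => by ring
    · rw [lsec_hs_inner]
      refine Finset.sum_nonneg fun j _ => mul_nonneg (lsec_wt_pos v x j).le (mul_self_nonneg _)
  · intro x y
    have h := lsec_mono_formula v x y
    have hpos := mul_pos (lsec_Zpos v x) (lsec_Zpos v y)
    by_contra hcon
    push Not at hcon
    have h1 := mul_neg_of_neg_of_pos hcon hpos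
    rw [h] at h1
    have h2 : 0 ≤ ∑ i, ∑ j, Real.exp (inner ℝ (v i) y) * Real.exp (inner ℝ (v j) y) *
        ((Real.exp (inner ℝ (v j) (x - y)) - Real.exp (inner ℝ (v i) (x - y))) *
          (inner ℝ (v j) (x - y) - inner ℝ (v i) (x - y))) :=
      Finset.sum_nonneg fun i _ => Finset.sum_nonneg fun j _ =>
        mul_nonneg (mul_pos (Real.exp_pos _) (Real.exp_pos _)).le (lsec_term_nonneg _ _)
    linarith
  · intro hint
    constructor
    · intro x y hxy
      have hd : x - y ≠ 0 := sub_ne_zero.2 hxy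
      obtain ⟨i, j, hij⟩ : ∃ i j, inner ℝ (v j) (x - y) ≠ inner ℝ (v i) (x - y) := by
        by_contra hcon
        push Not at hcon
        refine lsec_hyper (innerSL ℝ (x - y)) ?_ (inner ℝ (v 0) (x - y)) _
          (lsec_hull_const v _ _ ?_) hint
        · intro h0
          have h1 : innerSL ℝ (x - y) (x - y) = 0 := by rw [h0]; rfl
          rw [innerSL_apply_apply, inner_self_eq_zero] at h1
          exact hd h1
        · intro j
          rw [innerSL_apply_apply, real_inner_comm]
          exact hcon 0 j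
      have h := lsec_mono_formula v x y
      have hpos := mul_pos (lsec_Zpos v x) (lsec_Zpos v y)
      have h2 : 0 < ∑ i, ∑ j, Real.exp (inner ℝ (v i) y) * Real.exp (inner ℝ (v j) y) *
          ((Real.exp (inner ℝ (v j) (x - y)) - Real.exp (inner ℝ (v i) (x - y))) *
            (inner ℝ (v j) (x - y) - inner ℝ (v i) (x - y))) := by
        refine Finset.sum_pos' (fun i _ => Finset.sum_nonneg fun j _ =>
          mul_nonneg (mul_pos (Real.exp_pos _) (Real.exp_pos _)).le (lsec_term_nonneg _ _))
          ⟨i, Finset.mem_univ _, ?_⟩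
        refine Finset.sum_pos' (fun j _ =>
          mul_nonneg (mul_pos (Real.exp_pos _) (Real.exp_pos _)).le (lsec_term_nonneg _ _))
          ⟨j, Finset.mem_univ _, ?_⟩
        exact mul_pos (mul_pos (Real.exp_pos _) (Real.exp_pos _)) (lsec_term_pos hij)
      by_contra hcon
      push Not at hcon
      have h1 := mul_nonpos_of_nonpos_of_nonneg hcon hpos.le
      rw [h] at h1
      linarith
    · intro x
      by_contra hcon
      obtain ⟨f, hf⟩ := geometric_hahn_banach_open_point
        (convex_convexHull ℝ (Set.range v)).interior isOpen_interior hcon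
      have hle : ∀ a ∈ convexHull ℝ (Set.range v), f a ≤ f (gr v x) := by
        intro a ha
        have hcl : a ∈ closure (interior (convexHull ℝ (Set.range v))) := by
          rw [(convex_convexHull ℝ (Set.range v)).closure_interior_eq_closure_of_nonempty_interior
            hint]
          exact subset_closure ha
        have hsub : closure (interior (convexHull ℝ (Set.range v))) ⊆ {a | f a ≤ f (gr v x)} :=
          closure_minimal (fun a ha => (hf a ha).le)
            (isClosed_le f.continuous continuous_const)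
        exact hsub hcl
      have hv : ∀ j, f (v j) ≤ f (gr v x) := fun j => hle _ (subset_convexHull ℝ _ ⟨j, rfl⟩)
      have hsum : ∑ j, wt v x j * (f (gr v x) - f (v j)) = 0 := by
        have h1 : f (gr v x) = ∑ j, wt v x j * f (v j) := by
          conv_lhs => unfold gr
          rw [map_sum]
          exact Finset.sum_congr rfl fun j _ => by rw [map_smul, smul_eq_mul]
        simp only [mul_sub, Finset.sum_sub_distrib]
        rw [← Finset.sum_mul, lsec_wt_sum, one_mul, ← h1, sub_self]
      have heq : ∀ j, f (v j) = f (gr v x) := by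
        intro j
        have h1 := (Finset.sum_eq_zero_iff_of_nonneg (fun j _ =>
          mul_nonneg (lsec_wt_pos v x j).le (sub_nonneg.2 (hv j)))).1 hsum j (Finset.mem_univ _)
        rcases mul_eq_zero.1 h1 with h | h
        · exact absurd h (lsec_wt_pos v x j).ne'
        · linarith
      obtain ⟨z, hz⟩ := hint
      have h1 := lsec_hull_const v f _ heq z (interior_subset hz)
      have h2 := hf z hz
      linarith

end Pool.Agent.CS3
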