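import Pool.Agent.CS3.Targets

/-!
# Covering shadows in dimension three: determinants of combinations
-/

set_option autoImplicit false

open Finset MeasureTheory Filter Topology
open scoped Pointwise ENNReal

namespace Pool.Agent.CS3

open Pool.Agent.Shadow

theorem node_mat (A B C : Matrix (Fin 3) (Fin 3) ℝ) (a b c : ℝ) :
    (a • A + b • B + c • C).det =
      interp (fun j => ((nodes j).1 • A + (nodes j).2.1 • B + (nodes j).2.2 • C).det) a b c := by
  simp only [interp, nodes, Matrix.det_fin_three, Matrix.add_apply, Matrix.smul_apply, smul_eq_mul,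
    Matrix.cons_val]
  ring

theorem p_NODE : T_NODE := by
  intro A B C a b c
  set e := (EuclideanSpace.basisFun (Fin 3) ℝ).toBasis
  have key : ∀ T : E 3 →L[ℝ] E 3, T.det =
      (LinearMap.toMatrix e e (T : E 3 →ₗ[ℝ] E 3)).det := by
    intro T
    rw [ContinuousLinearMap.det, LinearMap.det_toMatrix]
  have lin : ∀ x y z : ℝ, (x • A + y • B + z • C).det =
      (x • LinearMap.toMatrix e e (A : E 3 →ₗ[ℝ] E 3) +
        y • LinearMap.toMatrix e e (B : E 3 →ₗ[ℝ] E 3) +
        z • LinearMap.toMatrix e e (C : E 3 →ₗ[ℝ] E 3)).det := by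
    intro x y z
    rw [key]
    congr 1
  simp only [lin]
  exact node_mat _ _ _ a b c

end Pool.Agent.CS3
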