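import Pool.Agent.CS3.Targets

/-!
# CS3-NONN: some coefficients are nonnegative
-/

set_option autoImplicit false

open Finset MeasureTheory Filter Topology
open scoped Pointwise ENNReal

namespace Pool.Agent.CS3

open Pool.Agent.Shadow

namespace NONN_

theorem lim_nonneg (f : ℝ → ℝ) (hf : Continuous f) (h : ∀ e : ℝ, 0 < e → 0 ≤ f e) : 0 ≤ f 0 := by
  have ht : Filter.Tendsto f (nhdsWithin 0 (Set.Ioi 0)) (nhds (f 0)) :=
    (hf.tendsto 0).mono_left nhdsWithin_le_nhds
  refine ge_of_tendsto ht ?_
  filter_upwards [self_mem_nhdsWithin] with e he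
  exact h e he

theorem body_add {n : ℕ} {A B : Set (E n)} (hA : IsBody A) (hB : IsBody B) : IsBody (A + B) :=
  ⟨hA.1.add hB.1, hA.2.1.add hB.2.1, hA.2.2.add hB.2.2⟩

theorem body_smul {n : ℕ} {A : Set (E n)} (c : ℝ) (hA : IsBody A) : IsBody (c • A) :=
  ⟨hA.1.smul_set, hA.2.1.smul c, hA.2.2.smul c⟩

theorem body_single {n : ℕ} (v : E n) : IsBody ({v} : Set (E n)) :=
  ⟨Set.singleton_nonempty v, isCompact_singleton, convex_singleton v⟩

theorem vol_translate {n : ℕ} (v : E n) (A : Set (E n)) :
    volume.real ({v} + A) = volume.real A := by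
  unfold Measure.real
  rw [Set.singleton_add, Set.image_add_left, measure_preimage_add]

theorem vol_mono {n : ℕ} {A B : Set (E n)} (h : A ⊆ B) (hB : IsBody B) :
    volume.real A ≤ volume.real B :=
  measureReal_mono h hB.2.1.measure_lt_top.ne

theorem vol_le_add {n : ℕ} {A B : Set (E n)} (hA : IsBody A) (hB : IsBody B) :
    volume.real A ≤ volume.real (A + B) := by
  obtain ⟨v, hv⟩ := hB.1
  rw [← vol_translate v A]
  refine vol_mono ?_ (body_add hA hB)
  rw [add_comm A B]
  exact Set.add_subset_add_right (Set.singleton_subset_iff.2 hv)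

end NONN_

open NONN_ in
/-- NONN -/
theorem p_NONN (h_GAIN : T_GAIN) : T_NONN := by
  intro L K N hL hK hN a300 a210 a120 a030 a201 a102 a003 a021 a012 a111 h
  have z0 : ∀ A : Set (E 3), A.Nonempty → (0 : ℝ) • A = 0 := fun A hA => Set.zero_smul_set hA
  have v0 : volume.real L = a300 := by
    have := h 1 0 0 zero_le_one le_rfl le_rfl
    rw [z0 K hK.1, z0 N hN.1, one_smul, add_zero, add_zero] at this
    rw [this]
    unfold cub
    ring
  have vb : ∀ b : ℝ, 0 ≤ b → volume.real (L + b • K) =
      cub a300 a210 a120 a030 a201 a102 a003 a021 a012 a111 1 b 0 := by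
    intro b hb
    have := h 1 b 0 zero_le_one hb le_rfl
    rw [z0 N hN.1, one_smul, add_zero] at this
    exact this
  have vc : ∀ c : ℝ, 0 ≤ c → volume.real (L + c • N) =
      cub a300 a210 a120 a030 a201 a102 a003 a021 a012 a111 1 0 c := by
    intro c hc
    have := h 1 0 c zero_le_one le_rfl hc
    rw [z0 K hK.1, one_smul, add_zero] at this
    exact this
  refine ⟨?_, ?_, ?_⟩
  · have h1 := lim_nonneg (fun b => 3 * a210 + 3 * a120 * b + a030 * b ^ 2) (by fun_prop) (by
      intro b hb
      have h2 := vol_le_add hL (body_smul b hK)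
      rw [v0, vb b hb.le] at h2
      unfold cub at h2
      have h3 : 0 ≤ b * (3 * a210 + 3 * a120 * b + a030 * b ^ 2) := by
        ring_nf at h2 ⊢
        linarith
      exact nonneg_of_mul_nonneg_right h3 hb)
    simp only [mul_zero, add_zero, ne_eq, OfNat.ofNat_ne_zero, not_false_eq_true, zero_pow] at h1
    linarith
  · have h1 := lim_nonneg (fun b => 3 * a201 + 3 * a102 * b + a003 * b ^ 2) (by fun_prop) (by
      intro b hb
      have h2 := vol_le_add hL (body_smul b hN)
      rw [v0, vc b hb.le] at h2
      unfold cub at h2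
      have h3 : 0 ≤ b * (3 * a201 + 3 * a102 * b + a003 * b ^ 2) := by
        ring_nf at h2 ⊢
        linarith
      exact nonneg_of_mul_nonneg_right h3 hb)
    simp only [mul_zero, add_zero, ne_eq, OfNat.ofNat_ne_zero, not_false_eq_true, zero_pow] at h1
    linarith
  · have h1 := lim_nonneg (fun b => 6 * a111 + 3 * (a021 + a012) * b) (by fun_prop) (by
      intro b hb
      obtain ⟨k, hk⟩ := hK.1
      have hkb : b • k ∈ b • K := Set.smul_mem_smul_set hk
      have h2 := h_GAIN 3 ({b • k} + L) (L + b • K) (b • N) (body_add (body_single _) hL)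
        (body_add hL (body_smul b hK)) (body_smul b hN) (by
          rw [add_comm L]
          exact Set.add_subset_add_right (Set.singleton_subset_iff.2 hkb))
      rw [add_assoc, vol_translate, vol_translate, v0, vc b hb.le, vb b hb.le] at h2
      have h4 := h 1 b b zero_le_one hb.le hb.le
      rw [one_smul] at h4
      rw [h4] at h2
      unfold cub at h2
      have h3 : 0 ≤ b ^ 2 * (6 * a111 + 3 * (a021 + a012) * b) := by
        ring_nf at h2 ⊢
        linarith
      exact nonneg_of_mul_nonneg_right h3 (by positivity))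
    simp only [mul_zero, add_zero] at h1
    linarith

end Pool.Agent.CS3
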