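import Pool.Agent.CS3.Targets
import Pool.Agent.ShadowA.PLB

/-!
# Covering shadows in dimension three: Brunn-Minkowski (PLC)
-/

set_option autoImplicit false

open Finset MeasureTheory Filter Topology
open scoped Pointwise ENNReal

namespace Pool.Agent.CS3

open Pool.Agent.Shadow

theorem p_PLC : T_PLC := by
  intro n A B hA hB
  have hC : IsCompact ((1 / 2 : ℝ) • (A + B)) := (hA.2.1.add hB.2.1).smul _
  have h1 : volume A * volume B ≤ volume ((1 / 2 : ℝ) • (A + B)) ^ 2 :=
    Pool.Agent.ShadowA.p_PLB n A B _ hA.2.1.measurableSet hB.2.1.measurableSet hC.measurableSet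
      (fun x hx y hy => Set.smul_mem_smul_set (Set.add_mem_add hx hy))
  have h2 : (volume ((1 / 2 : ℝ) • (A + B)) ^ 2) ≠ ⊤ := ENNReal.pow_ne_top hC.measure_lt_top.ne
  have h3 := ENNReal.toReal_mono h2 h1
  rwa [ENNReal.toReal_mul, ENNReal.toReal_pow] at h3

end Pool.Agent.CS3
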