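import Pool.Agent.CS3.Defs

/-!
# Covering shadows in dimension three: targets
-/

set_option autoImplicit false

open Finset MeasureTheory Filter Topology
open scoped Pointwise ENNReal

namespace Pool.Agent.CS3

open Pool.Agent.Shadow

/-! ## frames -/

/-- FSURJ -/
def T_FSURJ : Prop := ∀ (n : ℕ) (z : Fin (n + 1) → E n →L[ℝ] ℝ), IsFrame z →
  ∀ y : Fin (n + 1) → ℝ, ∑ i, y i = 0 → ∃ x : E n, ∀ i, z i x = y i

/-- FBODY: the simplices are bodies -/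
def T_FBODY : Prop := ∀ (n : ℕ) (z : Fin (n + 1) → E n →L[ℝ] ℝ), IsFrame z →
  (∀ r : ℝ, 0 ≤ r → IsBody (upS z r)) ∧ (∀ r : ℝ, 0 < r → (interior (upS z r)).Nonempty) ∧
  (∀ g h : Fin (n + 1) → ℝ, (trS z g h).Nonempty → IsBody (trS z g h))

/-- FFUN: every functional is a combination of the coordinates -/
def T_FFUN : Prop := ∀ (n : ℕ) (z : Fin (n + 1) → E n →L[ℝ] ℝ), IsFrame z →
  ∀ f : E n →L[ℝ] ℝ, ∃ q : Fin (n + 1) → ℝ, ∀ x, f x = ∑ i, q i * z i x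

/-! ## the hull -/

/-- HULLB -/
def T_HULLB : Prop := ∀ (n : ℕ), 2 ≤ n → ∀ (z : Fin (n + 1) → E n →L[ℝ] ℝ), IsFrame z →
  ∀ A : Set (E n), IsBody A → IsBody (hull z A) ∧ A ⊆ hull z A ∧
    ∀ s : ℝ, 0 ≤ s → hull z (s • A) = s • hull z A

/-- SEG: a wall is crossed -/
def T_SEG : Prop := ∀ (n : ℕ) (u q : Fin (n + 1) → ℝ) (i : Fin (n + 1)), (∀ l, u i ≤ u l) →
  (∃ l, q l < q i) → ∃ θ : ℝ, 0 ≤ θ ∧ θ ≤ 1 ∧ ∃ j, j ≠ i ∧
    (1 - θ) * u i + θ * q i = (1 - θ) * u j + θ * q j ∧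
    ∀ l, (1 - θ) * u i + θ * q i ≤ (1 - θ) * u l + θ * q l

/-- STARA: the part of `hull A + N` outside `A + N` consists of translates of disjoint parts of
`hull A` outside `A`. -/
def T_STARA : Prop := ∀ (n : ℕ), 2 ≤ n → ∀ (z : Fin (n + 1) → E n →L[ℝ] ℝ), IsFrame z →
  ∀ A : Set (E n), IsBody A → ∀ r : ℝ, 0 ≤ r →
  ∃ (w : Fin (n + 1) → E n) (U : Fin (n + 1) → Set (E n)), (∀ i, IsOpen (U i)) ∧
    (∀ i, Disjoint (U i) A) ∧
    (∀ i j, i ≠ j → Disjoint (hull z A ∩ U i) (hull z A ∩ U j)) ∧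
    (hull z A + upS z r) \ (A + upS z r) ⊆ ⋃ i, (fun x => x + w i) '' (hull z A ∩ U i)

/-- STAR -/
def T_STAR : Prop := ∀ (n : ℕ), 2 ≤ n → ∀ (z : Fin (n + 1) → E n →L[ℝ] ℝ), IsFrame z →
  ∀ A : Set (E n), IsBody A → ∀ r : ℝ, 0 ≤ r →
  volume.real (hull z A + upS z r) - volume.real (hull z A) ≤
    volume.real (A + upS z r) - volume.real A

/-- GAIN -/
def T_GAIN : Prop := ∀ (n : ℕ) (A B N : Set (E n)), IsBody A → IsBody B → IsBody N → A ⊆ B →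
  volume.real (A + N) - volume.real A ≤ volume.real (B + N) - volume.real B

/-- COMB -/
def T_COMB : Prop := ∀ (n : ℕ), 2 ≤ n → ∀ (z : Fin (n + 1) → E n →L[ℝ] ℝ), IsFrame z →
  ∀ K L : Set (E n), IsBody K → IsBody L → K ⊆ hull z L → ∀ s r : ℝ, 0 ≤ s → 0 ≤ r →
  volume.real (L + s • K + upS z r) - volume.real (L + s • K) ≤
    volume.real ((1 + s) • L + upS z r) - volume.real ((1 + s) • L)

/-- KEYW -/
def T_KEYW : Prop := ∀ (n : ℕ), 2 ≤ n → ∀ (z : Fin (n + 1) → E n →L[ℝ] ℝ), IsFrame z →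
  ∀ (K L : Set (E n)) (g : Fin (n + 1) → ℝ) (δ : ℝ), 0 ≤ δ → Covers L K →
  (∀ i, ∀ x ∈ L, -g i ≤ z i x) → (∀ i, ∃ x ∈ K, z i x = -g i - δ) →
  K + upS z δ ⊆ hull z L

/-! ## the contact simplex -/

/-- CONA: minimal dilate -/
def T_CONA : Prop := ∀ (n : ℕ) (K L : Set (E n)), IsBody K → IsBody L → (interior L).Nonempty →
  (¬ ∃ t : E n, K ⊆ (fun x => x + t) '' L) →
  ∃ (s : ℝ) (t : E n), 1 < s ∧ K ⊆ (fun x => s • x + t) '' L ∧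
    ∀ (s' : ℝ) (t' : E n), 0 ≤ s' → K ⊆ (fun x => s' • x + t') '' L → s ≤ s'

/-- CONB: zero is in the convex hull of the contact normals -/
def T_CONB : Prop := ∀ (n : ℕ) (K L : Set (E n)), IsBody K → IsBody L → (interior L).Nonempty →
  ∀ (s : ℝ) (t : E n), 1 < s → K ⊆ (fun x => s • x + t) '' L →
  (∀ (s' : ℝ) (t' : E n), 0 ≤ s' → K ⊆ (fun x => s' • x + t') '' L → s ≤ s') →
  (0 : E n) ∈ convexHull ℝ {u : E n | ‖u‖ = 1 ∧
    ∃ k ∈ K, ∃ l ∈ L, (∀ x ∈ K, inner ℝ u x ≤ inner ℝ u k) ∧ (∀ x ∈ L, inner ℝ u x ≤ inner ℝ u l) ∧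
      inner ℝ u k = s * inner ℝ u l + inner ℝ u t}

/-- CONC: there are exactly `n + 1` independent contact normals -/
def T_CONC : Prop := ∀ (n : ℕ), 1 ≤ n → ∀ (K L : Set (E n)), IsBody K → IsBody L →
  (interior L).Nonempty → Covers L K →
  ∀ (s : ℝ) (t : E n), 1 < s →
  (0 : E n) ∈ convexHull ℝ {u : E n | ‖u‖ = 1 ∧
    ∃ k ∈ K, ∃ l ∈ L, (∀ x ∈ K, inner ℝ u x ≤ inner ℝ u k) ∧ (∀ x ∈ L, inner ℝ u x ≤ inner ℝ u l) ∧
      inner ℝ u k = s * inner ℝ u l + inner ℝ u t} →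
  ∃ (u k l : Fin (n + 1) → E n) (c : Fin (n + 1) → ℝ), (∀ i, 0 < c i) ∧ ∑ i, c i • u i = 0 ∧
    (∀ x : E n, (∀ i, inner ℝ (u i) x = 0) → x = 0) ∧
    (∀ i, k i ∈ K ∧ l i ∈ L ∧ (∀ x ∈ K, inner ℝ (u i) x ≤ inner ℝ (u i) (k i)) ∧
      (∀ x ∈ L, inner ℝ (u i) x ≤ inner ℝ (u i) (l i)) ∧
      inner ℝ (u i) (k i) = s * inner ℝ (u i) (l i) + inner ℝ (u i) t) ∧
    0 < ∑ i, c i * inner ℝ (u i) (l i)

/-- CONT: the contact simplex -/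
def T_CONT : Prop := ∀ (n : ℕ), 1 ≤ n → ∀ (K L : Set (E n)), IsBody K → IsBody L →
  (interior L).Nonempty → Covers L K → (¬ ∃ t : E n, K ⊆ (fun x => x + t) '' L) →
  ∃ (z : Fin (n + 1) → E n →L[ℝ] ℝ) (g : Fin (n + 1) → ℝ) (δ : ℝ) (w t : E n),
    IsFrame z ∧ ∑ i, g i = 1 ∧ 0 < δ ∧
    (∀ i, ∀ x ∈ L, -g i ≤ z i x) ∧ (∀ i, ∃ x ∈ L, z i x = -g i) ∧
    (∀ i, ∃ x ∈ K, z i (x + w) = -g i - δ) ∧
    K ⊆ (fun x => (1 + (n + 1) * δ) • x + t) '' L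

/-! ## volumes of simplices, dimension three -/

/-- SV -/
def T_SV : Prop := ∀ (z : Fin 4 → E 3 →L[ℝ] ℝ), IsFrame z → ∀ c : Fin 4 → ℝ,
  volume.real (loS z c) = (max (∑ i, c i) 0) ^ 3 * volume.real (upS z (1 / 4))

/-- the Bonferroni expression -/
def bon (T : ℝ) (m : Fin 4 → ℝ) : ℝ :=
  T ^ 3 - ∑ i, (max (T - m i) 0) ^ 3 +
    ((max (T - m 0 - m 1) 0) ^ 3 + (max (T - m 0 - m 2) 0) ^ 3 + (max (T - m 0 - m 3) 0) ^ 3 +
     (max (T - m 1 - m 2) 0) ^ 3 + (max (T - m 1 - m 3) 0) ^ 3 + (max (T - m 2 - m 3) 0) ^ 3)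

/-- TRUNC: volumes of truncated simplices -/
def T_TRUNC : Prop := ∀ (z : Fin 4 → E 3 →L[ℝ] ℝ), IsFrame z → ∀ g h : Fin 4 → ℝ,
  0 ≤ ∑ i, g i → (∀ i, 0 ≤ g i + h i) →
  volume.real (trS z g h) ≤ bon (∑ i, g i) (fun i => g i + h i) * volume.real (upS z (1 / 4)) ∧
  ((∀ i, ∑ j, g j ≤ ∑ j, (g j + h j) - (g i + h i)) →
    bon (∑ i, g i) (fun i => g i + h i) * volume.real (upS z (1 / 4)) ≤ volume.real (trS z g h))

/-- the cubic expression in `r`; `c201` is three times the mixed volume `V(L,L,N)`,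
`c102` is three times `V(L,N,N)` -/
def T_CUP : Prop := ∀ (z : Fin 4 → E 3 →L[ℝ] ℝ), IsFrame z → ∀ (g h : Fin 4 → ℝ) (L : Set (E 3)),
  IsBody L → L ⊆ trS z g h → ∑ i, g i = 1 → (∀ i, g i + h i ≤ 1) → (∀ i, 0 ≤ g i + h i) →
  (∀ i, 1 ≤ ∑ j, (g j + h j) - (g i + h i)) →
  ∀ a300 a201 a102 a003 : ℝ, a003 = volume.real (upS z (1 / 4)) →
  (∀ r : ℝ, 0 ≤ r → volume.real (L + upS z (r / 4)) =
    a300 + 3 * a201 * r + 3 * a102 * r ^ 2 + a003 * r ^ 3) →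
  a201 ≤ (3 - 2 * ∑ i, (1 - (g i + h i)) ^ 2 +
    ((max (1 - (g 0 + h 0) - (g 1 + h 1)) 0) ^ 2 + (max (1 - (g 0 + h 0) - (g 2 + h 2)) 0) ^ 2 +
     (max (1 - (g 0 + h 0) - (g 3 + h 3)) 0) ^ 2 + (max (1 - (g 1 + h 1) - (g 2 + h 2)) 0) ^ 2 +
     (max (1 - (g 1 + h 1) - (g 3 + h 3)) 0) ^ 2 + (max (1 - (g 2 + h 2) - (g 3 + h 3)) 0) ^ 2))
    * a003

/-- BLOW -/
def T_BLOW : Prop := ∀ (z : Fin 4 → E 3 →L[ℝ] ℝ), IsFrame z → ∀ (h : Fin 4 → ℝ) (L : Set (E 3)),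
  IsBody L → (∀ i, ∃ x ∈ L, z i x = h i) → 0 ≤ ∑ i, h i →
  ∀ a300 a201 a102 a003 : ℝ, a003 = volume.real (upS z (1 / 4)) →
  (∀ r : ℝ, 0 ≤ r → volume.real (L + upS z (r / 4)) =
    a300 + 3 * a201 * r + 3 * a102 * r ^ 2 + a003 * r ^ 3) →
  (∑ i, h i) * a003 ≤ a102

/-- PSIX -/
def T_PSIX : Prop := ∀ a : Fin 4 → ℝ, (∀ i, 0 ≤ a i) → (∀ i, a i ≤ 1) →
  (∀ i, ∑ j, a j - a i ≤ 2) →
  3 - 2 * ∑ i, a i ^ 2 +
    ((max (a 0 + a 1 - 1) 0) ^ 2 + (max (a 0 + a 2 - 1) 0) ^ 2 + (max (a 0 + a 3 - 1) 0) ^ 2 +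
     (max (a 1 + a 2 - 1) 0) ^ 2 + (max (a 1 + a 3 - 1) 0) ^ 2 + (max (a 2 + a 3 - 1) 0) ^ 2) ≤
  (3 - √3) * (3 - ∑ i, a i)

/-! ## algebra of cubic forms -/

/-- AFL: log-concave cubic forms are Lorentzian -/
def T_AFL : Prop := ∀ a300 a210 a120 a030 a201 a102 a003 a021 a012 a111 : ℝ, 0 < a300 →
  (∀ a b c a' b' c' : ℝ, 0 ≤ a → 0 ≤ b → 0 ≤ c → 0 ≤ a' → 0 ≤ b' → 0 ≤ c' →
    cub a300 a210 a120 a030 a201 a102 a003 a021 a012 a111 a b c *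
      cub a300 a210 a120 a030 a201 a102 a003 a021 a012 a111 a' b' c' ≤
    cub a300 a210 a120 a030 a201 a102 a003 a021 a012 a111
      ((a + a') / 2) ((b + b') / 2) ((c + c') / 2) ^ 2) →
  ∀ β : ℝ, 0 < β ^ 2 * a300 + 2 * β * a201 + a102 →
    a120 * (β ^ 2 * a300 + 2 * β * a201 + a102) ≤ (β * a210 + a111) ^ 2

/-- NONN: three coefficients are nonnegative -/
def T_NONN : Prop := ∀ (L K N : Set (E 3)), IsBody L → IsBody K → IsBody N →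
  ∀ a300 a210 a120 a030 a201 a102 a003 a021 a012 a111 : ℝ,
  (∀ a b c : ℝ, 0 ≤ a → 0 ≤ b → 0 ≤ c → volume.real (a • L + b • K + c • N) =
    cub a300 a210 a120 a030 a201 a102 a003 a021 a012 a111 a b c) →
  0 ≤ a210 ∧ 0 ≤ a201 ∧ 0 ≤ a111

/-- LINC -/
def T_LINC : Prop := ∀ (L K N : Set (E 3)), IsBody L → IsBody K → IsBody N →
  ∀ a300 a210 a120 a030 a201 a102 a003 a021 a012 a111 : ℝ,
  (∀ a b c : ℝ, 0 ≤ a → 0 ≤ b → 0 ≤ c → volume.real (a • L + b • K + c • N) =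
    cub a300 a210 a120 a030 a201 a102 a003 a021 a012 a111 a b c) →
  ∀ (s : ℝ) (t : E 3), 0 ≤ s → K ⊆ (fun x => s • x + t) '' L → a210 ≤ s * a300 ∧
    a120 ≤ s ^ 2 * a300

/-- KEYC -/
def T_KEYC : Prop := ∀ a300 a210 a120 a030 a201 a102 a003 a021 a012 a111 δ : ℝ, 0 ≤ δ →
  (∀ s r : ℝ, 0 ≤ s → 0 ≤ r →
    cub a300 a210 a120 a030 a201 a102 a003 a021 a012 a111 1 s (4 * δ * s + r) -
      cub a300 a210 a120 a030 a201 a102 a003 a021 a012 a111 1 s (4 * δ * s) ≤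
    cub a300 a210 a120 a030 a201 a102 a003 a021 a012 a111 (1 + s) 0 r -
      cub a300 a210 a120 a030 a201 a102 a003 a021 a012 a111 (1 + s) 0 0) →
  a111 + 4 * δ * a102 ≤ a201

/-! ## Brunn-Minkowski -/

/-- PLC -/
def T_PLC : Prop := ∀ (n : ℕ) (A B : Set (E n)), IsBody A → IsBody B →
  volume.real A * volume.real B ≤ volume.real ((1 / 2 : ℝ) • (A + B)) ^ 2

/-! ## the volume is a cubic form -/

/-- LSEA: derivative of the gradient of log-sum-exp -/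
def T_LSEA : Prop := ∀ (n p : ℕ) (v : Fin (p + 1) → E n) (x : E n),
  HasFDerivAt (gr v) (hs v x) x

/-- LSEB: derivative of log-sum-exp and lower bound -/
def T_LSEB : Prop := ∀ (n p : ℕ) (v : Fin (p + 1) → E n) (x : E n),
  HasFDerivAt (lse v) (innerSL ℝ (gr v x)) x ∧ (∀ j, inner ℝ (v j) x ≤ lse v x)

/-- LSEC: positivity and monotonicity -/
def T_LSEC : Prop := ∀ (n p : ℕ) (v : Fin (p + 1) → E n),
  (∀ x d e, inner ℝ (hs v x d) e = inner ℝ d (hs v x e) ∧ 0 ≤ inner ℝ (hs v x d) d) ∧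
  (∀ x y, 0 ≤ inner ℝ (gr v x - gr v y) (x - y)) ∧
  (∀ x, gr v x ∈ convexHull ℝ (Set.range v)) ∧
  ((interior (convexHull ℝ (Set.range v))).Nonempty →
    (∀ x y, x ≠ y → 0 < inner ℝ (gr v x - gr v y) (x - y)) ∧
    (∀ x, gr v x ∈ interior (convexHull ℝ (Set.range v))))

/-- the sum of polytopes -/
def poS {n r p : ℕ} (v : Fin r → Fin (p + 1) → E n) (a : Fin r → ℝ) : Set (E n) :=
  ∑ i, a i • convexHull ℝ (Set.range (v i))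

/-- the combination of gradients -/
noncomputable def cg {n r p : ℕ} (v : Fin r → Fin (p + 1) → E n) (a : Fin r → ℝ) (x : E n) : E n :=
  ∑ i, a i • gr (v i) x

/-- the combination of Hessians -/
noncomputable def ch {n r p : ℕ} (v : Fin r → Fin (p + 1) → E n) (a : Fin r → ℝ) (x : E n) :
    E n →L[ℝ] E n := ∑ i, a i • hs (v i) x

/-- IMG -/
def T_IMG : Prop := ∀ (n r p : ℕ) (v : Fin r → Fin (p + 1) → E n) (a : Fin r → ℝ),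
  (∀ i, (interior (convexHull ℝ (Set.range (v i)))).Nonempty) → (∀ i, 0 ≤ a i) → (∃ i, 0 < a i) →
  Function.Injective (cg v a) ∧ Set.range (cg v a) = interior (poS v a)

/-- CHV -/
def T_CHV : Prop := ∀ (n r p : ℕ) (v : Fin r → Fin (p + 1) → E n) (a : Fin r → ℝ),
  (∀ i, (interior (convexHull ℝ (Set.range (v i)))).Nonempty) → (∀ i, 0 ≤ a i) → (∃ i, 0 < a i) →
  Integrable (fun x => (ch v a x).det) ∧ volume.real (poS v a) = ∫ x, (ch v a x).det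

/-- NODE -/
def T_NODE : Prop := ∀ (A B C : E 3 →L[ℝ] E 3) (a b c : ℝ),
  (a • A + b • B + c • C).det =
    interp (fun j => ((nodes j).1 • A + (nodes j).2.1 • B + (nodes j).2.2 • C).det) a b c

/-- POLYP -/
def T_POLYP : Prop := ∀ (p : ℕ) (v : Fin 3 → Fin (p + 1) → E 3),
  (∀ i, (interior (convexHull ℝ (Set.range (v i)))).Nonempty) → ∀ a b c : ℝ, 0 ≤ a → 0 ≤ b →
  0 ≤ c → volume.real (poS v ![a, b, c]) =
    interp (fun j => volume.real (poS v ![(nodes j).1, (nodes j).2.1, (nodes j).2.2])) a b c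

/-- APPR -/
def T_APPR : Prop := ∀ (n : ℕ) (K : Set (E n)), IsBody K → (0 : E n) ∈ interior K → ∀ t : ℝ,
  0 ≤ t → t < 1 → ∃ (p : ℕ) (v : Fin (p + 1) → E n), convexHull ℝ (Set.range v) ⊆ K ∧
    t • K ⊆ convexHull ℝ (Set.range v) ∧ (interior (convexHull ℝ (Set.range v))).Nonempty

/-- POLY -/
def T_POLY : Prop := ∀ (L K N : Set (E 3)), IsBody L → IsBody K → IsBody N →
  (interior L).Nonempty → (interior K).Nonempty → (interior N).Nonempty →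
  IsCub (fun a b c => volume.real (a • L + b • K + c • N))

/-! ## main -/

/-- QUAD -/
def T_QUAD : Prop := ∀ (K L : Set (E 3)), IsBody K → IsBody L → (interior K).Nonempty →
  (interior L).Nonempty → Covers L K →
  ∃ a300 a210 a120 a030 : ℝ, (∀ a b : ℝ, 0 ≤ a → 0 ≤ b → volume.real (a • L + b • K) =
    a300 * a ^ 3 + 3 * a210 * a ^ 2 * b + 3 * a120 * a * b ^ 2 + a030 * b ^ 3) ∧
    a120 ≤ kap * a300 ∧ a210 ≤ 2 * a300

/-- EROS -/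
def T_EROS : Prop := ∀ (n : ℕ) (K L : Set (E n)), IsBody K → IsBody L → Covers L K →
  ∀ ε : ℝ, 0 < ε → ∀ M : ℝ, 0 ≤ M →
  (∀ W : Set (E n), IsBody W → Covers L W → volume.real W ≤ M) →
  2 * (1 + ε) ^ n * volume.real K ≤ M + volume.real ((1 + ε) • K + ε • L)

/-- MAIN -/
def T_MAIN : Prop := ∀ K L : Set (E 3), IsBody K → IsBody L → Covers L K →
  volume K ≤ ENNReal.ofReal ((85 - 18 * √3) / 37) * volume L

end Pool.Agent.CS3
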