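import Mathlib
import Pool.Agent.CS3.Targets

/-!
# Covering shadows in dimension three: the volume is a cubic form
-/

set_option autoImplicit false

open Finset MeasureTheory Filter Topology
open scoped Pointwise ENNReal

namespace Pool.Agent.CS3

open Pool.Agent.Shadow

namespace POLY_

lemma vmono {A B : Set (E 3)} (hB : IsCompact B) (h : A ⊆ B) :
    volume.real A ≤ volume.real B :=
  measureReal_mono h hB.measure_ne_top

lemma vsmul (A : Set (E 3)) {t : ℝ} (ht : 0 ≤ t) :
    volume.real (t • A) = t ^ 3 * volume.real A := by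
  unfold Measure.real
  rw [Measure.addHaar_smul, ENNReal.toReal_mul, ENNReal.toReal_ofReal (abs_nonneg _),
    finrank_euclideanSpace_fin, abs_pow, abs_of_nonneg ht]

lemma vtrans (A : Set (E 3)) (g : E 3) : volume.real (({g} : Set (E 3)) + A) = volume.real A := by
  unfold Measure.real
  rw [Set.singleton_add, Set.image_add_left, measure_preimage_add]

/-- repetition of points -/
lemma repeat_pts {n : ℕ} {p : ℕ} (v : Fin (p + 1) → E n) (q : ℕ) (h : p ≤ q) :
    ∃ v' : Fin (q + 1) → E n, Set.range v' = Set.range v := by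
  refine ⟨fun j => v ⟨min j.val p, by omega⟩, ?_⟩
  ext x
  constructor
  · rintro ⟨j, rfl⟩
    exact ⟨_, rfl⟩
  · rintro ⟨j, rfl⟩
    refine ⟨⟨j.val, by omega⟩, ?_⟩
    have hj : min j.val p = j.val := by
      have := j.isLt
      omega
    simp only [hj]

/-- translation of a body so that `0` is in the interior -/
lemma move {n : ℕ} {L : Set (E n)} (hL : IsBody L) (h : (interior L).Nonempty) :
    ∃ (g : E n) (L' : Set (E n)), IsBody L' ∧ (0 : E n) ∈ interior L' ∧ L = {g} + L' := by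
  obtain ⟨g, hg⟩ := h
  refine ⟨g, {-g} + L, ?_, ?_, ?_⟩
  · exact ⟨Set.Nonempty.add (Set.singleton_nonempty _) hL.1, isCompact_singleton.add hL.2.1,
      (convex_singleton _).add hL.2.2⟩
  · rw [Set.singleton_add, Set.image_add_left, neg_neg]
    have hc : Continuous fun x : E n => g + x := by fun_prop
    apply mem_interior.2
    refine ⟨(fun x : E n => g + x) ⁻¹' interior L, Set.preimage_mono interior_subset,
      isOpen_interior.preimage hc, ?_⟩
    show g + 0 ∈ interior L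
    rwa [add_zero]
  · rw [← add_assoc, Set.singleton_add_singleton, add_neg_cancel, Set.singleton_zero, zero_add]

lemma move3 {L K N L' K' N' : Set (E 3)} {g1 g2 g3 : E 3} (h1 : L = {g1} + L')
    (h2 : K = {g2} + K') (h3 : N = {g3} + N') (a b c : ℝ) :
    volume.real (a • L + b • K + c • N) = volume.real (a • L' + b • K' + c • N') := by
  have e : a • L + b • K + c • N = {a • g1 + b • g2 + c • g3} + (a • L' + b • K' + c • N') := by
    rw [h1, h2, h3, smul_add, smul_add, smul_add, Set.smul_set_singleton, Set.smul_set_singleton,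
      Set.smul_set_singleton, ← Set.singleton_add_singleton, ← Set.singleton_add_singleton]
    abel
  rw [e, vtrans]

lemma poS3 {p : ℕ} (v : Fin 3 → Fin (p + 1) → E 3) (a b c : ℝ) :
    poS v ![a, b, c] = a • convexHull ℝ (Set.range (v 0)) + b • convexHull ℝ (Set.range (v 1)) +
      c • convexHull ℝ (Set.range (v 2)) := by
  unfold poS
  rw [Fin.sum_univ_three]
  rfl

/-- the value of `interp` is a cubic form -/
lemma interp_cub (f : Fin 10 → ℝ) : ∃ a300 a210 a120 a030 a201 a102 a003 a021 a012 a111 : ℝ,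
    ∀ a b c : ℝ, interp f a b c =
      cub a300 a210 a120 a030 a201 a102 a003 a021 a012 a111 a b c := by
  refine ⟨f 0, (f 4 - 2 * f 3 - 6 * f 0 + f 1) / 2 / 3,
    (f 3 - f 0 - f 1 - (f 4 - 2 * f 3 - 6 * f 0 + f 1) / 2) / 3, f 1,
    (f 6 - 2 * f 5 - 6 * f 0 + f 2) / 2 / 3,
    (f 5 - f 0 - f 2 - (f 6 - 2 * f 5 - 6 * f 0 + f 2) / 2) / 3, f 2,
    (f 8 - 2 * f 7 - 6 * f 1 + f 2) / 2 / 3,
    (f 7 - f 1 - f 2 - (f 8 - 2 * f 7 - 6 * f 1 + f 2) / 2) / 3,
    (f 9 - f 0 - f 1 - f 2 - (f 4 - 2 * f 3 - 6 * f 0 + f 1) / 2 -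
      (f 3 - f 0 - f 1 - (f 4 - 2 * f 3 - 6 * f 0 + f 1) / 2) -
      (f 6 - 2 * f 5 - 6 * f 0 + f 2) / 2 -
      (f 5 - f 0 - f 2 - (f 6 - 2 * f 5 - 6 * f 0 + f 2) / 2) -
      (f 8 - 2 * f 7 - 6 * f 1 + f 2) / 2 -
      (f 7 - f 1 - f 2 - (f 8 - 2 * f 7 - 6 * f 1 + f 2) / 2)) / 6, ?_⟩
  intro a b c
  unfold interp cub
  ring

lemma interp_tendsto (f : ℕ → Fin 10 → ℝ) (g : Fin 10 → ℝ)
    (h : ∀ j, Tendsto (fun k => f k j) atTop (𝓝 (g j))) (a b c : ℝ) :
    Tendsto (fun k => interp (f k) a b c) atTop (𝓝 (interp g a b c)) := by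
  have hc : Continuous fun f : Fin 10 → ℝ => interp f a b c := by
    unfold interp
    fun_prop
  exact (hc.tendsto g).comp (tendsto_pi_nhds.2 h)

lemma nodes_nonneg (j : Fin 10) : 0 ≤ (nodes j).1 ∧ 0 ≤ (nodes j).2.1 ∧ 0 ≤ (nodes j).2.2 := by
  fin_cases j <;> simp [nodes]

end POLY_

open POLY_ in
theorem p_POLY (h_POLYP : T_POLYP) (h_APPR : T_APPR) : T_POLY := by
  intro L K N hL hK hN iL iK iN
  obtain ⟨g1, L', hL', oL, eL⟩ := move hL iL
  obtain ⟨g2, K', hK', oK, eK⟩ := move hK iK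
  obtain ⟨g3, N', hN', oN, eN⟩ := move hN iN
  set V : ℝ → ℝ → ℝ → ℝ := fun a b c => volume.real (a • L' + b • K' + c • N') with hV
  set τ : ℕ → ℝ := fun k => 1 - 1 / ((k : ℝ) + 1) with hτ
  have hτ0 : ∀ k, 0 ≤ τ k := fun k => by
    have : 1 / ((k : ℝ) + 1) ≤ 1 := by
      rw [div_le_one (by positivity)]
      have : (0 : ℝ) ≤ k := Nat.cast_nonneg k
      linarith
    simp only [hτ]
    linarith
  have hτ1 : ∀ k, τ k < 1 := fun k => by
    have : 0 < 1 / ((k : ℝ) + 1) := by positivity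
    simp only [hτ]
    linarith
  have hτl : Tendsto τ atTop (𝓝 1) := by
    have := (tendsto_one_div_add_atTop_nhds_zero_nat (𝕜 := ℝ)).const_sub 1
    simpa [hτ] using this
  -- the polytopes
  have hex : ∀ k, ∃ (p : ℕ) (v : Fin 3 → Fin (p + 1) → E 3),
      (∀ i, (interior (convexHull ℝ (Set.range (v i)))).Nonempty) ∧
      (convexHull ℝ (Set.range (v 0)) ⊆ L' ∧ τ k • L' ⊆ convexHull ℝ (Set.range (v 0))) ∧
      (convexHull ℝ (Set.range (v 1)) ⊆ K' ∧ τ k • K' ⊆ convexHull ℝ (Set.range (v 1))) ∧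
      (convexHull ℝ (Set.range (v 2)) ⊆ N' ∧ τ k • N' ⊆ convexHull ℝ (Set.range (v 2))) := by
    intro k
    obtain ⟨p1, v1, a1, b1, c1⟩ := h_APPR 3 L' hL' oL (τ k) (hτ0 k) (hτ1 k)
    obtain ⟨p2, v2, a2, b2, c2⟩ := h_APPR 3 K' hK' oK (τ k) (hτ0 k) (hτ1 k)
    obtain ⟨p3, v3, a3, b3, c3⟩ := h_APPR 3 N' hN' oN (τ k) (hτ0 k) (hτ1 k)
    obtain ⟨w1, hw1⟩ := repeat_pts v1 (p1 + p2 + p3) (by omega)
    obtain ⟨w2, hw2⟩ := repeat_pts v2 (p1 + p2 + p3) (by omega)
    obtain ⟨w3, hw3⟩ := repeat_pts v3 (p1 + p2 + p3) (by omega)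
    refine ⟨p1 + p2 + p3, ![w1, w2, w3], ?_, ?_, ?_, ?_⟩
    · intro i
      fin_cases i
      · show (interior (convexHull ℝ (Set.range w1))).Nonempty
        rw [hw1]; exact c1
      · show (interior (convexHull ℝ (Set.range w2))).Nonempty
        rw [hw2]; exact c2
      · show (interior (convexHull ℝ (Set.range w3))).Nonempty
        rw [hw3]; exact c3
    · show convexHull ℝ (Set.range w1) ⊆ L' ∧ τ k • L' ⊆ convexHull ℝ (Set.range w1)
      rw [hw1]; exact ⟨a1, b1⟩
    · show convexHull ℝ (Set.range w2) ⊆ K' ∧ τ k • K' ⊆ convexHull ℝ (Set.range w2)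
      rw [hw2]; exact ⟨a2, b2⟩
    · show convexHull ℝ (Set.range w3) ⊆ N' ∧ τ k • N' ⊆ convexHull ℝ (Set.range w3)
      rw [hw3]; exact ⟨a3, b3⟩
  choose p v hint hv1 hv2 hv3 using hex
  have hcomp : ∀ a b c : ℝ, IsCompact (a • L' + b • K' + c • N') := fun a b c =>
    ((hL'.2.1.smul a).add (hK'.2.1.smul b)).add (hN'.2.1.smul c)
  have hlim : ∀ a b c : ℝ, Tendsto (fun k => volume.real (poS (v k) ![a, b, c])) atTop
      (𝓝 (V a b c)) := by
    intro a b c
    have hup : ∀ k, volume.real (poS (v k) ![a, b, c]) ≤ V a b c := by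
      intro k
      rw [poS3]
      apply vmono (hcomp a b c)
      exact Set.add_subset_add (Set.add_subset_add (Set.smul_set_mono (hv1 k).1)
        (Set.smul_set_mono (hv2 k).1)) (Set.smul_set_mono (hv3 k).1)
    have hlo : ∀ k, τ k ^ 3 * V a b c ≤ volume.real (poS (v k) ![a, b, c]) := by
      intro k
      rw [hV]
      simp only
      rw [← vsmul _ (hτ0 k), poS3]
      apply vmono
      · have hc : ∀ i, IsCompact (convexHull ℝ (Set.range (v k i))) := fun i =>
          Set.Finite.isCompact_convexHull ℝ (Set.finite_range _)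
        exact (((hc 0).smul a).add ((hc 1).smul b)).add ((hc 2).smul c)
      · rw [smul_add, smul_add, smul_comm (τ k) a, smul_comm (τ k) b, smul_comm (τ k) c]
        exact Set.add_subset_add (Set.add_subset_add (Set.smul_set_mono (hv1 k).2)
          (Set.smul_set_mono (hv2 k).2)) (Set.smul_set_mono (hv3 k).2)
    refine tendsto_of_tendsto_of_tendsto_of_le_of_le ?_ tendsto_const_nhds hlo hup
    have := (hτl.pow 3).mul_const (V a b c)
    simpa using this
  have hval : ∀ a b c : ℝ, 0 ≤ a → 0 ≤ b → 0 ≤ c → V a b c =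
      interp (fun j => V (nodes j).1 (nodes j).2.1 (nodes j).2.2) a b c := by
    intro a b c ha hb hc
    have h1 := hlim a b c
    have h2 := interp_tendsto (fun k j => volume.real
      (poS (v k) ![(nodes j).1, (nodes j).2.1, (nodes j).2.2]))
      (fun j => V (nodes j).1 (nodes j).2.1 (nodes j).2.2) (fun j => hlim _ _ _) a b c
    have h3 : (fun k => volume.real (poS (v k) ![a, b, c])) = fun k => interp (fun j => volume.real
      (poS (v k) ![(nodes j).1, (nodes j).2.1, (nodes j).2.2])) a b c := by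
      funext k
      exact h_POLYP (p k) (v k) (hint k) a b c ha hb hc
    rw [h3] at h1
    exact tendsto_nhds_unique h1 h2
  obtain ⟨a300, a210, a120, a030, a201, a102, a003, a021, a012, a111, hcub⟩ :=
    interp_cub (fun j => V (nodes j).1 (nodes j).2.1 (nodes j).2.2)
  refine ⟨a300, a210, a120, a030, a201, a102, a003, a021, a012, a111, ?_⟩
  intro a b c ha hb hc
  show volume.real (a • L + b • K + c • N) = _
  rw [move3 eL eK eN, ← hcub a b c]
  exact hval a b c ha hb hc

end Pool.Agent.CS3
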