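import Pool.Agent.CS3.Targets

/-!
# POLYP: the volume of a combination of three polytopes is a cubic form
-/

set_option autoImplicit false

open Finset MeasureTheory Filter Topology
open scoped Pointwise ENNReal

namespace Pool.Agent.CS3

open Pool.Agent.Shadow

namespace POLYP_

/-- the weights of the nodes -/
noncomputable def w (a b c : ℝ) : Fin 10 → ℝ :=
  ![a ^ 3 - 3 * (a ^ 2 * b) + 2 * (a * b ^ 2) - 3 * (a ^ 2 * c) + 2 * (a * c ^ 2) + a * b * c,
    a ^ 2 * b / 2 - 3 / 2 * (a * b ^ 2) + b ^ 3 - 3 * (b ^ 2 * c) + 2 * (b * c ^ 2) + a * b * c,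
    a ^ 2 * c / 2 - 3 / 2 * (a * c ^ 2) + c ^ 3 + b ^ 2 * c / 2 - 3 / 2 * (b * c ^ 2) + a * b * c,
    -(a ^ 2 * b) + 2 * (a * b ^ 2) - a * b * c,
    a ^ 2 * b / 2 - a * b ^ 2 / 2,
    -(a ^ 2 * c) + 2 * (a * c ^ 2) - a * b * c,
    a ^ 2 * c / 2 - a * c ^ 2 / 2,
    -(b ^ 2 * c) + 2 * (b * c ^ 2) - a * b * c,
    b ^ 2 * c / 2 - b * c ^ 2 / 2,
    a * b * c]

lemma interp_eq (f : Fin 10 → ℝ) (a b c : ℝ) : interp f a b c = ∑ j, w a b c j * f j := by
  rw [Fin.sum_univ_castSucc, Fin.sum_univ_castSucc, Fin.sum_univ_eight]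
  show _ = (a ^ 3 - 3 * (a ^ 2 * b) + 2 * (a * b ^ 2) - 3 * (a ^ 2 * c) + 2 * (a * c ^ 2) +
      a * b * c) * f 0 +
    (a ^ 2 * b / 2 - 3 / 2 * (a * b ^ 2) + b ^ 3 - 3 * (b ^ 2 * c) + 2 * (b * c ^ 2) +
      a * b * c) * f 1 +
    (a ^ 2 * c / 2 - 3 / 2 * (a * c ^ 2) + c ^ 3 + b ^ 2 * c / 2 - 3 / 2 * (b * c ^ 2) +
      a * b * c) * f 2 +
    (-(a ^ 2 * b) + 2 * (a * b ^ 2) - a * b * c) * f 3 +
    (a ^ 2 * b / 2 - a * b ^ 2 / 2) * f 4 +
    (-(a ^ 2 * c) + 2 * (a * c ^ 2) - a * b * c) * f 5 +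
    (a ^ 2 * c / 2 - a * c ^ 2 / 2) * f 6 +
    (-(b ^ 2 * c) + 2 * (b * c ^ 2) - a * b * c) * f 7 +
    (b ^ 2 * c / 2 - b * c ^ 2 / 2) * f 8 +
    (a * b * c) * f 9
  unfold interp
  ring

lemma interp_zero (f : Fin 10 → ℝ) : interp f 0 0 0 = 0 := by
  unfold interp
  ring

end POLYP_

open POLYP_ in
theorem p_POLYP (h_CHV : T_CHV) (h_NODE : T_NODE) : T_POLYP := by
  intro p v hv a b c ha hb hc
  by_cases h0 : a = 0 ∧ b = 0 ∧ c = 0
  · obtain ⟨rfl, rfl, rfl⟩ := h0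
    rw [interp_zero]
    have h1 : poS v ![(0 : ℝ), 0, 0] = {0} := by
      unfold poS
      rw [Fin.sum_univ_three]
      have h2 : ∀ i : Fin 3, (0 : ℝ) • convexHull ℝ (Set.range (v i)) = (0 : Set (E 3)) := by
        intro i
        exact Set.zero_smul_set (Set.range_nonempty (v i)).convexHull
      show (0 : ℝ) • convexHull ℝ (Set.range (v 0)) + (0 : ℝ) • convexHull ℝ (Set.range (v 1)) +
        (0 : ℝ) • convexHull ℝ (Set.range (v 2)) = {0}
      rw [h2, h2, h2, add_zero, add_zero, Set.singleton_zero]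
    rw [h1, measureReal_def, measure_singleton, ENNReal.toReal_zero]
  · have hch : ∀ (x y z : ℝ) (u : E 3), ch v ![x, y, z] u =
        x • hs (v 0) u + y • hs (v 1) u + z • hs (v 2) u := by
      intro x y z u
      unfold ch
      rw [Fin.sum_univ_three]
      rfl
    have hpos : ∃ i : Fin 3, 0 < (![a, b, c] : Fin 3 → ℝ) i := by
      by_contra hcon
      push Not at hcon
      apply h0
      refine ⟨le_antisymm (hcon 0) ha, le_antisymm (hcon 1) hb, le_antisymm (hcon 2) hc⟩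
    have hnn : ∀ i : Fin 3, 0 ≤ (![a, b, c] : Fin 3 → ℝ) i := by
      intro i
      fin_cases i
      · exact ha
      · exact hb
      · exact hc
    have hnode : ∀ j : Fin 10,
        (∀ i : Fin 3, 0 ≤ (![(nodes j).1, (nodes j).2.1, (nodes j).2.2] : Fin 3 → ℝ) i) ∧
        ∃ i : Fin 3, 0 < (![(nodes j).1, (nodes j).2.1, (nodes j).2.2] : Fin 3 → ℝ) i := by
      have key : ∀ x y z : ℝ, 0 ≤ x → 0 ≤ y → 0 ≤ z → 0 < x + y + z →
          (∀ i : Fin 3, 0 ≤ (![x, y, z] : Fin 3 → ℝ) i) ∧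
          ∃ i : Fin 3, 0 < (![x, y, z] : Fin 3 → ℝ) i := by
        intro x y z hx hy hz hs
        refine ⟨fun i => ?_, ?_⟩
        · fin_cases i
          · exact hx
          · exact hy
          · exact hz
        · by_contra hcon
          push Not at hcon
          have e0 : x ≤ 0 := hcon 0
          have e1 : y ≤ 0 := hcon 1
          have e2 : z ≤ 0 := hcon 2
          linarith
      intro j
      apply key <;> fin_cases j <;> simp [nodes]
      all_goals norm_num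
    have hI := fun j : Fin 10 => h_CHV 3 3 p v ![(nodes j).1, (nodes j).2.1, (nodes j).2.2] hv
      (hnode j).1 (hnode j).2
    rw [(h_CHV 3 3 p v ![a, b, c] hv hnn hpos).2, interp_eq]
    have h1 : (fun x => (ch v ![a, b, c] x).det) = fun x => ∑ j, w a b c j *
        (ch v ![(nodes j).1, (nodes j).2.1, (nodes j).2.2] x).det := by
      funext x
      rw [hch, h_NODE, interp_eq]
      refine Finset.sum_congr rfl fun j _ => ?_
      rw [hch]
    rw [h1, integral_finsetSum _ (fun j _ => (hI j).1.const_mul _)]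
    refine Finset.sum_congr rfl fun j _ => ?_
    rw [integral_const_mul, (hI j).2]

end Pool.Agent.CS3
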