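import Pool.Agent.CS3.Targets

/-!
# PSIX: an inequality for four numbers
-/

set_option autoImplicit false

namespace Pool.Agent.CS3

open Pool.Agent.Shadow

namespace PSIX_

theorem sq_two (r : ℝ) (hr : r = 3 - √3) : r ^ 2 = 6 * r - 6 := by
  have h := Real.sq_sqrt (show (0 : ℝ) ≤ 3 by norm_num)
  rw [hr]
  nlinarith

theorem r_bounds (r : ℝ) (hr : r = 3 - √3) : 1 < r ∧ r < 13 / 10 := by
  have h1 : √3 < 2 := by
    rw [Real.sqrt_lt' (by norm_num)]
    norm_num
  have h2 : (17 / 10 : ℝ) < √3 := Real.lt_sqrt_of_sq_lt (by norm_num)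
  constructor <;> linarith

/-- The pair inequality. -/
theorem pair (r x y : ℝ) (h2 : r ^ 2 = 6 * r - 6) (hr1 : 1 < r) (hs : x + y ≤ 3 / 2) :
    (max (x + y - 1) 0) ^ 2 ≤ (r - 1) / 2 - r / 3 * (x + y) + 2 / 3 * (x ^ 2 + y ^ 2) := by
  have hxy : (x + y) ^ 2 / 2 ≤ x ^ 2 + y ^ 2 := by nlinarith [sq_nonneg (x - y)]
  rcases le_total (x + y - 1) 0 with h | h
  · rw [max_eq_right h]
    nlinarith [sq_nonneg (x + y - r / 2)]
  · rw [max_eq_left h]
    have h3 : 0 ≤ (3 / 2 - (x + y)) * (2 / 3 * (x + y) + (r - 3) / 3) := by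
      apply mul_nonneg (by linarith)
      linarith
    nlinarith

/-- One small number. -/
theorem small (x y z : ℝ) (hx : x ≤ 1) (hy : y ≤ 1) (hz : 0 ≤ z) (h : x + y + z ≤ 2) :
    (max (x + z - 1) 0) ^ 2 + (max (y + z - 1) 0) ^ 2 ≤ z ^ 2 := by
  rcases le_total (x + z - 1) 0 with h1 | h1
  · rw [max_eq_right h1]
    rcases le_total (y + z - 1) 0 with h2 | h2
    · rw [max_eq_right h2]
      nlinarith
    · rw [max_eq_left h2]
      nlinarith
  · rw [max_eq_left h1]
    rcases le_total (y + z - 1) 0 with h2 | h2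
    · rw [max_eq_right h2]
      nlinarith
    · rw [max_eq_left h2]
      nlinarith [mul_nonneg h1 h2]

/-- The case of a large pair. -/
theorem big (r x y z w : ℝ) (h2 : r ^ 2 = 6 * r - 6) (hr1 : 1 < r) (hr2 : r < 13 / 10)
    (hx : x ≤ 1) (hy : y ≤ 1) (hz : 0 ≤ z) (hw : 0 ≤ w)
    (hxyz : x + y + z ≤ 2) (hxyw : x + y + w ≤ 2) (hs : 3 / 2 < x + y) :
    3 - 2 * (x ^ 2 + y ^ 2 + z ^ 2 + w ^ 2) +
      ((max (x + y - 1) 0) ^ 2 + (max (x + z - 1) 0) ^ 2 + (max (x + w - 1) 0) ^ 2 +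
      (max (y + z - 1) 0) ^ 2 + (max (y + w - 1) 0) ^ 2 + (max (z + w - 1) 0) ^ 2) ≤
      r * (3 - (x + y + z + w)) := by
  have a1 := small x y z hx hy hz hxyz
  have a2 := small x y w hx hy hw hxyw
  have a3 : max (z + w - 1) 0 = 0 := max_eq_right (by linarith)
  have a4 : max (x + y - 1) 0 = x + y - 1 := max_eq_left (by linarith)
  rw [a3, a4]
  have hxy : (x + y) ^ 2 ≤ 2 * (x ^ 2 + y ^ 2) := by nlinarith [sq_nonneg (x - y)]
  obtain ⟨t, ht⟩ : ∃ t, t = 2 - (x + y) := ⟨_, rfl⟩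
  have ht1 : t < 1 / 2 := by linarith
  have hzt : z ≤ t := by linarith
  have hwt : w ≤ t := by linarith
  have b1 : t ^ 2 - r * t ≤ z ^ 2 - r * z := by nlinarith
  have b2 : t ^ 2 - r * t ≤ w ^ 2 - r * w := by nlinarith
  have ht0 : 0 ≤ t := by linarith
  have b3 : 0 ≤ r - (2 + r) * t + 2 * t ^ 2 := by nlinarith
  have hxyt : x + y = 2 - t := by linarith
  nlinarith

end PSIX_

open PSIX_

theorem p_PSIX : T_PSIX := by
  intro a h0 h1 h2
  obtain ⟨r, hr⟩ : ∃ r : ℝ, r = 3 - √3 := ⟨_, rfl⟩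
  have hr2 := sq_two r hr
  obtain ⟨hr3, hr4⟩ := r_bounds r hr
  rw [← hr]
  have k0 := h2 0
  have k1 := h2 1
  have k2 := h2 2
  have k3 := h2 3
  simp only [Fin.sum_univ_four] at k0 k1 k2 k3 ⊢
  have p0 := h0 0
  have p1 := h0 1
  have p2 := h0 2
  have p3 := h0 3
  have q0 := h1 0
  have q1 := h1 1
  have q2 := h1 2
  have q3 := h1 3
  generalize a 0 = x at *
  generalize a 1 = y at *
  generalize a 2 = z at *
  generalize a 3 = w at *
  by_cases c1 : x + y ≤ 3 / 2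
  swap
  · push Not at c1
    have := big r x y z w hr2 hr3 hr4 q0 q1 p2 p3 (by linarith) (by linarith) c1
    linarith
  by_cases c2 : x + z ≤ 3 / 2
  swap
  · push Not at c2
    have := big r x z y w hr2 hr3 hr4 q0 q2 p1 p3 (by linarith) (by linarith) c2
    rw [add_comm z y] at this
    linarith
  by_cases c3 : x + w ≤ 3 / 2
  swap
  · push Not at c3
    have := big r x w y z hr2 hr3 hr4 q0 q3 p1 p2 (by linarith) (by linarith) c3
    rw [add_comm w y, add_comm w z] at this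
    linarith
  by_cases c4 : y + z ≤ 3 / 2
  swap
  · push Not at c4
    have := big r y z x w hr2 hr3 hr4 q1 q2 p0 p3 (by linarith) (by linarith) c4
    rw [add_comm y x, add_comm z x] at this
    linarith
  by_cases c5 : y + w ≤ 3 / 2
  swap
  · push Not at c5
    have := big r y w x z hr2 hr3 hr4 q1 q3 p0 p2 (by linarith) (by linarith) c5
    rw [add_comm y x, add_comm w x, add_comm w z] at this
    linarith
  by_cases c6 : z + w ≤ 3 / 2
  swap
  · push Not at c6
    have := big r z w x y hr2 hr3 hr4 q2 q3 p0 p1 (by linarith) (by linarith) c6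
    rw [add_comm z x, add_comm w x, add_comm z y, add_comm w y] at this
    linarith
  have e1 := pair r x y hr2 hr3 c1
  have e2 := pair r x z hr2 hr3 c2
  have e3 := pair r x w hr2 hr3 c3
  have e4 := pair r y z hr2 hr3 c4
  have e5 := pair r y w hr2 hr3 c5
  have e6 := pair r z w hr2 hr3 c6
  linarith

end Pool.Agent.CS3
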