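import Pool.Agent.CS3.Targets

/-!
# Covering shadows in dimension three: SEG
-/

set_option autoImplicit false

namespace Pool.Agent.CS3

open Finset

theorem p_SEG : T_SEG := by
  intro n u q i hu hq
  classical
  set S : Finset (Fin (n + 1)) := Finset.univ.filter (fun l => q l < q i) with hS
  have hne : S.Nonempty := by
    obtain ⟨l, hl⟩ := hq
    exact ⟨l, by simp [hS, hl]⟩
  obtain ⟨j, hjS, hjmin⟩ := S.exists_min_image
    (fun l => (u l - u i) / ((u l - u i) + (q i - q l))) hne
  have hj : q j < q i := by
    have := hjS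
    simp only [hS, Finset.mem_filter, Finset.mem_univ, true_and] at this
    exact this
  have hA : 0 ≤ u j - u i := by linarith [hu j]
  have hD : 0 < (u j - u i) + (q i - q j) := by linarith
  set θ : ℝ := (u j - u i) / ((u j - u i) + (q i - q j)) with hθ
  have hθ0 : 0 ≤ θ := div_nonneg hA hD.le
  have hθ1 : θ ≤ 1 := by
    rw [hθ, div_le_one hD]
    linarith
  have hkey : θ * ((u j - u i) + (q i - q j)) = u j - u i := by
    rw [hθ]
    exact div_mul_cancel₀ _ hD.ne'
  refine ⟨θ, hθ0, hθ1, j, ?_, ?_, ?_⟩
  · intro h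
    rw [h] at hj
    exact lt_irrefl _ hj
  · linarith
  · intro l
    by_cases hl : q l < q i
    · have hlS : l ∈ S := by simp [hS, hl]
      have h1 := hjmin l hlS
      have hD' : 0 < (u l - u i) + (q i - q l) := by linarith [hu l]
      have h2 : θ * ((u l - u i) + (q i - q l)) ≤ u l - u i := by
        have h3 : θ ≤ (u l - u i) / ((u l - u i) + (q i - q l)) := h1
        rwa [le_div_iff₀ hD'] at h3
      linarith
    · have h1 : 0 ≤ q l - q i := by linarith [not_lt.mp hl]
      have h2 : 0 ≤ θ * (q l - q i) := mul_nonneg hθ0 h1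
      have h3 : 0 ≤ (1 - θ) * (u l - u i) := mul_nonneg (by linarith) (by linarith [hu l])
      linarith

end Pool.Agent.CS3
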