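import Pool.Agent.CS3.Targets

/-!
# STAR
-/

set_option autoImplicit false

open Finset MeasureTheory Filter Topology
open scoped Pointwise ENNReal

namespace Pool.Agent.CS3

open Pool.Agent.Shadow

theorem p_STAR (h_HULLB : T_HULLB) (h_FBODY : T_FBODY) (h_STARA : T_STARA) : T_STAR := by
  intro n hn z hz A hA r hr
  obtain ⟨hH, hAH, -⟩ := h_HULLB n hn z hz A hA
  have hN : IsBody (upS z r) := (h_FBODY n z hz).1 r hr
  obtain ⟨w, U, hUo, hUA, hUd, hsub⟩ := h_STARA n hn z hz A hA r hr
  set H := hull z A with hHdef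
  set N := upS z r with hNdef
  have cHN : IsCompact (H + N) := hH.2.1.add hN.2.1
  have cAN : IsCompact (A + N) := hA.2.1.add hN.2.1
  have cH : IsCompact H := hH.2.1
  have cA : IsCompact A := hA.2.1
  have hsubAN : A + N ⊆ H + N := Set.add_subset_add_right hAH
  have e1 : volume.real (H + N) - volume.real (A + N) = volume.real ((H + N) \ (A + N)) := by
    rw [measureReal_sdiff hsubAN cAN.measurableSet cHN.measure_lt_top.ne]
  have e2 : volume.real H - volume.real A = volume.real (H \ A) := by
    rw [measureReal_sdiff hAH cA.measurableSet cH.measure_lt_top.ne]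
  have hm : ∀ i, MeasurableSet (H ∩ U i) := fun i => cH.measurableSet.inter (hUo i).measurableSet
  have hfinHU : ∀ i, volume (H ∩ U i) ≠ ⊤ := fun i =>
    ((measure_mono Set.inter_subset_left).trans_lt cH.measure_lt_top).ne
  have htr : ∀ i, volume ((fun x => x + w i) '' (H ∩ U i)) = volume (H ∩ U i) := by
    intro i
    rw [Set.image_add_right, measure_preimage_add_right]
  have e3 : volume.real ((H + N) \ (A + N)) ≤ ∑ i, volume.real (H ∩ U i) := by
    have h1 : volume ((H + N) \ (A + N)) ≤ ∑ i, volume (H ∩ U i) := by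
      refine (measure_mono hsub).trans ?_
      refine (measure_iUnion_fintype_le _ _).trans ?_
      exact le_of_eq (Finset.sum_congr rfl fun i _ => htr i)
    have h2 : ∑ i, volume (H ∩ U i) ≠ ⊤ := by
      rw [ENNReal.sum_ne_top]
      exact fun i _ => hfinHU i
    have h3 := ENNReal.toReal_mono h2 h1
    rw [ENNReal.toReal_sum (fun i _ => hfinHU i)] at h3
    exact h3
  have e4 : ∑ i, volume.real (H ∩ U i) ≤ volume.real (H \ A) := by
    have h1 : volume (⋃ i, H ∩ U i) = ∑ i, volume (H ∩ U i) := by
      rw [measure_iUnion (fun i j hij => hUd i j hij) hm, tsum_fintype]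
    have h2 : (⋃ i, H ∩ U i) ⊆ H \ A := by
      intro x hx
      rw [Set.mem_iUnion] at hx
      obtain ⟨i, hxH, hxU⟩ := hx
      exact ⟨hxH, fun hxA => Set.disjoint_left.1 (hUA i) hxU hxA⟩
    have h3 : volume (H \ A) ≠ ⊤ := ((measure_mono Set.sdiff_subset).trans_lt cH.measure_lt_top).ne
    have h4 := ENNReal.toReal_mono h3 (measure_mono (μ := volume) h2)
    rw [h1, ENNReal.toReal_sum (fun i _ => hfinHU i)] at h4
    exact h4
  linarith

end Pool.Agent.CS3
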