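import Pool.Agent.CS3.Targets

/-!
# Covering shadows in dimension three: STARA
-/

set_option autoImplicit false

open Finset
open scoped Pointwise

namespace Pool.Agent.CS3

open Pool.Agent.Shadow

namespace STARA_

/-- the functional with coordinates `q` -/
noncomputable def ev {n : ℕ} (z : Fin (n + 1) → E n →L[ℝ] ℝ) (q : Fin (n + 1) → ℝ) (x : E n) : ℝ :=
  ∑ l, q l * z l x

lemma ev_cont {n : ℕ} (z : Fin (n + 1) → E n →L[ℝ] ℝ) (q : Fin (n + 1) → ℝ) :
    Continuous (fun x => ev z q x) :=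
  continuous_finsetSum _ (fun l _ => continuous_const.mul (z l).continuous)

lemma ev_add {n : ℕ} (z : Fin (n + 1) → E n →L[ℝ] ℝ) (q : Fin (n + 1) → ℝ) (x y : E n) :
    ev z q (x + y) = ev z q x + ev z q y := by
  unfold ev
  rw [← Finset.sum_add_distrib]
  apply Finset.sum_congr rfl
  intro l _
  rw [map_add]
  ring

lemma ev_comb {n : ℕ} (z : Fin (n + 1) → E n →L[ℝ] ℝ) (u q : Fin (n + 1) → ℝ) (θ : ℝ) (x : E n) :
    ev z (fun l => (1 - θ) * u l + θ * q l) x = (1 - θ) * ev z u x + θ * ev z q x := by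
  unfold ev
  rw [Finset.mul_sum, Finset.mul_sum, ← Finset.sum_add_distrib]
  apply Finset.sum_congr rfl
  intro l _
  ring

lemma ev_shift {n : ℕ} {z : Fin (n + 1) → E n →L[ℝ] ℝ} (hz : IsFrame z) (q : Fin (n + 1) → ℝ)
    (c : ℝ) (x : E n) : ev z q x = ∑ l, (q l - c) * z l x := by
  have h := hz.sum_zero x
  have h1 : ∑ l, (q l - c) * z l x = ev z q x - c * ∑ l, z l x := by
    unfold ev
    rw [Finset.mul_sum, ← Finset.sum_sub_distrib]
    apply Finset.sum_congr rfl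
    intro l _
    ring
  rw [h1, h]
  ring

lemma ev_vertex {n : ℕ} {z : Fin (n + 1) → E n →L[ℝ] ℝ} (hz : IsFrame z) (q : Fin (n + 1) → ℝ)
    (i : Fin (n + 1)) (hq : ∀ l, q i ≤ q l) (r : ℝ) (w s : E n) (hw : ∀ j, j ≠ i → z j w = r)
    (hs : s ∈ upS z r) : ev z q s ≤ ev z q w := by
  rw [ev_shift hz q (q i) s, ev_shift hz q (q i) w]
  apply Finset.sum_le_sum
  intro l _
  by_cases hl : l = i
  · rw [hl]
    simp
  · rw [hw l hl]
    exact mul_le_mul_of_nonneg_left (hs l) (by linarith [hq l])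

lemma conv_lt {θ a b c d : ℝ} (h0 : 0 ≤ θ) (h1 : θ ≤ 1) (hab : a < b) (hcd : c < d) :
    (1 - θ) * a + θ * c < (1 - θ) * b + θ * d := by
  rcases h1.eq_or_lt with h | h
  · rw [h]
    linarith
  · have h2 : (1 - θ) * a < (1 - θ) * b := mul_lt_mul_of_pos_left hab (by linarith)
    have h3 : θ * c ≤ θ * d := mul_le_mul_of_nonneg_left hcd.le h0
    linarith

end STARA_

open STARA_

theorem p_STARA (h_FSURJ : T_FSURJ) (h_FBODY : T_FBODY) (h_FFUN : T_FFUN) (h_SEG : T_SEG) :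
    T_STARA := by
  intro n hn z hz A hA r hr
  classical
  -- the vertices
  have hvert : ∀ i : Fin (n + 1), ∃ w : E n, (∀ j, j ≠ i → z j w = r) ∧ z i w = -(n * r) := by
    intro i
    obtain ⟨w, hw⟩ := h_FSURJ n z hz (fun j => if j = i then -(n * r) else r) (by
      rw [← Finset.sum_erase_add _ _ (Finset.mem_univ i)]
      have h1 : ∑ x ∈ Finset.univ.erase i, (if x = i then -(n * r) else r) =
          ∑ x ∈ (Finset.univ : Finset (Fin (n + 1))).erase i, r := by
        apply Finset.sum_congr rfl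
        intro x hx
        rw [if_neg (Finset.ne_of_mem_erase hx)]
      rw [h1, Finset.sum_const, Finset.card_erase_of_mem (Finset.mem_univ i), Finset.card_univ,
        Fintype.card_fin, if_pos rfl, nsmul_eq_mul, Nat.add_sub_cancel]
      ring)
    refine ⟨w, fun j hj => ?_, ?_⟩
    · rw [hw j, if_neg hj]
    · rw [hw i, if_pos rfl]
  choose w hw hwi using hvert
  have hwS : ∀ i, w i ∈ upS z r := by
    intro i j
    by_cases hj : j = i
    · rw [hj, hwi i]
      have : 0 ≤ (n : ℝ) * r := mul_nonneg (Nat.cast_nonneg n) hr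
      linarith
    · rw [hw i j hj]
  -- maxima on A
  have hmax : ∀ q : Fin (n + 1) → ℝ, ∃ a ∈ A, ∀ b ∈ A, ev z q b ≤ ev z q a := by
    intro q
    obtain ⟨a, ha, hm⟩ := hA.2.1.exists_isMaxOn hA.1 (ev_cont z q).continuousOn
    exact ⟨a, ha, fun b hb => hm hb⟩
  choose m hmA hmmax using hmax
  have hhull : ∀ x, x ∈ hull z A ↔ ∀ q : Fin (n + 1) → ℝ, Wall q → ∃ a ∈ A,
      ev z q x ≤ ev z q a := fun x => Iff.rfl
  -- the open sets
  set U : Fin (n + 1) → Set (E n) := fun i => ⋃ (u : Fin (n + 1) → ℝ), ⋃ (_ : ∀ l, u i ≤ u l),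
    {y | ev z u (m u) < ev z u y} with hU
  have hUmem : ∀ i y, y ∈ U i ↔ ∃ u : Fin (n + 1) → ℝ, (∀ l, u i ≤ u l) ∧
      ∀ a ∈ A, ev z u a < ev z u y := by
    intro i y
    simp only [hU, Set.mem_iUnion]
    constructor
    · rintro ⟨u, hu, hy⟩
      exact ⟨u, hu, fun a ha => lt_of_le_of_lt (hmmax u a ha) hy⟩
    · rintro ⟨u, hu, hy⟩
      exact ⟨u, hu, hy (m u) (hmA u)⟩
  refine ⟨w, U, ?_, ?_, ?_, ?_⟩
  · intro i
    exact isOpen_iUnion (fun u => isOpen_iUnion (fun _ =>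
      isOpen_lt continuous_const (ev_cont z u)))
  · intro i
    rw [Set.disjoint_left]
    intro y hy hyA
    obtain ⟨u, _, hu⟩ := (hUmem i y).mp hy
    exact lt_irrefl _ (hu y hyA)
  · intro i j hij
    rw [Set.disjoint_left]
    rintro y ⟨hyh, hyi⟩ ⟨_, hyj⟩
    obtain ⟨u, hu, huy⟩ := (hUmem i y).mp hyi
    obtain ⟨u', hu', huy'⟩ := (hUmem j y).mp hyj
    by_cases heq : u' i = u' j
    · obtain ⟨a, ha, hya⟩ := (hhull y).mp hyh u' ⟨j, i, hij.symm, heq.symm, hu'⟩
      exact absurd (huy' a ha) (not_lt.mpr hya)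
    · have hlt : u' j < u' i := lt_of_le_of_ne (hu' i) (fun h => heq h.symm)
      obtain ⟨θ, h0, h1, k, hk, hk1, hk2⟩ := h_SEG n u u' i hu ⟨j, hlt⟩
      obtain ⟨a, ha, hya⟩ := (hhull y).mp hyh (fun l => (1 - θ) * u l + θ * u' l)
        ⟨i, k, hk.symm, hk1, hk2⟩
      rw [ev_comb, ev_comb] at hya
      exact absurd (conv_lt h0 h1 (huy a ha) (huy' a ha)) (not_lt.mpr hya)
  · rintro x ⟨hx, hxn⟩
    obtain ⟨y0, hy0, s, hs, rfl⟩ := Set.mem_add.mp hx
    have hN : IsBody (upS z r) := (h_FBODY n z hz).1 r hr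
    have hCc : IsCompact (A + upS z r) := hA.2.1.add hN.2.1
    have hCv : Convex ℝ (A + upS z r) := hA.2.2.add hN.2.2
    obtain ⟨f, c, hf1, hf2⟩ := geometric_hahn_banach_closed_point hCv hCc.isClosed hxn
    obtain ⟨u, hu⟩ := h_FFUN n z hz f
    have hu' : ∀ x, f x = ev z u x := hu
    have hsep : ∀ a ∈ A, ∀ s' ∈ upS z r, ev z u (a + s') < ev z u (y0 + s) := by
      intro a ha s' hs'
      have h1 := hf1 (a + s') (Set.add_mem_add ha hs')
      rw [← hu', ← hu']
      exact h1.trans hf2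
    obtain ⟨i, hi⟩ := Finite.exists_min u
    set y : E n := y0 + s - w i with hy
    have hyw : y0 + s = y + w i := by rw [hy, sub_add_cancel]
    have huy : ∀ a ∈ A, ev z u a < ev z u y := by
      intro a ha
      have h1 := hsep a ha (w i) (hwS i)
      rw [hyw, ev_add, ev_add] at h1
      linarith
    have hcase1 : ∀ q : Fin (n + 1) → ℝ, Wall q → (∀ l, q i ≤ q l) → ∃ a ∈ A,
        ev z q y ≤ ev z q a := by
      intro q hq hqi
      obtain ⟨a, ha, hya⟩ := (hhull y0).mp hy0 q hq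
      refine ⟨a, ha, ?_⟩
      have h1 : ev z q s ≤ ev z q (w i) := ev_vertex hz q i hqi r (w i) s (hw i) hs
      have h2 : ev z q y0 + ev z q s = ev z q y + ev z q (w i) := by
        rw [← ev_add, ← ev_add, hyw]
      linarith
    have hyhull : y ∈ hull z A := by
      rw [hhull]
      intro q hq
      by_cases hqi : ∀ l, q i ≤ q l
      · exact hcase1 q hq hqi
      · push Not at hqi
        by_contra hcon
        push Not at hcon
        obtain ⟨θ, h0, h1, k, hk, hk1, hk2⟩ := h_SEG n u q i hi hqi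
        obtain ⟨a, ha, hya⟩ := hcase1 (fun l => (1 - θ) * u l + θ * q l)
          ⟨i, k, hk.symm, hk1, hk2⟩ hk2
        rw [ev_comb, ev_comb] at hya
        exact absurd (conv_lt h0 h1 (huy a ha) (hcon a ha)) (not_lt.mpr hya)
    refine Set.mem_iUnion.mpr ⟨i, y, ⟨hyhull, (hUmem i y).mpr ⟨u, hi, huy⟩⟩, ?_⟩
    exact hyw.symm

end Pool.Agent.CS3
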