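import Pool.Agent.CS3.Targets

/-!
# Volumes of truncated simplices
-/

set_option autoImplicit false

open Finset MeasureTheory Filter Topology
open scoped Pointwise ENNReal

namespace Pool.Agent.CS3

open Pool.Agent.Shadow

namespace TRUNC_

theorem comb {N : ℕ} (c : Fin N → ℝ) (A : Fin N → Set (E 3)) (hA : ∀ k, MeasurableSet (A k))
    (hf : ∀ k, volume (A k) ≠ ⊤)
    (h : ∀ x, 0 ≤ ∑ k, c k * (A k).indicator (1 : E 3 → ℝ) x) :
    0 ≤ ∑ k, c k * volume.real (A k) := by
  have hi : ∀ k, Integrable ((A k).indicator (1 : E 3 → ℝ)) volume := fun k =>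
    (integrable_indicator_iff (hA k)).mpr (integrableOn_const (hf k))
  have e : ∫ x, ∑ k, c k * (A k).indicator (1 : E 3 → ℝ) x = ∑ k, c k * volume.real (A k) := by
    rw [integral_finsetSum _ (fun k _ => (hi k).const_mul (c k))]
    refine Finset.sum_congr rfl fun k _ => ?_
    rw [integral_const_mul, integral_indicator_one (hA k)]
  rw [← e]
  exact integral_nonneg h

variable {z : Fin 4 → E 3 →L[ℝ] ℝ}

theorem loS_closed (z : Fin 4 → E 3 →L[ℝ] ℝ) (c : Fin 4 → ℝ) : IsClosed (loS z c) := by
  have : loS z c = ⋂ i, {x | -c i ≤ z i x} := by ext x; simp [loS]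
  rw [this]
  exact isClosed_iInter fun i => isClosed_le continuous_const (z i).continuous

theorem trS_closed (z : Fin 4 → E 3 →L[ℝ] ℝ) (g h : Fin 4 → ℝ) : IsClosed (trS z g h) := by
  have : trS z g h = ⋂ i, ({x | -g i ≤ z i x} ∩ {x | z i x ≤ h i}) := by ext x; simp [trS]
  rw [this]
  exact isClosed_iInter fun i => (isClosed_le continuous_const (z i).continuous).inter
    (isClosed_le (z i).continuous continuous_const)

theorem loS_sub (hz : IsFrame z) (c : Fin 4 → ℝ) :
    loS z c ⊆ trS z c (fun i => ∑ j, c j - c i) := by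
  intro x hx i
  refine ⟨hx i, ?_⟩
  have h0 := hz.sum_zero x
  have h1 : ∑ j, (z j x + c j) = ∑ j, c j := by rw [Finset.sum_add_distrib, h0, zero_add]
  have h2 : z i x + c i ≤ ∑ j, (z j x + c j) :=
    Finset.single_le_sum (f := fun j => z j x + c j) (fun j _ => by have := hx j; linarith)
      (Finset.mem_univ i)
  linarith

theorem trS_fin (hF : T_FBODY) (hz : IsFrame z) (g h : Fin 4 → ℝ) : volume (trS z g h) ≠ ⊤ := by
  rcases (trS z g h).eq_empty_or_nonempty with he | hne
  · rw [he]; simp
  · exact ((hF 3 z hz).2.2 g h hne).2.1.measure_ne_top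

theorem loS_fin (hF : T_FBODY) (hz : IsFrame z) (c : Fin 4 → ℝ) : volume (loS z c) ≠ ⊤ :=
  measure_ne_top_of_subset (loS_sub hz c) (trS_fin hF hz _ _)

/-- the part of the simplex with `z_i ≥ m_i - g_i` for `i ∈ S` -/
def C (z : Fin 4 → E 3 →L[ℝ] ℝ) (g m : Fin 4 → ℝ) (S : Finset (Fin 4)) : Set (E 3) :=
  loS z (fun i => g i - if i ∈ S then m i else 0)

theorem C_vol (h_SV : T_SV) (hz : IsFrame z) (g m : Fin 4 → ℝ) (T : ℝ) (hT : ∑ i, g i = T)
    (S : Finset (Fin 4)) :
    volume.real (C z g m S) = (max (T - ∑ i ∈ S, m i) 0) ^ 3 * volume.real (upS z (1 / 4)) := by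
  rw [C, h_SV z hz, Finset.sum_sub_distrib, Finset.sum_ite_mem, Finset.univ_inter, hT]

theorem C_ind (g m : Fin 4 → ℝ) (hm : ∀ i, 0 ≤ m i) (S : Finset (Fin 4)) (x : E 3) :
    (C z g m S).indicator (1 : E 3 → ℝ) x =
      (loS z g).indicator (1 : E 3 → ℝ) x * ∏ i ∈ S, (if m i - g i ≤ z i x then (1 : ℝ) else 0) := by
  have hiff : x ∈ C z g m S ↔ x ∈ loS z g ∧ ∀ i ∈ S, m i - g i ≤ z i x := by
    constructor
    · intro hx
      refine ⟨fun i => ?_, fun i hi => ?_⟩
      · have := hx i
        have h2 := hm i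
        simp only at this
        split_ifs at this <;> linarith
      · have := hx i
        simp only [if_pos hi] at this
        linarith
    · rintro ⟨h1, h2⟩ i
      by_cases hi : i ∈ S
      · have := h2 i hi
        simp only [if_pos hi]
        linarith
      · have := h1 i
        simp only [if_neg hi]
        linarith
  by_cases h1 : x ∈ loS z g
  · rw [Set.indicator_of_mem h1]
    by_cases h2 : ∀ i ∈ S, m i - g i ≤ z i x
    · rw [Set.indicator_of_mem (hiff.mpr ⟨h1, h2⟩), Finset.prod_congr rfl
        (fun i hi => if_pos (h2 i hi))]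
      simp
    · rw [Set.indicator_of_notMem (fun hx => h2 (hiff.mp hx).2)]
      push Not at h2
      obtain ⟨i, hi, hlt⟩ := h2
      rw [Finset.prod_eq_zero hi (if_neg (not_le.mpr hlt))]
      simp
  · rw [Set.indicator_of_notMem h1, Set.indicator_of_notMem (fun hx => h1 (hiff.mp hx).1), zero_mul]

theorem up_eps (h_SV : T_SV) (h_F : T_FBODY) (hz : IsFrame z) (g h : Fin 4 → ℝ)
    (hm : ∀ i, 0 ≤ g i + h i) (T : ℝ) (hT : ∑ i, g i = T) (ε : ℝ) (hε : 0 < ε) :
    volume.real (trS z g h) ≤ ((max T 0) ^ 3 -
      ∑ i, (max (T - (g i + h i) - ε) 0) ^ 3 +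
    ((max (T - (g 0 + h 0) - (g 1 + h 1)) 0) ^ 3 +
     (max (T - (g 0 + h 0) - (g 2 + h 2)) 0) ^ 3 +
     (max (T - (g 0 + h 0) - (g 3 + h 3)) 0) ^ 3 +
     (max (T - (g 1 + h 1) - (g 2 + h 2)) 0) ^ 3 +
     (max (T - (g 1 + h 1) - (g 3 + h 3)) 0) ^ 3 +
     (max (T - (g 2 + h 2) - (g 3 + h 3)) 0) ^ 3)) * volume.real (upS z (1 / 4)) := by
  have hm' : ∀ i, 0 ≤ (fun i => g i + h i + ε) i := fun i => by have := hm i; simp only; linarith
  have key := comb (N := 12) ![-1, 1, -1, -1, -1, -1, 1, 1, 1, 1, 1, 1]
    ![trS z g h, loS z g, C z g (fun i => g i + h i + ε) {0}, C z g (fun i => g i + h i + ε) {1},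
      C z g (fun i => g i + h i + ε) {2}, C z g (fun i => g i + h i + ε) {3},
      C z g (fun i => g i + h i) {0, 1}, C z g (fun i => g i + h i) {0, 2},
      C z g (fun i => g i + h i) {0, 3}, C z g (fun i => g i + h i) {1, 2},
      C z g (fun i => g i + h i) {1, 3}, C z g (fun i => g i + h i) {2, 3}]
    (by
      intro k
      fin_cases k
      · exact (trS_closed z g h).measurableSet
      all_goals exact (loS_closed z _).measurableSet)
    (by
      intro k
      fin_cases k
      · exact trS_fin h_F hz g h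
      all_goals exact loS_fin h_F hz _)
    (by
      intro x
      simp only [Fin.sum_univ_succ, Matrix.cons_val_zero, Matrix.cons_val_succ, Fin.sum_univ_zero,
        C_ind g _ hm', C_ind g _ hm, Finset.prod_singleton]
      rw [Finset.prod_pair (by decide), Finset.prod_pair (by decide), Finset.prod_pair (by decide),
        Finset.prod_pair (by decide), Finset.prod_pair (by decide), Finset.prod_pair (by decide)]
      by_cases hx : x ∈ loS z g
      · rw [Set.indicator_of_mem hx]
        have e0 : ∀ i, (if g i + h i + ε - g i ≤ z i x then (1 : ℝ) else 0) ≤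
            if g i + h i - g i ≤ z i x then (1 : ℝ) else 0 := by
          intro i
          split_ifs with h1 h2
          · exact le_refl _
          · exact absurd (by linarith) h2
          · norm_num
          · exact le_refl _
        have e1 : ∀ i, (if g i + h i - g i ≤ z i x then (1 : ℝ) else 0) = 0 ∨
            (if g i + h i - g i ≤ z i x then (1 : ℝ) else 0) = 1 := by
          intro i
          split_ifs
          · exact Or.inr rfl
          · exact Or.inl rfl
        by_cases ht : x ∈ trS z g h
        · rw [Set.indicator_of_mem ht]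
          have e2 : ∀ i, (if g i + h i + ε - g i ≤ z i x then (1 : ℝ) else 0) = 0 := by
            intro i
            rw [if_neg]
            have := (ht i).2
            intro hh
            linarith
          rw [e2 0, e2 1, e2 2, e2 3]
          simp only [Pi.one_apply]
          rcases e1 0 with h0 | h0 <;> rcases e1 1 with h1 | h1 <;> rcases e1 2 with h2 | h2 <;>
            rcases e1 3 with h3 | h3 <;> rw [h0, h1, h2, h3] <;> norm_num
        · rw [Set.indicator_of_notMem ht]
          simp only [Pi.one_apply]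
          have f0 := e0 0
          have f1 := e0 1
          have f2 := e0 2
          have f3 := e0 3
          rcases e1 0 with h0 | h0 <;> rcases e1 1 with h1 | h1 <;> rcases e1 2 with h2 | h2 <;>
            rcases e1 3 with h3 | h3 <;> rw [h0] at f0 ⊢ <;> rw [h1] at f1 ⊢ <;>
            rw [h2] at f2 ⊢ <;> rw [h3] at f3 ⊢ <;> linarith
      · have ht : x ∉ trS z g h := fun ht => hx (fun i => (ht i).1)
        rw [Set.indicator_of_notMem hx, Set.indicator_of_notMem ht]
        simp)
  simp only [Fin.sum_univ_succ, Matrix.cons_val_zero, Matrix.cons_val_succ, Fin.sum_univ_zero,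
    C_vol h_SV hz g _ T hT, h_SV z hz g, hT, Finset.sum_singleton] at key
  rw [Finset.sum_pair (by decide), Finset.sum_pair (by decide), Finset.sum_pair (by decide),
    Finset.sum_pair (by decide), Finset.sum_pair (by decide), Finset.sum_pair (by decide)] at key
  rw [Fin.sum_univ_four]
  simp only [sub_sub]
  linarith

theorem p3 (f : Fin 4 → ℝ) (a b c : Fin 4) (h1 : a ∉ ({b, c} : Finset (Fin 4))) (h2 : b ≠ c) :
    ∏ i ∈ ({a, b, c} : Finset (Fin 4)), f i = f a * (f b * f c) := by
  rw [Finset.prod_insert h1, Finset.prod_pair h2]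

theorem s3 (f : Fin 4 → ℝ) (a b c : Fin 4) (h1 : a ∉ ({b, c} : Finset (Fin 4))) (h2 : b ≠ c) :
    ∑ i ∈ ({a, b, c} : Finset (Fin 4)), f i = f a + (f b + f c) := by
  rw [Finset.sum_insert h1, Finset.sum_pair h2]

theorem low (h_SV : T_SV) (h_F : T_FBODY) (hz : IsFrame z) (g h : Fin 4 → ℝ)
    (hm : ∀ i, 0 ≤ g i + h i) (T : ℝ) (hT : ∑ i, g i = T)
    (h3 : ∀ i, T ≤ ∑ j, (g j + h j) - (g i + h i)) :
    ((max T 0) ^ 3 - ∑ i, (max (T - (g i + h i)) 0) ^ 3 +
    ((max (T - (g 0 + h 0) - (g 1 + h 1)) 0) ^ 3 +
     (max (T - (g 0 + h 0) - (g 2 + h 2)) 0) ^ 3 +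
     (max (T - (g 0 + h 0) - (g 3 + h 3)) 0) ^ 3 +
     (max (T - (g 1 + h 1) - (g 2 + h 2)) 0) ^ 3 +
     (max (T - (g 1 + h 1) - (g 3 + h 3)) 0) ^ 3 +
     (max (T - (g 2 + h 2) - (g 3 + h 3)) 0) ^ 3)) * volume.real (upS z (1 / 4)) ≤
    volume.real (trS z g h) := by
  have key := comb (N := 16) ![1, -1, 1, 1, 1, 1, -1, -1, -1, -1, -1, -1, 1, 1, 1, 1]
    ![trS z g h, loS z g, C z g (fun i => g i + h i) {0}, C z g (fun i => g i + h i) {1},
      C z g (fun i => g i + h i) {2}, C z g (fun i => g i + h i) {3},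
      C z g (fun i => g i + h i) {0, 1}, C z g (fun i => g i + h i) {0, 2},
      C z g (fun i => g i + h i) {0, 3}, C z g (fun i => g i + h i) {1, 2},
      C z g (fun i => g i + h i) {1, 3}, C z g (fun i => g i + h i) {2, 3},
      C z g (fun i => g i + h i) {0, 1, 2}, C z g (fun i => g i + h i) {0, 1, 3},
      C z g (fun i => g i + h i) {0, 2, 3}, C z g (fun i => g i + h i) {1, 2, 3}]
    (by
      intro k
      fin_cases k
      · exact (trS_closed z g h).measurableSet
      all_goals exact (loS_closed z _).measurableSet)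
    (by
      intro k
      fin_cases k
      · exact trS_fin h_F hz g h
      all_goals exact loS_fin h_F hz _)
    (by
      intro x
      simp only [Fin.sum_univ_succ, Matrix.cons_val_zero, Matrix.cons_val_succ, Fin.sum_univ_zero,
        C_ind g _ hm, Finset.prod_singleton]
      rw [Finset.prod_pair (by decide), Finset.prod_pair (by decide), Finset.prod_pair (by decide),
        Finset.prod_pair (by decide), Finset.prod_pair (by decide), Finset.prod_pair (by decide),
        p3 _ _ _ _ (by decide) (by decide), p3 _ _ _ _ (by decide) (by decide),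
        p3 _ _ _ _ (by decide) (by decide), p3 _ _ _ _ (by decide) (by decide)]
      by_cases hx : x ∈ loS z g
      · rw [Set.indicator_of_mem hx]
        have e1 : ∀ i, ((if g i + h i - g i ≤ z i x then (1 : ℝ) else 0) = 0 ∧ z i x ≤ h i) ∨
            (if g i + h i - g i ≤ z i x then (1 : ℝ) else 0) = 1 := by
          intro i
          split_ifs with hh
          · exact Or.inr rfl
          · exact Or.inl ⟨rfl, by linarith⟩
        have e3 : 0 ≤ (trS z g h).indicator (1 : E 3 → ℝ) x :=
          Set.indicator_nonneg (fun _ _ => zero_le_one) x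
        simp only [Pi.one_apply]
        rcases e1 0 with h0 | h0
        · rcases e1 1 with h1 | h1
          · rcases e1 2 with h2 | h2
            · rcases e1 3 with h3 | h3
              · have ht : x ∈ trS z g h := by
                  intro i
                  refine ⟨hx i, ?_⟩
                  fin_cases i
                  exacts [h0.2, h1.2, h2.2, h3.2]
                rw [Set.indicator_of_mem ht, h0.1, h1.1, h2.1, h3.1]
                simp
              · rw [h0.1, h1.1, h2.1, h3]; linarith
            · rcases e1 3 with h3 | h3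
              · rw [h0.1, h1.1, h2, h3.1]; linarith
              · rw [h0.1, h1.1, h2, h3]; linarith
          · rcases e1 2 with h2 | h2
            · rcases e1 3 with h3 | h3
              · rw [h0.1, h1, h2.1, h3.1]; linarith
              · rw [h0.1, h1, h2.1, h3]; linarith
            · rcases e1 3 with h3 | h3
              · rw [h0.1, h1, h2, h3.1]; linarith
              · rw [h0.1, h1, h2, h3]; linarith
        · rcases e1 1 with h1 | h1
          · rcases e1 2 with h2 | h2
            · rcases e1 3 with h3 | h3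
              · rw [h0, h1.1, h2.1, h3.1]; linarith
              · rw [h0, h1.1, h2.1, h3]; linarith
            · rcases e1 3 with h3 | h3
              · rw [h0, h1.1, h2, h3.1]; linarith
              · rw [h0, h1.1, h2, h3]; linarith
          · rcases e1 2 with h2 | h2
            · rcases e1 3 with h3 | h3
              · rw [h0, h1, h2.1, h3.1]; linarith
              · rw [h0, h1, h2.1, h3]; linarith
            · rcases e1 3 with h3 | h3
              · rw [h0, h1, h2, h3.1]; linarith
              · rw [h0, h1, h2, h3]; linarith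
      · have ht : x ∉ trS z g h := fun ht => hx (fun i => (ht i).1)
        rw [Set.indicator_of_notMem hx, Set.indicator_of_notMem ht]
        simp)
  simp only [Fin.sum_univ_succ, Matrix.cons_val_zero, Matrix.cons_val_succ, Fin.sum_univ_zero,
    C_vol h_SV hz g _ T hT, h_SV z hz g, hT, Finset.sum_singleton] at key
  rw [Finset.sum_pair (by decide), Finset.sum_pair (by decide), Finset.sum_pair (by decide),
    Finset.sum_pair (by decide), Finset.sum_pair (by decide), Finset.sum_pair (by decide),
    s3 _ _ _ _ (by decide) (by decide), s3 _ _ _ _ (by decide) (by decide),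
    s3 _ _ _ _ (by decide) (by decide), s3 _ _ _ _ (by decide) (by decide)] at key
  have t0 := h3 0
  have t1 := h3 1
  have t2 := h3 2
  have t3 := h3 3
  rw [Fin.sum_univ_four] at t0 t1 t2 t3
  rw [max_eq_right (show T - (g 0 + h 0 + (g 1 + h 1 + (g 2 + h 2))) ≤ 0 by linarith),
    max_eq_right (show T - (g 0 + h 0 + (g 1 + h 1 + (g 3 + h 3))) ≤ 0 by linarith),
    max_eq_right (show T - (g 0 + h 0 + (g 2 + h 2 + (g 3 + h 3))) ≤ 0 by linarith),
    max_eq_right (show T - (g 1 + h 1 + (g 2 + h 2 + (g 3 + h 3))) ≤ 0 by linarith)] at key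
  rw [Fin.sum_univ_four]
  simp only [sub_sub]
  linarith

end TRUNC_

theorem p_TRUNC (h_SV : T_SV) (h_FBODY : T_FBODY) : T_TRUNC := by
  intro z hz g h hT hm
  have e0 : (∑ i, g i) ^ 3 = (max (∑ i, g i) 0) ^ 3 := by rw [max_eq_left hT]
  constructor
  · have hc : Continuous (fun ε : ℝ => ((max (∑ i, g i) 0) ^ 3 -
        ∑ i, (max (∑ i, g i - (g i + h i) - ε) 0) ^ 3 +
        ((max (∑ i, g i - (g 0 + h 0) - (g 1 + h 1)) 0) ^ 3 +
        (max (∑ i, g i - (g 0 + h 0) - (g 2 + h 2)) 0) ^ 3 +
        (max (∑ i, g i - (g 0 + h 0) - (g 3 + h 3)) 0) ^ 3 +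
        (max (∑ i, g i - (g 1 + h 1) - (g 2 + h 2)) 0) ^ 3 +
        (max (∑ i, g i - (g 1 + h 1) - (g 3 + h 3)) 0) ^ 3 +
        (max (∑ i, g i - (g 2 + h 2) - (g 3 + h 3)) 0) ^ 3)) * volume.real (upS z (1 / 4))) := by
      fun_prop
    have hl := hc.continuousWithinAt (s := Set.Ioi 0) (x := 0)
    have := ge_of_tendsto hl (eventually_nhdsWithin_of_forall fun ε hε =>
      TRUNC_.up_eps h_SV h_FBODY hz g h hm _ rfl ε hε)
    simp only [sub_zero] at this
    simpa only [bon, e0] using this
  · intro h3
    have := TRUNC_.low h_SV h_FBODY hz g h hm _ rfl h3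
    simpa only [bon, e0] using this

end Pool.Agent.CS3
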