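import Pool.Agent.CS3.MAIN
import Pool.Agent.CS3.AFL
import Pool.Agent.CS3.APPR
import Pool.Agent.CS3.BLOW
import Pool.Agent.CS3.CHV
import Pool.Agent.CS3.COMB
import Pool.Agent.CS3.CONA
import Pool.Agent.CS3.CONB
import Pool.Agent.CS3.CONC
import Pool.Agent.CS3.CONT
import Pool.Agent.CS3.CUP
import Pool.Agent.CS3.EROS
import Pool.Agent.CS3.FBODY
import Pool.Agent.CS3.FFUN
import Pool.Agent.CS3.FSURJ
import Pool.Agent.CS3.GAIN
import Pool.Agent.CS3.HULLB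
import Pool.Agent.CS3.IMG
import Pool.Agent.CS3.KEYC
import Pool.Agent.CS3.KEYW
import Pool.Agent.CS3.LINC
import Pool.Agent.CS3.LSEA
import Pool.Agent.CS3.LSEB
import Pool.Agent.CS3.LSEC
import Pool.Agent.CS3.NODE
import Pool.Agent.CS3.NONN
import Pool.Agent.CS3.PLC
import Pool.Agent.CS3.POLY
import Pool.Agent.CS3.POLYP
import Pool.Agent.CS3.PSIX
import Pool.Agent.CS3.SEG
import Pool.Agent.CS3.STAR
import Pool.Agent.CS3.STARA
import Pool.Agent.CS3.SV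
import Pool.Agent.CS3.TRUNC

/-!
# Covering shadows in dimension three: all targets together
-/

set_option autoImplicit false

namespace Pool.Agent.CS3

open Pool.Agent.Shadow

lemma a_SV : T_SV := p_SV p_FSURJ p_FBODY
lemma a_TRUNC : T_TRUNC := p_TRUNC a_SV p_FBODY
lemma a_HULLB : T_HULLB := p_HULLB p_FBODY
lemma a_STARA : T_STARA := p_STARA p_FSURJ p_FBODY p_FFUN p_SEG
lemma a_STAR : T_STAR := p_STAR a_HULLB p_FBODY a_STARA
lemma a_COMB : T_COMB := p_COMB p_GAIN a_HULLB p_FBODY a_STAR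
lemma a_CONT : T_CONT := p_CONT p_CONA p_CONB p_CONC p_FSURJ
lemma a_CUP : T_CUP := p_CUP p_GAIN a_TRUNC p_FBODY
lemma a_BLOW : T_BLOW := p_BLOW a_SV a_TRUNC p_FBODY p_FSURJ
lemma a_IMG : T_IMG := p_IMG p_LSEA p_LSEB p_LSEC
lemma a_CHV : T_CHV := p_CHV p_LSEA p_LSEC a_IMG
lemma a_POLYP : T_POLYP := p_POLYP a_CHV p_NODE
lemma a_POLY : T_POLY := p_POLY a_POLYP t_APPR

theorem a_QUAD : T_QUAD := p_QUAD p_FBODY a_COMB (p_KEYW p_FSURJ) a_CONT a_CUP a_BLOW p_PSIX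
  p_AFL (p_NONN p_GAIN) (p_LINC p_GAIN) p_KEYC p_PLC a_POLY

theorem a_MAIN : T_MAIN := p_MAIN a_QUAD p_EROS

end Pool.Agent.CS3
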