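import Pool.Agent.CS3.Targets

/-!
# Covering shadows in dimension three: HULLB
-/

set_option autoImplicit false

open Finset
open scoped Pointwise

namespace Pool.Agent.CS3

open Pool.Agent.Shadow

namespace HULLB_

lemma wall_single {n : ℕ} (hn : 2 ≤ n) (j : Fin (n + 1)) :
    Wall (Pi.single j (1 : ℝ) : Fin (n + 1) → ℝ) := by
  classical
  have hcard : 1 < ((Finset.univ : Finset (Fin (n + 1))).erase j).card := by
    rw [Finset.card_erase_of_mem (Finset.mem_univ j), Finset.card_univ, Fintype.card_fin]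
    omega
  obtain ⟨i, hi, k, hk, hik⟩ := Finset.one_lt_card.mp hcard
  have hij : i ≠ j := (Finset.mem_erase.mp hi).1
  have hkj : k ≠ j := (Finset.mem_erase.mp hk).1
  refine ⟨i, k, hik, ?_, ?_⟩
  · rw [Pi.single_eq_of_ne hij, Pi.single_eq_of_ne hkj]
  · intro l
    rw [Pi.single_eq_of_ne hij]
    by_cases hl : l = j
    · rw [hl, Pi.single_eq_same]
      exact zero_le_one
    · rw [Pi.single_eq_of_ne hl]

lemma single_sum {n : ℕ} (z : Fin (n + 1) → E n →L[ℝ] ℝ) (j : Fin (n + 1)) (x : E n) :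
    ∑ l, (Pi.single j (1 : ℝ) : Fin (n + 1) → ℝ) l * z l x = z j x := by
  classical
  rw [Finset.sum_eq_single j]
  · rw [Pi.single_eq_same, one_mul]
  · intro b _ hb
    rw [Pi.single_eq_of_ne hb, zero_mul]
  · intro h
    exact absurd (Finset.mem_univ j) h

lemma cont {n : ℕ} (z : Fin (n + 1) → E n →L[ℝ] ℝ) (q : Fin (n + 1) → ℝ) :
    Continuous (fun x => ∑ l, q l * z l x) :=
  continuous_finsetSum _ (fun l _ => continuous_const.mul (z l).continuous)

lemma lin_smul {n : ℕ} (z : Fin (n + 1) → E n →L[ℝ] ℝ) (q : Fin (n + 1) → ℝ) (s : ℝ) (x : E n) :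
    ∑ l, q l * z l (s • x) = s * ∑ l, q l * z l x := by
  rw [Finset.mul_sum]
  apply Finset.sum_congr rfl
  intro l _
  rw [map_smul, smul_eq_mul]
  ring

lemma lin_add {n : ℕ} (z : Fin (n + 1) → E n →L[ℝ] ℝ) (q : Fin (n + 1) → ℝ) (x y : E n) :
    ∑ l, q l * z l (x + y) = ∑ l, q l * z l x + ∑ l, q l * z l y := by
  rw [← Finset.sum_add_distrib]
  apply Finset.sum_congr rfl
  intro l _
  rw [map_add]
  ring

end HULLB_

open HULLB_

theorem p_HULLB (h_FBODY : T_FBODY) : T_HULLB := by
  intro n hn z hz A hA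
  classical
  have hmax : ∀ q : Fin (n + 1) → ℝ, ∃ a ∈ A, ∀ b ∈ A,
      ∑ l, q l * z l b ≤ ∑ l, q l * z l a := by
    intro q
    obtain ⟨a, ha, hm⟩ := hA.2.1.exists_isMaxOn hA.1 (cont z q).continuousOn
    exact ⟨a, ha, fun b hb => hm hb⟩
  choose a haA hamax using hmax
  have hmem : ∀ x, x ∈ hull z A ↔ ∀ q, Wall q → ∑ l, q l * z l x ≤ ∑ l, q l * z l (a q) := by
    intro x
    constructor
    · intro hx q hq
      obtain ⟨b, hb, hxb⟩ := hx q hq
      exact hxb.trans (hamax q b hb)
    · intro hx q hq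
      exact ⟨a q, haA q, hx q hq⟩
  have hsub : A ⊆ hull z A := by
    intro x hx q _
    exact ⟨x, hx, le_rfl⟩
  have hne : (hull z A).Nonempty := hA.1.mono hsub
  have hconv : Convex ℝ (hull z A) := by
    intro x hx y hy s t hs ht hst
    rw [hmem] at hx hy ⊢
    intro q hq
    rw [lin_add, lin_smul, lin_smul]
    have h1 := mul_le_mul_of_nonneg_left (hx q hq) hs
    have h2 := mul_le_mul_of_nonneg_left (hy q hq) ht
    calc s * ∑ l, q l * z l x + t * ∑ l, q l * z l y
        ≤ s * ∑ l, q l * z l (a q) + t * ∑ l, q l * z l (a q) := add_le_add h1 h2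
      _ = ∑ l, q l * z l (a q) := by rw [← add_mul, hst, one_mul]
  have hclosed : IsClosed (hull z A) := by
    have : hull z A = ⋂ (q : Fin (n + 1) → ℝ), ⋂ (_ : Wall q),
        {x | ∑ l, q l * z l x ≤ ∑ l, q l * z l (a q)} := by
      ext x
      simp only [Set.mem_iInter, Set.mem_setOf_eq]
      exact hmem x
    rw [this]
    exact isClosed_iInter (fun q => isClosed_iInter (fun _ =>
      isClosed_le (cont z q) continuous_const))
  -- bounded
  have hup : ∀ x ∈ hull z A, ∀ j, z j x ≤ z j (a (Pi.single j 1)) := by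
    intro x hx j
    have := (hmem x).mp hx (Pi.single j 1) (wall_single hn j)
    rwa [single_sum, single_sum] at this
  set M : Fin (n + 1) → ℝ := fun j => z j (a (Pi.single j 1)) with hM
  have hlow : ∀ x ∈ hull z A, ∀ j, -(∑ i, M i - M j) ≤ z j x := by
    intro x hx j
    have h0 := hz.sum_zero x
    have h1 : ∑ i ∈ Finset.univ.erase j, z i x + z j x = 0 := by
      rw [Finset.sum_erase_add _ _ (Finset.mem_univ j)]
      exact h0
    have h2 : ∑ i ∈ Finset.univ.erase j, M i + M j = ∑ i, M i :=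
      Finset.sum_erase_add _ _ (Finset.mem_univ j)
    have h3 : ∑ i ∈ Finset.univ.erase j, z i x ≤ ∑ i ∈ Finset.univ.erase j, M i :=
      Finset.sum_le_sum (fun i _ => hup x hx i)
    linarith
  have hsubT : hull z A ⊆ trS z (fun j => ∑ i, M i - M j) M := by
    intro x hx j
    exact ⟨hlow x hx j, hup x hx j⟩
  have hT := (h_FBODY n z hz).2.2 (fun j => ∑ i, M i - M j) M (hne.mono hsubT)
  have hcomp : IsCompact (hull z A) := hT.2.1.of_isClosed_subset hclosed hsubT
  refine ⟨⟨hne, hcomp, hconv⟩, hsub, ?_⟩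
  intro s hs
  rcases hs.eq_or_lt with h0 | hpos
  · rw [← h0, Set.zero_smul_set hA.1, Set.zero_smul_set hne]
    apply Set.Subset.antisymm
    · intro x hx
      have hx0 : ∀ j, z j x ≤ 0 := by
        intro j
        obtain ⟨b, hb, hxb⟩ := hx (Pi.single j 1) (wall_single hn j)
        rw [single_sum, single_sum] at hxb
        have hb0 : b = 0 := hb
        rw [hb0, map_zero] at hxb
        exact hxb
      have hs0 := hz.sum_zero x
      have hall : ∀ i ∈ (Finset.univ : Finset (Fin (n + 1))), z i x = 0 :=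
        (Finset.sum_eq_zero_iff_of_nonpos (fun i _ => hx0 i)).mp hs0
      exact hz.inj x (fun i => hall i (Finset.mem_univ i))
    · intro x hx q _
      exact ⟨x, hx, le_rfl⟩
  · ext x
    rw [Set.mem_smul_set_iff_inv_smul_mem₀ hpos.ne']
    constructor
    · intro hx q hq
      obtain ⟨b, hb, hxb⟩ := hx q hq
      obtain ⟨c, hc, rfl⟩ := hb
      refine ⟨c, hc, ?_⟩
      have h1 : ∑ l, q l * z l x ≤ s * ∑ l, q l * z l c := by
        rw [← lin_smul]
        exact hxb
      rw [lin_smul, inv_mul_le_iff₀ hpos]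
      exact h1
    · intro hx q hq
      obtain ⟨c, hc, hxc⟩ := hx q hq
      refine ⟨s • c, Set.smul_mem_smul_set hc, ?_⟩
      rw [lin_smul, inv_mul_le_iff₀ hpos] at hxc
      rw [lin_smul]
      exact hxc

end Pool.Agent.CS3
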