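import Pool.Agent.CS3.QUAD

/-!
# Covering shadows in dimension three: the volume bound
-/

set_option autoImplicit false

open Finset MeasureTheory Filter Topology
open scoped Pointwise ENNReal

namespace Pool.Agent.CS3

open Pool.Agent.Shadow

lemma real_zero_of_interior_empty {n : ℕ} {K : Set (E n)} (hK : IsBody K)
    (h : ¬ (interior K).Nonempty) : volume.real K = 0 := by
  rw [Set.not_nonempty_iff_eq_empty] at h
  have h1 : K = frontier K := by
    rw [frontier, h, hK.2.1.isClosed.closure_eq, Set.sdiff_empty]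
  have h2 : volume (frontier K) = 0 := hK.2.2.addHaar_frontier volume
  rw [← h1] at h2
  rw [Measure.real, h2]
  rfl

lemma step_bound (h_QUAD : T_QUAD) (h_EROS : T_EROS) {L : Set (E 3)} (hL : IsBody L)
    (hLi : (interior L).Nonempty) {M : ℝ} (hM0 : 0 ≤ M)
    (hM : ∀ W : Set (E 3), IsBody W → Covers L W → volume.real W ≤ M) {ε : ℝ} (hε : 0 < ε)
    {K : Set (E 3)} (hK : IsBody K) (hc : Covers L K) :
    (1 + ε) ^ 3 * volume.real K ≤ M + 3 * (kap * volume.real L) * ε * (1 + ε) ^ 2 +
      6 * volume.real L * ε ^ 2 * (1 + ε) + volume.real L * ε ^ 3 := by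
  have hV : 0 ≤ volume.real L := measureReal_nonneg
  have hk := kap_ge
  by_cases hKi : (interior K).Nonempty
  · obtain ⟨a300, a210, a120, a030, hp, h120, h210⟩ := h_QUAD K L hK hL hKi hLi hc
    have h1 := h_EROS 3 K L hK hL hc ε hε M hM0 hM
    have h2 := hp ε (1 + ε) hε.le (by positivity)
    rw [add_comm (ε • L)] at h2
    rw [h2] at h1
    have h300 : a300 = volume.real L := by
      have := hp 1 0 zero_le_one le_rfl
      rw [Set.zero_smul_set hK.1, add_zero, one_smul] at this
      rw [this]; ring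
    have h030 : a030 = volume.real K := by
      have := hp 0 1 le_rfl zero_le_one
      rw [Set.zero_smul_set hL.1, zero_add, one_smul] at this
      rw [this]; ring
    rw [h300] at h1 h120 h210
    rw [h030] at h1
    have h3 : 3 * a120 * ε * (1 + ε) ^ 2 ≤ 3 * (kap * volume.real L) * ε * (1 + ε) ^ 2 := by
      have : 0 ≤ ε * (1 + ε) ^ 2 := by positivity
      nlinarith
    have h4 : 3 * a210 * ε ^ 2 * (1 + ε) ≤ 6 * volume.real L * ε ^ 2 * (1 + ε) := by
      have : 0 ≤ ε ^ 2 * (1 + ε) := by positivity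
      nlinarith
    nlinarith
  · rw [real_zero_of_interior_empty hK hKi, mul_zero]
    positivity

theorem main_real (h_QUAD : T_QUAD) (h_EROS : T_EROS) {K L : Set (E 3)} (hK : IsBody K)
    (hL : IsBody L) (hc : Covers L K) : volume.real K ≤ kap * volume.real L := by
  have hV : 0 ≤ volume.real L := measureReal_nonneg
  have hk := kap_ge
  by_cases hLi : (interior L).Nonempty
  · set S : Set ℝ := {r | ∃ K : Set (E 3), IsBody K ∧ Covers L K ∧ r = volume.real K} with hS
    have hSne : S.Nonempty := ⟨_, L, hL, covers_self L, rfl⟩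
    have hSb : BddAbove S := by
      refine ⟨((3 : ℕ) / ((3 : ℕ) - 1)) ^ (3 - 1) * volume.real L, ?_⟩
      rintro _ ⟨K', hK', hc', rfl⟩
      exact bound_real (by norm_num) hK' hL hc'
    set M : ℝ := sSup S with hM
    have hM1 : ∀ W : Set (E 3), IsBody W → Covers L W → volume.real W ≤ M :=
      fun W h1 h2 => le_csSup hSb ⟨W, h1, h2, rfl⟩
    have hM0 : 0 ≤ M := le_trans measureReal_nonneg (hM1 L hL (covers_self L))
    have hstep : ∀ ε : ℝ, 0 < ε → M ≤ kap * volume.real L * (1 + ε) ^ 2 +
        2 * volume.real L * ε * (1 + ε) + volume.real L * ε ^ 2 / 3 := by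
      intro ε hε
      have h1 : M ≤ (M + 3 * (kap * volume.real L) * ε * (1 + ε) ^ 2 +
          6 * volume.real L * ε ^ 2 * (1 + ε) + volume.real L * ε ^ 3) / (1 + ε) ^ 3 := by
        refine csSup_le hSne ?_
        rintro _ ⟨K', hK', hc', rfl⟩
        rw [le_div_iff₀ (by positivity), mul_comm]
        exact step_bound h_QUAD h_EROS hL hLi hM0 hM1 hε hK' hc'
      rw [le_div_iff₀ (by positivity)] at h1
      have h2 : M * (3 * ε) ≤ (kap * volume.real L * (1 + ε) ^ 2 +
        2 * volume.real L * ε * (1 + ε) + volume.real L * ε ^ 2 / 3) * (3 * ε) := by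
        have h3 : 0 ≤ M * (3 * ε ^ 2 + ε ^ 3) := by positivity
        nlinarith
      exact le_of_mul_le_mul_right h2 (by positivity)
    have hlim : Tendsto (fun ε : ℝ => kap * volume.real L * (1 + ε) ^ 2 +
        2 * volume.real L * ε * (1 + ε) + volume.real L * ε ^ 2 / 3) (𝓝[>] 0)
        (𝓝 (kap * volume.real L * (1 + 0) ^ 2 +
        2 * volume.real L * 0 * (1 + 0) + volume.real L * 0 ^ 2 / 3)) := by
      have : Continuous (fun ε : ℝ => kap * volume.real L * (1 + ε) ^ 2 +
        2 * volume.real L * ε * (1 + ε) + volume.real L * ε ^ 2 / 3) := by fun_prop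
      exact (this.tendsto 0).mono_left nhdsWithin_le_nhds
    have hfin := ge_of_tendsto hlim (eventually_nhdsWithin_of_forall fun ε hε => hstep ε hε)
    have h2 := hM1 K hK hc
    nlinarith
  · have h0 := real_zero_of_interior_empty hL hLi
    have h1 := bound_real (by norm_num) hK hL hc
    rw [h0, mul_zero] at h1 ⊢
    exact h1

theorem p_MAIN (h_QUAD : T_QUAD) (h_EROS : T_EROS) : T_MAIN := by
  intro K L hK hL hc
  have h1 := main_real h_QUAD h_EROS hK hL hc
  have h2 : (0 : ℝ) ≤ kap := le_trans zero_le_one kap_ge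
  have h3 : ENNReal.ofReal ((85 - 18 * √3) / 37) * volume L =
      ENNReal.ofReal (kap * volume.real L) := by
    rw [ENNReal.ofReal_mul h2, Measure.real, ENNReal.ofReal_toReal (vol_fin hL)]
    rfl
  rw [h3]
  calc volume K = ENNReal.ofReal (volume.real K) := by
        rw [Measure.real, ENNReal.ofReal_toReal (vol_fin hK)]
    _ ≤ _ := ENNReal.ofReal_le_ofReal h1

lemma kap_lt : (85 - 18 * √3) / 37 < (3 : ℝ) / 2 := by
  have h : (1.7 : ℝ) < √3 := by
    rw [Real.lt_sqrt (by norm_num)]
    norm_num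
  rw [div_lt_div_iff₀ (by norm_num) (by norm_num)]
  linarith

end Pool.Agent.CS3
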