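import Pool.Agent.CS3.Targets

/-!
# Covering shadows in dimension three: the quadratic bound
-/

set_option autoImplicit false

open Finset MeasureTheory Filter Topology
open scoped Pointwise ENNReal

namespace Pool.Agent.CS3

open Pool.Agent.Shadow

lemma upS_smul {n : ℕ} {z : Fin (n + 1) → E n →L[ℝ] ℝ} (hz : IsFrame z) {r s : ℝ} (hs : 0 ≤ s)
    (hr : 0 ≤ r) : s • upS z r = upS z (s * r) := by
  rcases hs.eq_or_lt with h | h
  · rw [← h, zero_mul]
    have h1 : upS z 0 = {0} := by
      ext x
      simp only [upS, Set.mem_ofPred_eq, Set.mem_singleton_iff]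
      constructor
      · intro hx
        apply hz.inj
        intro i
        have h2 := hz.sum_zero x
        by_contra hne
        have h3 : z i x < 0 := lt_of_le_of_ne (hx i) hne
        have h4 : ∑ j, z j x < ∑ j : Fin (n + 1), (0 : ℝ) :=
          Finset.sum_lt_sum (fun j _ => hx j) ⟨i, Finset.mem_univ _, h3⟩
        rw [h2] at h4
        simp at h4
      · rintro rfl
        simp
    rw [h1, Set.zero_smul_set ⟨0, by simp [upS, hr]⟩]
    rfl
  · ext x
    rw [Set.mem_smul_set_iff_inv_smul_mem₀ h.ne']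
    simp only [upS, Set.mem_ofPred_eq, map_smul, smul_eq_mul]
    refine forall_congr' fun i => ?_
    rw [inv_mul_le_iff₀ h]

lemma upS_convex {n : ℕ} (z : Fin (n + 1) → E n →L[ℝ] ℝ) (r : ℝ) : Convex ℝ (upS z r) := by
  intro x hx y hy a b ha hb hab i
  simp only [map_add, map_smul, smul_eq_mul]
  calc a * z i x + b * z i y ≤ a * r + b * r :=
        add_le_add (mul_le_mul_of_nonneg_left (hx i) ha) (mul_le_mul_of_nonneg_left (hy i) hb)
    _ = r := by rw [← add_mul, hab, one_mul]

lemma upS_add {n : ℕ} {z : Fin (n + 1) → E n →L[ℝ] ℝ} (hz : IsFrame z) {r s : ℝ} (hs : 0 ≤ s)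
    (hr : 0 ≤ r) : upS z r + upS z s = upS z (r + s) := by
  have h1 := upS_smul hz hs zero_le_one
  have h2 := upS_smul hz hr zero_le_one
  have h3 := upS_smul hz (add_nonneg hr hs) zero_le_one
  rw [mul_one] at h1 h2 h3
  rw [← h1, ← h2, ← h3, (upS_convex z 1).add_smul hr hs]

/-- a translate -/
lemma body_trans {n : ℕ} {K : Set (E n)} (w : E n) (hK : IsBody K) :
    IsBody ((fun x => x + w) '' K) := by
  have := body_aff 1 w hK
  simpa using this

lemma covers_trans {n : ℕ} {K L : Set (E n)} (w : E n) (h : Covers L K) :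
    Covers L ((fun x => x + w) '' K) := by
  intro u hu
  obtain ⟨v, hv, hvL⟩ := h u hu
  refine ⟨v - Shadow.shadow u w, ?_, ?_⟩
  · rw [inner_sub_right, hv]
    unfold Pool.Agent.Shadow.shadow
    rw [inner_sub_right, inner_smul_right, real_inner_self_eq_norm_sq, hu]
    ring
  · rintro _ ⟨_, ⟨_, ⟨x, hx, rfl⟩, rfl⟩, rfl⟩
    have h1 := hvL ⟨Shadow.shadow u x, ⟨x, hx, rfl⟩, rfl⟩
    have h2 : Shadow.shadow u (x + w) + (v - Shadow.shadow u w) = Shadow.shadow u x + v := by
      rw [shadow_add]; abel
    change Shadow.shadow u (x + w) + (v - Shadow.shadow u w) ∈ _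
    rw [h2]
    exact h1

lemma trans_eq {n : ℕ} (w : E n) (K : Set (E n)) : (fun x => x + w) '' K = K + {w} := by
  rw [Set.add_singleton]

/-- volume of a translated combination -/
lemma vol_comb_trans {n : ℕ} (L K N : Set (E n)) (a b c : ℝ) (w : E n) :
    volume.real (a • L + b • ((fun x => x + w) '' K) + c • N) =
      volume.real (a • L + b • K + c • N) := by
  have h1 : a • L + b • ((fun x => x + w) '' K) + c • N =
      (fun x => x + b • w) '' (a • L + b • K + c • N) := by
    rw [trans_eq, trans_eq, smul_add, Set.smul_set_singleton]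
    abel
  rw [h1]
  unfold Measure.real
  rw [Set.image_add_right, measure_preimage_add_right]

/-- midpoint of two combinations -/
lemma half_comb {n : ℕ} {L K N : Set (E n)} (hL : Convex ℝ L) (hK : Convex ℝ K) (hN : Convex ℝ N)
    {a b c a' b' c' : ℝ} (ha : 0 ≤ a) (hb : 0 ≤ b) (hc : 0 ≤ c) (ha' : 0 ≤ a') (hb' : 0 ≤ b')
    (hc' : 0 ≤ c') :
    (1 / 2 : ℝ) • ((a • L + b • K + c • N) + (a' • L + b' • K + c' • N)) =
      ((a + a') / 2) • L + ((b + b') / 2) • K + ((c + c') / 2) • N := by
  have h1 : (a • L + b • K + c • N) + (a' • L + b' • K + c' • N) =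
      (a + a') • L + (b + b') • K + (c + c') • N := by
    rw [hL.add_smul ha ha', hK.add_smul hb hb', hN.add_smul hc hc']
    abel
  rw [h1, smul_add, smul_add, smul_smul, smul_smul, smul_smul,
    show (1 / 2 : ℝ) * (a + a') = (a + a') / 2 by ring,
    show (1 / 2 : ℝ) * (b + b') = (b + b') / 2 by ring,
    show (1 / 2 : ℝ) * (c + c') = (c + c') / 2 by ring]

lemma body_comb {n : ℕ} {L K N : Set (E n)} (hL : IsBody L) (hK : IsBody K) (hN : IsBody N)
    (a b c : ℝ) : IsBody (a • L + b • K + c • N) :=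
  ⟨((hL.1.smul_set).add (hK.1.smul_set)).add (hN.1.smul_set),
    ((hL.2.1.smul a).add (hK.2.1.smul b)).add (hN.2.1.smul c),
    ((hL.2.2.smul a).add (hK.2.2.smul b)).add (hN.2.2.smul c)⟩

lemma kap_ge : (1 : ℝ) ≤ kap := by
  unfold kap
  have h : √3 ≤ 2 := by
    rw [show (2 : ℝ) = √4 by rw [show (4 : ℝ) = 2 ^ 2 by norm_num]; simp]
    exact Real.sqrt_le_sqrt (by norm_num)
  rw [le_div_iff₀ (by norm_num)]
  linarith

/-- the final algebra -/
lemma final_alg {a300 a210 a120 a201 a102 a111 B σ : ℝ} (h300 : 0 < a300)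
    (hB : 0 < B) (hσ : 0 ≤ σ) (h210 : 0 ≤ a210) (h201 : 0 ≤ a201) (h111 : 0 ≤ a111)
    (hlin : a210 ≤ (1 + σ) * a300) (hkey : a111 + σ * a102 ≤ a201) (hb : B ≤ a102)
    (hc : a201 ≤ (3 - √3) * B)
    (haf : ∀ β : ℝ, 0 < β ^ 2 * a300 + 2 * β * a201 + a102 →
      a120 * (β ^ 2 * a300 + 2 * β * a201 + a102) ≤ (β * a210 + a111) ^ 2) :
    a120 ≤ kap * a300 := by
  have hs0 : (0 : ℝ) ≤ √3 := Real.sqrt_nonneg 3
  have hs2 : √3 * √3 = 3 := Real.mul_self_sqrt (by norm_num)
  have hs3 : √3 ≤ 2 := by nlinarith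
  by_cases hneg : a120 ≤ 0
  · have := kap_ge
    nlinarith
  push Not at hneg
  set β : ℝ := B / a300 with hβ
  have hβ0 : 0 < β := by positivity
  have hβa : β * a300 = B := by rw [hβ]; field_simp
  have h1 : 0 < β ^ 2 * a300 + 2 * β * a201 + a102 := by
    have : 0 < a102 := lt_of_lt_of_le hB hb
    positivity
  have h2 := haf β h1
  have h3 : β * a210 + a111 ≤ B + a201 := by
    have h4 : β * a210 ≤ β * ((1 + σ) * a300) := mul_le_mul_of_nonneg_left hlin hβ0.le
    have h5 : β * ((1 + σ) * a300) = (1 + σ) * B := by rw [← hβa]; ring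
    have h6 : σ * B ≤ σ * a102 := mul_le_mul_of_nonneg_left hb hσ
    nlinarith
  have h4 : 0 ≤ β * a210 + a111 := by positivity
  have h5 : (β * a210 + a111) ^ 2 ≤ (B + a201) ^ 2 := by
    apply pow_le_pow_left₀ h4 h3
  have h6 : a120 * (β * (B + 2 * a201)) ≤ (B + a201) ^ 2 := by
    have h7 : β ^ 2 * a300 = β * B := by rw [← hβa]; ring
    have h8 : a120 * (β * (B + 2 * a201)) ≤ a120 * (β ^ 2 * a300 + 2 * β * a201 + a102) := by
      apply mul_le_mul_of_nonneg_left _ hneg.le
      rw [h7]
      nlinarith [lt_of_lt_of_le hB hb]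
    linarith
  -- multiply by a300
  have h7 : a120 * (B * (B + 2 * a201)) ≤ (B + a201) ^ 2 * a300 := by
    have h8 : a120 * (B * (B + 2 * a201)) = (a120 * (β * (B + 2 * a201))) * a300 := by
      rw [← hβa]; ring
    rw [h8]
    exact mul_le_mul_of_nonneg_right h6 h300.le
  have h8 : (B + a201) ^ 2 ≤ kap * (B * (B + 2 * a201)) := by
    -- (1+r)^2 <= kap (1+2r) for 0 <= r <= 3 - sqrt 3
    unfold kap
    rw [div_mul_eq_mul_div, le_div_iff₀ (by norm_num)]
    have h9 : 0 ≤ (3 - √3) * B - a201 := by linarith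
    have h10 : 0 ≤ a201 := h201
    nlinarith [mul_nonneg h9 h10, mul_nonneg h9 hB.le, mul_nonneg h10 hB.le, sq_nonneg (√3 - 1)]
  have h9 : 0 < B * (B + 2 * a201) := by positivity
  have h10 : a120 * (B * (B + 2 * a201)) ≤ (kap * a300) * (B * (B + 2 * a201)) := by
    calc _ ≤ (B + a201) ^ 2 * a300 := h7
      _ ≤ (kap * (B * (B + 2 * a201))) * a300 := mul_le_mul_of_nonneg_right h8 h300.le
      _ = _ := by ring
  exact le_of_mul_le_mul_right h10 h9


theorem p_QUAD (h_FBODY : T_FBODY) (h_COMB : T_COMB) (h_KEYW : T_KEYW) (h_CONT : T_CONT)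
    (h_CUP : T_CUP) (h_BLOW : T_BLOW) (h_PSIX : T_PSIX) (h_AFL : T_AFL) (h_NONN : T_NONN)
    (h_LINC : T_LINC) (h_KEYC : T_KEYC) (h_PLC : T_PLC) (h_POLY : T_POLY) : T_QUAD := by
  intro K L hK hL hKi hLi hcov
  have hLpos : 0 < volume.real L := by
    unfold Measure.real
    rw [ENNReal.toReal_pos_iff]
    exact ⟨lt_of_lt_of_le (isOpen_interior.measure_pos volume hLi)
      (measure_mono interior_subset), hL.2.1.measure_lt_top⟩
  by_cases hfit : ∃ t : E 3, K ⊆ (fun x => x + t) '' L
  · obtain ⟨t, ht⟩ := hfit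
    obtain ⟨a300, a210, a120, a030, a201, a102, a003, a021, a012, a111, hp⟩ :=
      h_POLY L K L hL hK hL hLi hKi hLi
    have hp0 : ∀ a b : ℝ, 0 ≤ a → 0 ≤ b → volume.real (a • L + b • K) =
        a300 * a ^ 3 + 3 * a210 * a ^ 2 * b + 3 * a120 * a * b ^ 2 + a030 * b ^ 3 := by
      intro a b ha hb
      have h1 := hp a b 0 ha hb le_rfl
      simp only at h1
      rw [Set.zero_smul_set hL.1, add_zero] at h1
      rw [h1]
      unfold cub
      ring
    obtain ⟨h1, h2⟩ := h_LINC L K L hL hK hL a300 a210 a120 a030 a201 a102 a003 a021 a012 a111 hp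
      1 t zero_le_one (by simpa using ht)
    have h3 : a300 = volume.real L := by
      have := hp0 1 0 zero_le_one le_rfl
      rw [Set.zero_smul_set hK.1, add_zero, one_smul] at this
      rw [this]; ring
    have h4 := kap_ge
    refine ⟨a300, a210, a120, a030, hp0, ?_, ?_⟩
    · nlinarith
    · nlinarith
  · obtain ⟨z, g, δ, w, t, hz, hg1, hδ, hgL, hgLa, hgK, hKt⟩ :=
      h_CONT 3 (by norm_num) K L hK hL hLi hcov hfit
    set K' : Set (E 3) := (fun x => x + w) '' K with hK'
    have hK'b : IsBody K' := body_trans w hK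
    have hK'i : (interior K').Nonempty := by
      have : interior K' = (fun x => x + w) '' interior K := by
        rw [hK']
        exact ((Homeomorph.addRight w).image_interior K).symm
      rw [this]
      exact hKi.image _
    have hcov' : Covers L K' := covers_trans w hcov
    set N : Set (E 3) := upS z (1 / 4) with hN
    have hNb : IsBody N := (h_FBODY 3 z hz).1 _ (by norm_num)
    have hNi : (interior N).Nonempty := (h_FBODY 3 z hz).2.1 _ (by norm_num)
    obtain ⟨a300, a210, a120, a030, a201, a102, a003, a021, a012, a111, hp⟩ :=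
      h_POLY L K' N hL hK'b hNb hLi hK'i hNi
    simp only at hp
    -- translation of `K'`
    have hKt' : K' ⊆ (fun x => (1 + (3 + 1) * δ) • x + (t + w)) '' L := by
      rintro _ ⟨x, hx, rfl⟩
      obtain ⟨y, hy, hyx⟩ := hKt hx
      refine ⟨y, hy, ?_⟩
      simp only at hyx ⊢
      rw [← hyx]
      push_cast
      abel
    have hp0 : ∀ a b : ℝ, 0 ≤ a → 0 ≤ b → volume.real (a • L + b • K) =
        a300 * a ^ 3 + 3 * a210 * a ^ 2 * b + 3 * a120 * a * b ^ 2 + a030 * b ^ 3 := by
      intro a b ha hb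
      have h1 := hp a b 0 ha hb le_rfl
      rw [Set.zero_smul_set hNb.1, add_zero] at h1
      have h2 := vol_comb_trans L K N a b 0 w
      rw [Set.zero_smul_set hNb.1, add_zero, add_zero] at h2
      rw [← h2, h1]
      unfold cub
      ring
    have h300 : a300 = volume.real L := by
      have := hp0 1 0 zero_le_one le_rfl
      rw [Set.zero_smul_set hK.1, add_zero, one_smul] at this
      rw [this]; ring
    have h003 : a003 = volume.real (upS z (1 / 4)) := by
      have := hp 0 0 1 le_rfl le_rfl zero_le_one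
      rw [Set.zero_smul_set hL.1, Set.zero_smul_set hK'b.1, add_zero, zero_add, one_smul] at this
      rw [← hN, this]
      unfold cub
      ring
    have hVN : 0 < a003 := by
      rw [h003, ← hN]
      unfold Measure.real
      rw [ENNReal.toReal_pos_iff]
      exact ⟨lt_of_lt_of_le (isOpen_interior.measure_pos volume hNi)
        (measure_mono interior_subset), hNb.2.1.measure_lt_top⟩
    have hLN : ∀ r : ℝ, 0 ≤ r → volume.real (L + upS z (r / 4)) =
        a300 + 3 * a201 * r + 3 * a102 * r ^ 2 + a003 * r ^ 3 := by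
      intro r hr
      have h1 := hp 1 0 r zero_le_one le_rfl hr
      rw [Set.zero_smul_set hK'b.1, add_zero, one_smul, hN, upS_smul hz hr (by norm_num)] at h1
      rw [show r / 4 = r * (1 / 4) by ring, h1]
      unfold cub
      ring
    -- the maxima of the coordinates
    have hmax : ∀ i, ∃ p ∈ L, ∀ x ∈ L, z i x ≤ z i p := by
      intro i
      obtain ⟨p, hp, hpm⟩ := hL.2.1.exists_isMaxOn hL.1 (z i).continuous.continuousOn
      exact ⟨p, hp, fun x hx => hpm hx⟩
    choose p hpL hpm using hmax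
    set h : Fin 4 → ℝ := fun i => z i (p i) with hh
    have hsumz : ∀ x : E 3, ∑ i, z i x = 0 := hz.sum_zero
    have hmi : ∀ i, 0 ≤ g i + h i := by
      intro i
      have := hgL i _ (hpL i)
      simp only [hh]
      linarith
    have hm1 : ∀ i, g i + h i ≤ 1 := by
      intro i
      have h1 : ∑ j, (z j (p i) + g j) = 1 := by
        rw [Finset.sum_add_distrib, hsumz, hg1, zero_add]
      have h2 : z i (p i) + g i ≤ ∑ j, (z j (p i) + g j) :=
        Finset.single_le_sum (f := fun j => z j (p i) + g j)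
          (fun j _ => by have := hgL j _ (hpL i); linarith) (Finset.mem_univ i)
      simp only [hh]
      linarith
    have hm3 : ∀ i, 1 ≤ ∑ j, (g j + h j) - (g i + h i) := by
      intro i
      obtain ⟨x, hx, hxi⟩ := hgLa i
      have h1 : ∑ j, (z j x + g j) = 1 := by
        rw [Finset.sum_add_distrib, hsumz, hg1, zero_add]
      have h2 : ∑ j, (z j x + g j) - (z i x + g i) ≤ ∑ j, (g j + h j) - (g i + h i) := by
        rw [← Finset.sum_erase_eq_sub (Finset.mem_univ i),
          ← Finset.sum_erase_eq_sub (Finset.mem_univ i)]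
        apply Finset.sum_le_sum
        intro j _
        have := hpm j x hx
        simp only [hh]
        linarith
      rw [h1, hxi] at h2
      linarith
    have hLtr : L ⊆ trS z g h := fun x hx i => ⟨hgL i x hx, hpm i x hx⟩
    have hsumH : ∑ i, h i = ∑ j, (g j + h j) - 1 := by
      rw [Finset.sum_add_distrib, hg1]; ring
    have hHpos : 0 < ∑ i, h i := by
      -- some coordinate is not constant on `L`
      by_contra hcon
      push Not at hcon
      have hz0 : ∀ i, g i + h i = 0 := by
        intro i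
        have h1 := hm3 i
        have h2 := hmi i
        rw [hsumH] at hcon
        linarith
      have : ∑ j, (g j + h j) = 0 := Finset.sum_eq_zero fun i _ => hz0 i
      have h3 := hm3 0
      rw [this, hz0 0] at h3
      linarith
    have hcup := h_CUP z hz g h L hL hLtr hg1 hm1 hmi hm3 a300 a201 a102 a003 h003 hLN
    have hblow := h_BLOW z hz h L hL (fun i => ⟨p i, hpL i, rfl⟩) hHpos.le a300 a201 a102 a003
      h003 hLN
    have hpsix := h_PSIX (fun i => 1 - (g i + h i)) (fun i => by have := hm1 i; linarith)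
      (fun i => by have := hmi i; linarith)
      (fun i => by
        have h1 := hm3 i
        have h2 : ∑ j, (1 - (g j + h j)) = 4 - ∑ j, (g j + h j) := by
          rw [Finset.sum_sub_distrib]; simp
        rw [h2]
        linarith)
    have hc : a201 ≤ (3 - √3) * ((∑ i, h i) * a003) := by
      have e1 : ∑ j, (1 - (g j + h j)) = 4 - ∑ j, (g j + h j) := by
        rw [Finset.sum_sub_distrib]; simp
      rw [e1] at hpsix
      have e2 : (3 : ℝ) - (4 - ∑ j, (g j + h j)) = ∑ i, h i := by rw [hsumH]; ring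
      rw [e2] at hpsix
      have q : ∀ i j : Fin 4, (1 - (g i + h i)) + (1 - (g j + h j)) - 1 =
          1 - (g i + h i) - (g j + h j) := fun i j => by ring
      rw [q, q, q, q, q, q] at hpsix
      calc a201 ≤ _ := hcup
        _ ≤ ((3 - √3) * ∑ i, h i) * a003 := mul_le_mul_of_nonneg_right hpsix hVN.le
        _ = _ := by ring
    -- the key inequality
    have hwall := h_KEYW 3 (by norm_num) z hz K' L g δ hδ.le hcov' hgL (by
      intro i
      obtain ⟨x, hx, hxi⟩ := hgK i
      exact ⟨x + w, ⟨x, hx, rfl⟩, hxi⟩)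
    have hUb : IsBody (upS z δ) := (h_FBODY 3 z hz).1 _ hδ.le
    have hK2 : IsBody (K' + upS z δ) :=
      ⟨hK'b.1.add hUb.1, hK'b.2.1.add hUb.2.1, hK'b.2.2.add hUb.2.2⟩
    have hkey := h_KEYC a300 a210 a120 a030 a201 a102 a003 a021 a012 a111 δ hδ.le (by
      intro s r hs hr
      have h1 := h_COMB 3 (by norm_num) z hz (K' + upS z δ) L hK2 hL hwall s (r / 4) hs
        (by positivity)
      have e1 : L + s • (K' + upS z δ) + upS z (r / 4) =
          (1 : ℝ) • L + s • K' + (4 * δ * s + r) • N := by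
        rw [one_smul, smul_add, upS_smul hz hs hδ.le, hN,
          upS_smul hz (by positivity) (by norm_num),
          show (4 * δ * s + r) * (1 / 4) = s * δ + r / 4 by ring,
          ← upS_add hz (by positivity) (by positivity)]
        simp only [add_assoc]
      have e2 : L + s • (K' + upS z δ) = (1 : ℝ) • L + s • K' + (4 * δ * s) • N := by
        rw [one_smul, smul_add, upS_smul hz hs hδ.le, hN,
          upS_smul hz (by positivity) (by norm_num),
          show (4 * δ * s) * (1 / 4) = s * δ by ring]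
        simp only [add_assoc]
      have e3 : (1 + s) • L + upS z (r / 4) = (1 + s) • L + (0 : ℝ) • K' + r • N := by
        rw [Set.zero_smul_set hK'b.1, add_zero, hN, upS_smul hz hr (by norm_num),
          show r * (1 / 4) = r / 4 by ring]
      have e4 : (1 + s) • L = (1 + s) • L + (0 : ℝ) • K' + (0 : ℝ) • N := by
        rw [Set.zero_smul_set hK'b.1, add_zero, Set.zero_smul_set hNb.1, add_zero]
      rw [e1, e2, e3, hp 1 s _ zero_le_one hs (by positivity),
        hp 1 s _ zero_le_one hs (by positivity), hp (1 + s) 0 r (by positivity) le_rfl hr] at h1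
      have h5 : volume.real ((1 + s) • L) = cub a300 a210 a120 a030 a201 a102 a003 a021 a012 a111
          (1 + s) 0 0 := by
        rw [e4]
        exact hp (1 + s) 0 0 (by positivity) le_rfl le_rfl
      rw [h5] at h1
      exact h1)
    obtain ⟨h210, h201, h111⟩ := h_NONN L K' N hL hK'b hNb a300 a210 a120 a030 a201 a102 a003 a021
      a012 a111 hp
    obtain ⟨hl1, -⟩ := h_LINC L K' N hL hK'b hNb a300 a210 a120 a030 a201 a102 a003 a021
      a012 a111 hp (1 + (3 + 1) * δ) (t + w) (by positivity) hKt'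
    have haf := h_AFL a300 a210 a120 a030 a201 a102 a003 a021 a012 a111 (by rw [h300]; exact hLpos)
      (by
        intro a b c a' b' c' ha hb hc ha' hb' hc'
        have h1 := h_PLC 3 _ _ (body_comb hL hK'b hNb a b c) (body_comb hL hK'b hNb a' b' c')
        rw [half_comb hL.2.2 hK'b.2.2 hNb.2.2 ha hb hc ha' hb' hc', hp a b c ha hb hc,
          hp a' b' c' ha' hb' hc', hp _ _ _ (by positivity) (by positivity) (by positivity)] at h1
        exact h1)
    -- `a210 <= 2 a300`
    have h210' : a210 ≤ 2 * a300 := by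
      obtain ⟨t1, ht1⟩ := incl' (by norm_num) hL hcov'
      have h1 : ((3 : ℕ) : ℝ) / (((3 : ℕ) : ℝ) - 1) = 3 / 2 := by norm_num
      rw [h1] at ht1
      obtain ⟨h2, -⟩ := h_LINC L K' N hL hK'b hNb a300 a210 a120 a030 a201 a102 a003 a021
        a012 a111 hp (3 / 2) t1 (by norm_num) ht1
      have h3 : 0 < a300 := by rw [h300]; exact hLpos
      linarith
    refine ⟨a300, a210, a120, a030, hp0, ?_, h210'⟩
    exact final_alg (B := (∑ i, h i) * a003) (σ := 4 * δ) (by rw [h300]; exact hLpos)
      (by positivity) (by positivity) h210 h201 h111 (by linarith) (by linarith) hblow hc haf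

end Pool.Agent.CS3
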