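import Mathlib
import Pool.Agent.CS3.Targets

/-!
# Covering shadows in dimension three: the volume of a simplex
-/

set_option autoImplicit false

open Finset MeasureTheory Filter Topology
open scoped Pointwise ENNReal

namespace Pool.Agent.CS3

open Pool.Agent.Shadow

theorem p_SV (h_FSURJ : T_FSURJ) (_h_FBODY : T_FBODY) : T_SV := by
  intro z hz c
  set s : ℝ := ∑ i, c i with hs
  rcases lt_or_ge s 0 with hneg | hpos
  · have hempty : loS z c = ∅ := by
      rw [Set.eq_empty_iff_forall_notMem]
      intro x hx
      have h1 : ∑ i, -c i ≤ ∑ i, z i x := Finset.sum_le_sum fun i _ => hx i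
      rw [hz.sum_zero, Finset.sum_neg_distrib] at h1
      linarith
    rw [hempty, max_eq_right hneg.le]
    simp
  · obtain ⟨x0, hx0⟩ := h_FSURJ 3 z hz (fun i => -c i + s / 4) (by
      rw [Finset.sum_add_distrib, Finset.sum_neg_distrib, ← hs]
      simp
      ring)
    have h0 : (0 : E 3) ∈ upS z (1 / 4) := fun i => by rw [map_zero]; norm_num
    have heq : loS z c = (fun x => -x0 + x) ⁻¹' ((-s) • upS z (1 / 4)) := by
      ext x
      rw [Set.mem_preimage]
      have key : x ∈ loS z c ↔ ∀ i, -(s / 4) ≤ z i (-x0 + x) := by
        constructor
        · intro h i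
          have := h i
          rw [map_add, map_neg, hx0]
          linarith
        · intro h i
          have := h i
          rw [map_add, map_neg, hx0] at this
          linarith
      rw [key]
      rcases hpos.eq_or_lt with h | h
      · rw [← h, neg_zero, Set.zero_smul_set ⟨0, h0⟩, Set.mem_zero]
        constructor
        · intro hx
          apply hz.inj
          have hnn : ∀ i, 0 ≤ z i (-x0 + x) := fun i => by have := hx i; linarith
          have hsum := hz.sum_zero (-x0 + x)
          have := (Finset.sum_eq_zero_iff_of_nonneg fun i _ => hnn i).1 hsum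
          exact fun i => this i (Finset.mem_univ i)
        · intro hx i
          rw [hx, map_zero]
          norm_num
      · rw [Set.mem_smul_set_iff_inv_smul_mem₀ (by linarith)]
        apply forall_congr'
        intro i
        have e1 : z i ((-s)⁻¹ • (-x0 + x)) = -(z i (-x0 + x)) / s := by
          rw [map_smul, smul_eq_mul, inv_neg, neg_mul, ← div_eq_inv_mul, neg_div]
        rw [e1, div_le_iff₀ h]
        constructor <;> intro h' <;> linarith
    have hvol : volume.real (loS z c) = s ^ 3 * volume.real (upS z (1 / 4)) := by
      unfold Measure.real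
      rw [heq, measure_preimage_add, Measure.addHaar_smul, ENNReal.toReal_mul,
        ENNReal.toReal_ofReal (abs_nonneg _)]
      congr 1
      rw [finrank_euclideanSpace_fin, abs_pow, abs_neg, abs_of_nonneg hpos]
    rw [hvol, max_eq_left hpos]

end Pool.Agent.CS3
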